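import Pool.Agent.P.MP_f1a348_lc.UP.Prog

/-!
Project GF: unitary elements of algebras and of their cosets, for every prime.  The program.
-/

namespace Pool.Agent.P.MP_f1a348_lc.UP.GF

open Pool.Agent.P.MP_f1a348_lc.PG

/-! ### the cut -/

def lsq (c : Cx) (X : List V) : List V :=
  basis c (u2 c) (X.flatMap fun x => X.map fun y => mmul c (mstar c x) y)
def trs (c : Cx) (A : List V) : List V := A.map fun a => axpy c (u2 c) 1 a (mstar c a)
def nq (c : Cx) (x : V) : V :=
  axpy c (u2 c) (ng c (ent c x (cz c) (cz c) * ent c x (cz c) (cz c))) (oneP c)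
    (mmul c (mstar c x) x)
def cut1 (c : Cx) (X : List V) : List V :=
  preim c (u2 c) (u2 c) (preim c (u2 c) (u2 c) X (nq c) (trs c (lsq c X)))
    (fun x => nq c (mstar c x)) (trs c (lsq c (X.map (mstar c))))
def cutA (c : Cx) (X : List V) : List V :=
  (u2 c).foldl (fun X _ => cut1 c X) (basis c (u2 c) X)

/-! ### linear algebra -/

def dkP (c : Cx) (l : V) (k : ℕ) : List V :=
  ((ran (u2 c)).filter fun i => Nat.blt (cz c) (i / mM c) && Nat.blt (cz c) (i % mM c) &&
    Nat.ble (l.getD (i / mM c) 0 + l.getD (rv c (i % mM c)) 0 + k)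
      (l.getD (i % mM c) 0 + l.getD (rv c (i / mM c)) 0)).map (unit c (u2 c))
def tkP (c : Cx) (l : V) (k : ℕ) : List V := dkP c l k ++ (dkP c l k).map (mstar c)
def skP (c : Cx) (x : V) : V := vsub c (u2 c) x (mstar c x)
/-- an element `x` of the span of `L` with `f x - z` in the span of `S` -/
def sol (c : Cx) (L : List V) (f : V → V) (z : V) (S : List V) : V :=
  (aff c (u2 c) (preim c (u2 c) (() :: u2 c) ([1] :: L.map fun r => 0 :: r)
    (fun r => axpy c (u2 c) (ng c (r.getD 0 0)) z (f r.tail)) S)).getD []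
def dot (c : Cx) (x y : V) : ℕ := sm (u1 c) fun i => sm (u1 c) fun j => ent c x i j * ent c y i j
def annM (c : Cx) (R : List V) : List V :=
  preAll c [()] (u2 c) (units c (u2 c)) R (fun r x => [dot c r x]) []
def uniQ (c : Cx) (g : V) : V := mmul c g (mstar c (invP c g))
def uni (c : Cx) (x : V) : V := uniQ c (axpy c (u2 c) 1 x (oneP c))

/-! ### the tower -/

def kp (c : Cx) (X T : List V) (g : V) : V :=
  vsub c (u2 c) (oneP c) (mmul c (mstar c g) (sol c X (nv c (u2 c)) g T))
def tstQ (c : Cx) (N : List V) (a t : V) : Bool :=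
  N.all fun b => dot c a (cjP c b t) % pp c == 0
def tst (c : Cx) (B L X T : List V) (i : ℕ) (g : V) : Bool :=
  tstQ c (nnP c B (unit c (u1 c) (i % mM c))) (L.getD (i / mM c) []) (kp c X T g)
def cor (c : Cx) (D W X T : List V) (g : V) : V :=
  gmul c g (uni c (sol c D (fun x => skP c (mstar c x)) (kp c X T g) W))
def lvQ (c : Cx) (A X B D T W L : List V) (s : V × List V) : V × List V :=
  (cor c D W X T (cos c (tst c B L A T) (tst c B L X T) (ran (u3 c)) s.1 s.2),
    red c ((subs c (tst c B L A T) (ran (u3 c)) s.2).map (cor c D W A T) ++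
      (preim c (u2 c) (u2 c) D (skP c) W).map (uni c)))
def lvl (c : Cx) (l : V) (A X B : List V) (s : V × List V) (k : ℕ) : V × List V :=
  lvQ c A X B (dkP c l (k + 1)) (tkP c l (k + 1)) (A ++ tkP c l (k + 2))
    (annM c (A ++ tkP c l (k + 2) ++ (dkP c l (k + 1)).map (skP c))) s
def tow (c : Cx) (l : V) (A X B Y : List V) : V × List V :=
  (ran (uh c)).foldl (lvl c l A X B) ((findU c l Y).getD [], genP c l B)

/-! ### the result -/

def two (c : Cx) (f' f : V) (X : List V) : List V :=
  X.map fun x => mmul c (mmul c (mstar c f') x) f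
def bck (c : Cx) (f' f : V) (r : V × List V) : V × List V :=
  (mmul c (mmul c f' r.1) (mstar c f), r.2.map (cjP c f))
def coQ (c : Cx) (A X : List V) (x : Lt) (y : Rt) : V × List V :=
  bck c y.1 x.2.1 (tow c x.1 (two c x.2.1 x.2.1 A) (two c y.1 x.2.1 X) x.2.2 y.2)
def coS (c : Cx) (A X : List V) (z : Lt × List Rt) : V × List V :=
  coQ c A X z.1 (z.2.getD 0 ([], []))
def coR (c : Cx) (l : V) (A X : List V) : V × List V :=
  coS c A X (refine c ((l, oneP c, A), [(oneP c, X)]))
def coT (c : Cx) (l : V) (X : List V) : V × List V := coR c l (lsq c X) X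
def core (c : Cx) (l : V) (X : List V) : V × List V := coT c l (cutA c X)
def fchk (c : Cx) (X : List V) (y : V) : Option V :=
  bif mem c (u2 c) X y && parP c y then some y else none
/-- a unitary element of the span of `X` -/
def findQ (c : Cx) (l : V) (X : List V) : Option V := fchk c X (core c l X).1
/-- generators of the unitary group of the span of `A` -/
def genQ (c : Cx) (l : V) (A : List V) : List V := (core c l A).2

end Pool.Agent.P.MP_f1a348_lc.UP.GF
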