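import Pool.Agent.P.MP_f1a348_lc.GF.TK
import Pool.Agent.P.MP_f1a348_lc.GF.Prog
import Pool.Agent.P.MP_f1a348_lc.UP.PIf

/-!
Project GF: unitary elements of algebras and of their cosets, for every prime.  Statements.
-/

namespace Pool.Agent.P.MP_f1a348_lc.UP.GF

open Matrix Module Pool.Agent.P.MP_f1a348_lc.PG

noncomputable section
variable {p n : ℕ}

/-- norms are traces up to a scalar -/
def Q0 (B : Sub p n) : Prop :=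
  ∀ a ∈ B, ∃ t ∈ B, st a * a = (a (c0 n) (c0 n) * a (c0 n) (c0 n)) • (1 : Mat p n) + (t + st t)

/-- isometries extend -/
def WP (X : Sub p n) : Prop :=
  ∀ h ∈ X, h (c0 n) (c0 n) = 1 →
    ∃ y, U1 X y ∧ ∀ u : Vec p n, st h *ᵥ (h *ᵥ u) = u → y *ᵥ u = h *ᵥ u

/-- a triangular algebra with simple diagonal part `B` and a coset `X` -/
structure Set1 (ℓ : Ix n → ℕ) (A B X : Sub p n) (φ : Mat p n) : Prop where
  sa : SA A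
  tri : ∀ a ∈ A, Tri ℓ a
  gr : B = A.map (gr ℓ)
  str : Str ℓ B
  par : Par ℓ φ
  eq : X = A.map (lm φ)

def Rk (ℓ : Ix n → ℕ) (A : Sub p n) (k : ℕ) : Sub p n := A ⊔ Tk ℓ (k + 1) ⊔ (Dk ℓ k).map sk

/-- the standard pairing of matrices -/
def dotM (a : Mat p n) : Mat p n →ₗ[ZMod p] ZMod p where
  toFun x := ∑ α, ∑ β, a α β * x α β
  map_add' x y := by simp [mul_add, Finset.sum_add_distrib]
  map_smul' c x := by simp [Finset.mul_sum, mul_left_comm]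

/-- the space of the predicate `NN` -/
def NS (B : Sub p n) (x : Vec p n) : Sub p n where
  carrier := {b | NN B x b}
  add_mem' ha hb := ⟨add_mem ha.1 hb.1, fun a h1 h2 => by
    rw [mul_add, ha.2 a h1 h2, hb.2 a h1 h2, add_zero]⟩
  zero_mem' := ⟨zero_mem _, fun a _ _ => mul_zero a⟩
  smul_mem' c _ ha := ⟨Submodule.smul_mem _ c ha.1, fun a h1 h2 => by
    rw [mul_smul_comm, ha.2 a h1 h2, smul_zero]⟩

/-- the test of a functional on a right ideal -/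
def Ps (ℓ : Ix n → ℕ) (X : Sub p n) (k : ℕ) (ψ : Mat p n →ₗ[ZMod p] ZMod p) (J : Sub p n)
    (g : Mat p n) : Prop :=
  ∃ x ∈ X, g - x ∈ Tk ℓ k ∧ ∀ b ∈ J, ψ (cj b (1 - st g * x)) = 0

/-- the invariant of the tower -/
structure Iv (ℓ : Ix n → ℕ) (A X : Sub p n) (k : ℕ) (y : GG p n) (G : SG p n) : Prop where
  mem : y.1 ∈ X ⊔ Tk ℓ k
  le : ∀ g ∈ G, g.1 ∈ A ⊔ Tk ℓ k
  cov : ∀ z : GG p n, z.1 ∈ A ⊔ Tk ℓ k → ∃ u ∈ G, z.1 - u.1 ∈ Tk ℓ k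

/-- frames on both sides -/
structure Fr2 (p n : ℕ) (ℓ : Ix n → ℕ) (A : Sub p n) (z : Mat p n) (x : Lt) (y : Rt) : Prop where
  ref : Ref ℓ A (lab n x.1) (mV p n x.2.1) (sp (mat p n) x.2.2)
  par : Par (l0 n) (mV p n y.1)
  phi : Par (lab n x.1) (st (mV p n y.1) * z * mV p n x.2.1)
  eq : sp (mat p n) y.2 = (sp (mat p n) x.2.2).map
    (lm (gr (lab n x.1) (st (mV p n y.1) * z * mV p n x.2.1)))

variable {ℓ : Ix n → ℕ} {A B X : Sub p n} {φ : Mat p n} {k : ℕ}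

theorem mem_NS {x : Vec p n} {b : Mat p n} : b ∈ NS B x ↔ NN B x b := Iff.rfl

theorem dotM_apply (a x : Mat p n) : dotM a x = ∑ α, ∑ β, a α β * x α β := rfl

theorem mem_sup_tk {g : Mat p n} : g ∈ X ⊔ Tk ℓ k ↔ ∃ x ∈ X, g - x ∈ Tk ℓ k := by
  rw [Submodule.mem_sup]
  exact ⟨fun ⟨x, hx, t, ht, e⟩ => ⟨x, hx, by rwa [← e, add_sub_cancel_left]⟩,
    fun ⟨x, hx, e⟩ => ⟨x, hx, _, e, add_sub_cancel _ _⟩⟩

theorem Set1.lab (h : Set1 ℓ A B X φ) : Lab ℓ := h.str.lab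

theorem Set1.self (h : Set1 ℓ A B X φ) : Set1 ℓ A B A 1 :=
  ⟨h.sa, h.tri, h.gr, h.str, Par.one, by ext x; simp⟩

theorem Set1.mem (h : Set1 ℓ A B X φ) {x : Mat p n} : x ∈ X ↔ ∃ a ∈ A, φ * a = x := by
  rw [h.eq]; rfl

theorem Set1.phi (h : Set1 ℓ A B X φ) : φ ∈ X := h.mem.2 ⟨1, h.sa.one, mul_one φ⟩

theorem Set1.triX (h : Set1 ℓ A B X φ) {x : Mat p n} (hx : x ∈ X) : Tri ℓ x := by
  obtain ⟨a, ha, rfl⟩ := h.mem.1 hx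
  exact h.par.1.mul (h.tri a ha)

theorem Set1.mul (h : Set1 ℓ A B X φ) {x a : Mat p n} (hx : x ∈ X) (ha : a ∈ A) : x * a ∈ X := by
  obtain ⟨b, hb, rfl⟩ := h.mem.1 hx
  exact h.mem.2 ⟨_, h.sa.mul b hb a ha, (mul_assoc _ _ _).symm⟩

theorem Set1.quo (h : Set1 ℓ A B X φ) {x y : Mat p n} (hx : x ∈ X) (hy : y ∈ X) :
    st x * y ∈ A := by
  obtain ⟨a, ha, rfl⟩ := h.mem.1 hx
  obtain ⟨b, hb, rfl⟩ := h.mem.1 hy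
  rw [st_mul, mul_assoc, ← mul_assoc (st φ), h.par.2.1.st_mul, one_mul]
  exact h.sa.mul _ (h.sa.star a ha) b hb

theorem Set1.memB (h : Set1 ℓ A B X φ) {b : Mat p n} : b ∈ B ↔ ∃ a ∈ A, PG.gr ℓ a = b := by
  rw [h.gr]; rfl

theorem Set1.triB (h : Set1 ℓ A B X φ) {b : Mat p n} (hb : b ∈ B) : Tri ℓ b :=
  (h.str.alg.dg b hb).tri h.lab

theorem Set1.tri_sup (h : Set1 ℓ A B X φ) {g : Mat p n} (hg : g ∈ X ⊔ Tk ℓ k) : Tri ℓ g := by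
  obtain ⟨x, hx, e⟩ := mem_sup_tk.1 hg
  simpa using (tk_tri e).add (h.triX hx)

theorem Set1.mul_sup (h : Set1 ℓ A B X φ) {g w : Mat p n} (hg : g ∈ X ⊔ Tk ℓ k)
    (hw : w ∈ A ⊔ Tk ℓ k) : g * w ∈ X ⊔ Tk ℓ k := by
  obtain ⟨x, hx, e⟩ := mem_sup_tk.1 hg
  obtain ⟨a, ha, e'⟩ := mem_sup_tk.1 hw
  refine mem_sup_tk.2 ⟨_, h.mul hx ha, ?_⟩
  have := add_mem (tk_left h.lab (h.tri_sup hg) e') (tk_right h.lab e (h.tri a ha))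
  rwa [mul_sub, sub_mul, sub_add_sub_cancel] at this

theorem Set1.quo_sup (h : Set1 ℓ A B X φ) {g w : Mat p n} (hg : g ∈ X ⊔ Tk ℓ k)
    (hw : w ∈ X ⊔ Tk ℓ k) : st g * w ∈ A ⊔ Tk ℓ k := by
  obtain ⟨x, hx, e⟩ := mem_sup_tk.1 hg
  obtain ⟨a, ha, e'⟩ := mem_sup_tk.1 hw
  refine mem_sup_tk.2 ⟨_, h.quo hx ha, ?_⟩
  have := add_mem (tk_left h.lab ((h.tri_sup hg).st h.lab) e')
    (tk_right h.lab (tk_st h.lab e) (h.triX ha))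
  rwa [mul_sub, st_sub, sub_mul, sub_add_sub_cancel] at this

theorem Set1.gr_sup (h : Set1 ℓ A B X φ) (hk : 1 ≤ k) {w : Mat p n} (hw : w ∈ A ⊔ Tk ℓ k) :
    PG.gr ℓ w ∈ B := by
  obtain ⟨a, ha, e⟩ := mem_sup_tk.1 hw
  exact h.memB.2 ⟨a, ha, (gr_eq_of_sub h.lab hk e).symm⟩

theorem wk_le : A ⊔ Tk ℓ (k + 1) ≤ Rk ℓ A k := le_sup_left

theorem tk_le_rk : Tk ℓ (k + 1) ≤ Rk ℓ A k := le_sup_right.trans wk_le

theorem sk_mem_rk (hl : Lab ℓ) (hk : 1 ≤ k) {t : Mat p n} (ht : t ∈ Tk ℓ k) : sk t ∈ Rk ℓ A k :=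
  Submodule.mem_sup_right (sk_mem hl hk ht)

/-- a unitary element that is `1` in weight `k` -/
theorem un_mem_rk (hl : Lab ℓ) (hk : 1 ≤ k) {g : Mat p n} (hg : Un g) (h : g - 1 ∈ Tk ℓ k) :
    g - 1 ∈ Rk ℓ A k := by
  simpa using add_mem (tk_le_rk (un_sk hl hk hg h)) (sk_mem_rk (A := A) hl hk (eD_mem h).1)

/-- the group of level `k` -/
def Yk [Fact p.Prime] (h : Set1 ℓ A B X φ) (k : ℕ) : SG p n :=
  sg (fun g => g.1 ∈ A ⊔ Tk ℓ k) (Submodule.mem_sup_left h.sa.one)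
    fun _ _ ha hb => h.self.mul_sup ha hb

theorem mem_Yk [Fact p.Prime] (h : Set1 ℓ A B X φ) {g : GG p n} :
    g ∈ Yk h k ↔ g.1 ∈ A ⊔ Tk ℓ k := Iff.rfl

end

variable (p n : ℕ) [Fact p.Prime]

/-! ### semisimple algebras -/

def S_SEPQ : Prop := ∀ (ℓ : Ix n → ℕ) (B : Sub p n) (W : VS p n) (b : Ix n) (y : Vec p n),
  Str ℓ B → Q0 B → Stab B W → y ∈ Vb ℓ b → Isot B y → y ∈ perp W → y ∉ W →
  ∃ π ∈ B, Iso π ∧ π *ᵥ y = y ∧ (∀ w ∈ W, π *ᵥ w = 0 ∧ st π *ᵥ w = 0) ∧ im π ≤ orb (Com B) y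

def S_WST : Prop := ∀ (ℓ : Ix n → ℕ) (B : Sub p n) (W : VS p n) (a : Ix n) (u u' : Vec p n),
  Str ℓ B → Q0 B → Stab B W → u ∈ Vb ℓ a → u' ∈ Vb ℓ a → u ∉ W → u' ∉ W →
  u' - u ∈ perp W → (∀ C ∈ Com B, ip (C *ᵥ u') u' = ip (C *ᵥ u) u) →
  ∃ w ∈ B, Un w ∧ w *ᵥ u = u' ∧ ∀ x ∈ W, w *ᵥ x = x

def S_WQ : Prop := ∀ (ℓ : Ix n → ℕ) (B : Sub p n), Str ℓ B → Q0 B → WP B ∧
  ∀ φ, Lev ℓ φ → WP (B.map (lm φ))

def S_NNL : Prop := ∀ (ℓ : Ix n → ℕ) (B : Sub p n), Str ℓ B →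
  (∀ j : Ix n, finrank (ZMod p) (NS B (Pi.single j 1)) ≤ 2 * n + 1) ∧
  (1 : Mat p n) ∈ ⨆ j : Ix n, NS B (Pi.single j 1)

def S_FU : Prop := ∀ (c : Cx) (l : V) (X : List V), Ok p n c → Lab (lab n l) →
  (∀ x ∈ sp (mat p n) X, Dg (lab n l) x) →
  (∀ y, findU c l X = some y → U1 (sp (mat p n) X) (mV p n y)) ∧
  (WP (sp (mat p n) X) → (∃ z, U1 (sp (mat p n) X) z) → (findU c l X).isSome = true) ∧
  (WP (sp (mat p n) X) → ∀ j : Ix n, ∀ v ∈ Vb (lab n l) j,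
    WP (Ht (sp (mat p n) X) (D0 (Pi.single j 1)) (D0 v)))

def S_GU : Prop := ∀ (c : Cx) (l : V) (A : List V), Ok p n c → Lab (lab n l) →
  Alg (lab n l) (sp (mat p n) A) → WP (sp (mat p n) A) →
  (∀ g ∈ genP c l A, U1 (sp (mat p n) A) (mV p n g)) ∧
  ∀ z, U1 (sp (mat p n) A) z → z ∈ Submonoid.closure {x | ∃ g ∈ genP c l A, mV p n g = x}

/-! ### the cut and the frames -/

def S_CUT1 : Prop := ∀ (c : Cx) (ℓ : Ix n → ℕ) (X : List V) (A : Sub p n) (z : Mat p n),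
  Ok p n c → Lab ℓ → Alg ℓ A → Lev ℓ z → sp (mat p n) X = A.map (lm z) →
  sp (mat p n) (lsq c X) = A ∧ ∃ A' ≤ A, Alg ℓ A' ∧
    sp (mat p n) (cut1 c X) = A'.map (lm z) ∧ (∀ w, U1 A w → w ∈ A') ∧ (A' = A ↔ Q0 A)

def S_CUTA : Prop := ∀ (c : Cx) (ℓ : Ix n → ℕ) (X : List V) (A : Sub p n) (z : Mat p n),
  Ok p n c → Lab ℓ → Alg ℓ A → Lev ℓ z → sp (mat p n) X = A.map (lm z) →
  ∃ A' ≤ A, Alg ℓ A' ∧ Q0 A' ∧ sp (mat p n) (cutA c X) = A'.map (lm z) ∧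
    sp (mat p n) (lsq c (cutA c X)) = A' ∧ ∀ w, U1 A w → w ∈ A'

def S_REF2 : Prop := ∀ (c : Cx) (l : V) (A X : List V) (z : Mat p n), Ok p n c →
  Lab (lab n l) → Alg (lab n l) (sp (mat p n) A) → Lev (lab n l) z →
  sp (mat p n) X = (sp (mat p n) A).map (lm z) →
  ∃ x y, refine c ((l, oneP c, A), [(oneP c, X)]) = (x, [y]) ∧
    Fr2 p n (lab n l) (sp (mat p n) A) z x y ∧ Str (lab n x.1) (sp (mat p n) x.2.2)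

/-! ### linear algebra -/

def S_DK : Prop := ∀ (c : Cx) (l : V) (k : ℕ), Ok p n c → Lab (lab n l) →
  sp (mat p n) (dkP c l k) = Dk (lab n l) k ∧
  (1 ≤ k → sp (mat p n) (tkP c l k) = Tk (lab n l) k) ∧ ∀ x, mV p n (skP c x) = sk (mV p n x)

def S_SOL : Prop := ∀ (c : Cx) (L : List V) (f : V → V) (F : Mat p n →ₗ[ZMod p] Mat p n)
  (z : V) (S : List V), Ok p n c → (∀ x, mV p n (f x) = F (mV p n x)) →
  (∃ x ∈ sp (mat p n) L, F x - mV p n z ∈ sp (mat p n) S) →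
  mV p n (sol c L f z S) ∈ sp (mat p n) L ∧
    F (mV p n (sol c L f z S)) - mV p n z ∈ sp (mat p n) S

def S_ANN : Prop := ∀ (c : Cx) (R : List V), Ok p n c →
  (∀ x y, ((dot c x y : ℕ) : ZMod p) = dotM (mV p n x) (mV p n y)) ∧
  (annM c R).length ≤ (2 * n + 1) * (2 * n + 1) ∧
  (∀ M, M ∈ sp (mat p n) R ↔ ∀ a ∈ annM c R, dotM (mV p n a) M = 0) ∧
  ∀ x, Bas (mat p n) (u2 c).length (nnP c R x) (NS (sp (mat p n) R) (vV p n x))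

def S_UNI : Prop := ∀ (c : Cx) (ℓ : Ix n → ℕ) (k : ℕ) (x : V), Ok p n c → Lab ℓ → 1 ≤ k →
  mV p n x ∈ Dk ℓ k →
  Par ℓ (mV p n (uni c x)) ∧ mV p n (uni c x) - 1 - sk (mV p n x) ∈ Tk ℓ (k + 1)

/-! ### the tower -/

def S_KAP : Prop := ∀ (ℓ : Ix n → ℕ) (A B X : Sub p n) (φ : Mat p n) (k : ℕ),
  Set1 ℓ A B X φ → 1 ≤ k →
  (∀ g x, Un g → x ∈ X → g - x ∈ Tk ℓ k → 1 - st g * x ∈ Tk ℓ k ∧
    (1 - st g * x) + st (1 - st g * x) ∈ A ⊔ Tk ℓ (k + 1) ∧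
    (g ∈ X ⊔ Tk ℓ (k + 1) ↔ 1 - st g * x ∈ A ⊔ Tk ℓ (k + 1)) ∧
    (∀ x' ∈ X, g - x' ∈ Tk ℓ k → st g * x - st g * x' ∈ A ⊔ Tk ℓ (k + 1)) ∧
    ∀ w a, Un w → a ∈ A → w - a ∈ Tk ℓ k → x * a ∈ X ∧ g * w - x * a ∈ Tk ℓ k ∧
      1 - st (g * w) * (x * a) - (cj (st (gr ℓ w)) (1 - st g * x) + (1 - st w * a)) ∈
        Tk ℓ (k + 1)) ∧
  (∀ t ∈ Tk ℓ k, ∀ b ∈ B, t ∈ Rk ℓ A k → cj b t ∈ Rk ℓ A k) ∧
  ∀ t ∈ Tk ℓ k, t + st t ∈ A ⊔ Tk ℓ (k + 1) → ∀ b ∈ B, ∀ b' ∈ B,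
    cj (b + b') t - (cj b t + cj b' t) ∈ Rk ℓ A k

def S_PS : Prop := ∀ (ℓ : Ix n → ℕ) (A B X : Sub p n) (φ : Mat p n) (k : ℕ),
  Set1 ℓ A B X φ → 1 ≤ k →
  (∀ (ψ : Mat p n →ₗ[ZMod p] ZMod p) (J : Sub p n), (∀ r ∈ Rk ℓ A k, ψ r = 0) → J ≤ B →
    (∀ g x, Un g → x ∈ X → g - x ∈ Tk ℓ k → (1 - st g * x ∈ Rk ℓ A k → Ps ℓ X k ψ J g) ∧
      ∀ L : Set (Mat p n), Submodule.span (ZMod p) L = J →
        (Ps ℓ X k ψ J g ↔ ∀ b ∈ L, ψ (cj b (1 - st g * x)) = 0)) ∧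
    ((∀ b ∈ J, ∀ a ∈ B, b * a ∈ J) → ∃ Q : SG p n, (∀ g, g ∈ Q ↔ Ps ℓ A k ψ J g.1) ∧
      (∀ G : SG p n, (∀ g ∈ G, g.1 ∈ A ⊔ Tk ℓ k) → Q.relIndex G ≤ p ^ finrank (ZMod p) J) ∧
      ∀ y w : GG p n, Ps ℓ X k ψ J y.1 → w.1 ∈ A ⊔ Tk ℓ k → (Ps ℓ X k ψ J (y * w).1 ↔ w ∈ Q))) ∧
  ∀ (Ψ : Set (Mat p n →ₗ[ZMod p] ZMod p)) (J : Ix n → Sub p n),
    (∀ M, M ∈ Rk ℓ A k ↔ ∀ ψ ∈ Ψ, ψ M = 0) → (∀ j, J j ≤ B) → (1 : Mat p n) ∈ ⨆ j, J j →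
    ∀ g x, Un g → x ∈ X → g - x ∈ Tk ℓ k → (∀ ψ ∈ Ψ, ∀ j, Ps ℓ X k ψ (J j) g) →
      1 - st g * x ∈ Rk ℓ A k

/-- the tests of one level -/
def S_TST : Prop := ∀ (c : Cx) (l : V) (A B X T L : List V) (φ : Mat p n) (k : ℕ) (y : V)
  (S : List V), Ok p n c →
  Set1 (lab n l) (sp (mat p n) A) (sp (mat p n) B) (sp (mat p n) X) φ → 1 ≤ k →
  sp (mat p n) T = Tk (lab n l) k → L.length ≤ (2 * n + 1) * (2 * n + 1) →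
  (∀ M, M ∈ Rk (lab n l) (sp (mat p n) A) k ↔ ∀ a ∈ L, dotM (mV p n a) M = 0) →
  Iv (lab n l) (sp (mat p n) A) (sp (mat p n) X) k (gD p n y) (gS p n S) →
  (∀ g, g ∈ gS p n (subs c (tst c B L A T) (ran (u3 c)) S) ↔ g ∈ gS p n S ∧
    ∃ a ∈ sp (mat p n) A, g.1 - a ∈ Tk (lab n l) k ∧
      1 - st g.1 * a ∈ Rk (lab n l) (sp (mat p n) A) k) ∧
  ∃ g : GG p n, mV p n (cos c (tst c B L A T) (tst c B L X T) (ran (u3 c)) y S) = g.1 ∧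
    ∃ x ∈ sp (mat p n) X, g.1 - x ∈ Tk (lab n l) k ∧
      1 - st g.1 * x ∈ Rk (lab n l) (sp (mat p n) A) k

/-- the correction -/
def S_COR : Prop := ∀ (c : Cx) (ℓ : Ix n → ℕ) (A B : Sub p n) (D W X T : List V) (φ : Mat p n)
  (k : ℕ) (y : V) (g : GG p n), Ok p n c → Set1 ℓ A B (sp (mat p n) X) φ → 1 ≤ k →
  sp (mat p n) D = Dk ℓ k → sp (mat p n) W = A ⊔ Tk ℓ (k + 1) → sp (mat p n) T = Tk ℓ k →
  mV p n y = g.1 → (∃ x ∈ sp (mat p n) X, g.1 - x ∈ Tk ℓ k ∧ 1 - st g.1 * x ∈ Rk ℓ A k) →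
  (gD p n (cor c D W X T y)).1 ∈ sp (mat p n) X ⊔ Tk ℓ (k + 1) ∧
    (gD p n (cor c D W X T y)).1 - g.1 ∈ Tk ℓ k

def S_LVL : Prop := ∀ (c : Cx) (l : V) (A B X : List V) (φ : Mat p n) (k : ℕ) (s : V × List V),
  Ok p n c → Set1 (lab n l) (sp (mat p n) A) (sp (mat p n) B) (sp (mat p n) X) φ →
  Iv (lab n l) (sp (mat p n) A) (sp (mat p n) X) (k + 1) (gD p n s.1) (gS p n s.2) →
  Iv (lab n l) (sp (mat p n) A) (sp (mat p n) X) (k + 2) (gD p n (lvl c l A X B s k).1)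
    (gS p n (lvl c l A X B s k).2)

def S_TOW : Prop := ∀ (c : Cx) (l : V) (A B X Y : List V) (φ : Mat p n), Ok p n c →
  Set1 (lab n l) (sp (mat p n) A) (sp (mat p n) B) (sp (mat p n) X) φ → Q0 (sp (mat p n) B) →
  sp (mat p n) Y = (sp (mat p n) B).map (lm (gr (lab n l) φ)) →
  U1 (sp (mat p n) X) (mV p n (tow c l A X B Y).1) ∧
  (∀ g ∈ (tow c l A X B Y).2, U1 (sp (mat p n) A) (mV p n g)) ∧
  ∀ z, U1 (sp (mat p n) A) z →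
    z ∈ Submonoid.closure {x | ∃ g ∈ (tow c l A X B Y).2, mV p n g = x}

def S_CORE : Prop := ∀ (c : Cx) (l : V) (X : List V) (A : Sub p n) (z : Mat p n), Ok p n c →
  Lab (lab n l) → Alg (lab n l) A → Lev (lab n l) z → sp (mat p n) X = A.map (lm z) →
  U1 (sp (mat p n) X) (mV p n (core c l X).1) ∧ (∀ g ∈ (core c l X).2, U1 A (mV p n g)) ∧
  ∀ w, U1 A w → w ∈ Submonoid.closure {x | ∃ g ∈ (core c l X).2, mV p n g = x}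

/-! ### the results -/

def S_QFIND : Prop := ∀ (c : Cx) (l : V) (X : List V), Ok p n c → Lab (lab n l) →
  (∀ x ∈ sp (mat p n) X, Dg (lab n l) x) →
  (∀ y, findQ c l X = some y → U1 (sp (mat p n) X) (mV p n y)) ∧
  ∀ A, Alg (lab n l) A → Cos A (sp (mat p n) X) → (∃ z, U1 (sp (mat p n) X) z) →
    (findQ c l X).isSome = true

def S_QGEN : Prop := ∀ (c : Cx) (l : V) (A : List V), Ok p n c → Lab (lab n l) →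
  Alg (lab n l) (sp (mat p n) A) → (∀ g ∈ genQ c l A, U1 (sp (mat p n) A) (mV p n g)) ∧
  ∀ z, U1 (sp (mat p n) A) z → z ∈ Submonoid.closure {x | ∃ g ∈ genQ c l A, mV p n g = x}

end Pool.Agent.P.MP_f1a348_lc.UP.GF
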