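import Pool.Agent.P.MP_f1a348_lc.GF.Prog
import Pool.Agent.P.MP_f1a348_lc.UP.PTime

/-!
Project GF: the program runs in polynomial time.
-/

namespace Pool.Agent.P.MP_f1a348_lc.UP.GF

open Pool.Agent.Lib.Helper47 Pool.Agent.P.MP_f1a348_lc.PG
open Pool.Agent.P.MP_f1a348_lc.GI (ps_len)

set_option synthInstance.maxSize 4096

variable {α : Type} [Enc α]

@[fun_prop] theorem pt_lsq {c : α → Cx} {X : α → List V} (h1 : PT c) (h2 : PT X) : PT (fun ee =>
    lsq (c ee) (X ee)) := by
  unfold lsq; fun_prop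

@[fun_prop] theorem pt_trs {c : α → Cx} {A : α → List V} (h1 : PT c) (h2 : PT A) : PT (fun ee =>
    trs (c ee) (A ee)) := by
  unfold trs; fun_prop

@[fun_prop] theorem pt_nq {c : α → Cx} {x : α → V} (h1 : PT c) (h2 : PT x) : PT (fun ee => nq (c
    ee) (x ee)) := by
  unfold nq; fun_prop

@[fun_prop] theorem pt_cut1 {c : α → Cx} {X : α → List V} (h1 : PT c) (h2 : PT X) : PT (fun ee =>
    cut1 (c ee) (X ee)) := by
  unfold cut1; fun_prop

@[fun_prop] theorem pt_cutA {c : α → Cx} {X : α → List V} (h1 : PT c) (h2 : PT X) : PT (fun ee =>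
    cutA (c ee) (X ee)) :=
  PT.foldl_add (f := fun e X _ => cut1 (c e) X) (by fun_prop) (by fun_prop) (by fun_prop) _
    (ps_bb h1 (pt_u2 h1)) fun _ _ _ _ => (size_basis _ _ _).trans (Nat.le_add_left _ _)

@[fun_prop] theorem pt_dkP {c : α → Cx} {l : α → V} {k : α → ℕ} (h1 : PT c) (h2 : PT l) (h3 : PT
    k) : PT (fun ee => dkP (c ee) (l ee) (k ee)) := by
  unfold dkP; fun_prop

@[fun_prop] theorem pt_tkP {c : α → Cx} {l : α → V} {k : α → ℕ} (h1 : PT c) (h2 : PT l) (h3 : PT
    k) : PT (fun ee => tkP (c ee) (l ee) (k ee)) := by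
  unfold tkP; fun_prop

@[fun_prop] theorem pt_skP {c : α → Cx} {x : α → V} (h1 : PT c) (h2 : PT x) : PT (fun ee => skP (c
    ee) (x ee)) := by
  unfold skP; fun_prop

@[fun_prop] theorem pt_sol {c : α → Cx} {L : α → List V} {f : α → V → V} {z : α → V} {S : α → List
    V} (h1 : PT c) (h2 : PT L) (h3 : PT (fun qq : α × V => f qq.1 qq.2)) (h4 : PT z) (h5 : PT S) :
    PT (fun ee => sol (c ee) (L ee) (f ee) (z ee) (S ee)) := by
  unfold sol; fun_prop

@[fun_prop] theorem pt_dot {c : α → Cx} {x : α → V} {y : α → V} (h1 : PT c) (h2 : PT x) (h3 : PT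
    y) : PT (fun ee => dot (c ee) (x ee) (y ee)) := by
  unfold dot; fun_prop

@[fun_prop] theorem pt_annM {c : α → Cx} {R : α → List V} (h1 : PT c) (h2 : PT R) : PT (fun ee =>
    annM (c ee) (R ee)) := by
  unfold annM; fun_prop

@[fun_prop] theorem pt_uniQ {c : α → Cx} {g : α → V} (h1 : PT c) (h2 : PT g) : PT (fun ee => uniQ
    (c ee) (g ee)) := by
  unfold uniQ; fun_prop

@[fun_prop] theorem pt_uni {c : α → Cx} {x : α → V} (h1 : PT c) (h2 : PT x) : PT (fun ee => uni (c
    ee) (x ee)) := by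
  unfold uni; fun_prop

@[fun_prop] theorem pt_kp {c : α → Cx} {X : α → List V} {T : α → List V} {g : α → V} (h1 : PT c)
    (h2 : PT X) (h3 : PT T) (h4 : PT g) : PT (fun ee => kp (c ee) (X ee) (T ee) (g ee)) := by
  unfold kp; fun_prop

@[fun_prop] theorem pt_tstQ {c : α → Cx} {N : α → List V} {a : α → V} {t : α → V} (h1 : PT c) (h2
    : PT N) (h3 : PT a) (h4 : PT t) : PT (fun ee => tstQ (c ee) (N ee) (a ee) (t ee)) := by
  unfold tstQ; fun_prop

@[fun_prop] theorem pt_tst {c : α → Cx} {B : α → List V} {L : α → List V} {X : α → List V} {T : α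
    → List V} {i : α → ℕ} {g : α → V} (h1 : PT c) (h2 : PT B) (h3 : PT L) (h4 : PT X) (h5 : PT T)
    (h6 : PT i) (h7 : PT g) : PT (fun ee => tst (c ee) (B ee) (L ee) (X ee) (T ee) (i ee) (g ee)) := by
  unfold tst; fun_prop

@[fun_prop] theorem pt_cor {c : α → Cx} {D : α → List V} {W : α → List V} {X : α → List V} {T : α
    → List V} {g : α → V} (h1 : PT c) (h2 : PT D) (h3 : PT W) (h4 : PT X) (h5 : PT T) (h6 : PT g)
    : PT (fun ee => cor (c ee) (D ee) (W ee) (X ee) (T ee) (g ee)) := by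
  unfold cor; fun_prop

@[fun_prop] theorem pt_lvQ {c : α → Cx} {A : α → List V} {X : α → List V} {B : α → List V} {D : α
    → List V} {T : α → List V} {W : α → List V} {L : α → List V} {s : α → V × List V} (h1 : PT c)
    (h2 : PT A) (h3 : PT X) (h4 : PT B) (h5 : PT D) (h6 : PT T) (h7 : PT W) (h8 : PT L) (h9 : PT
    s) : PT (fun ee => lvQ (c ee) (A ee) (X ee) (B ee) (D ee) (T ee) (W ee) (L ee) (s ee)) := by
  unfold lvQ; fun_prop

@[fun_prop] theorem pt_lvl {c : α → Cx} {l : α → V} {A : α → List V} {X : α → List V} {B : α →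
    List V} {s : α → V × List V} {k : α → ℕ} (h1 : PT c) (h2 : PT l) (h3 : PT A) (h4 : PT X) (h5 :
    PT B) (h6 : PT s) (h7 : PT k) : PT (fun ee => lvl (c ee) (l ee) (A ee) (X ee) (B ee) (s ee) (k
    ee)) := by
  unfold lvl; fun_prop

theorem size_lvl (c : Cx) (l : V) (A X B : List V) (s : V × List V) (k : ℕ) :
    size (lvl c l A X B s k) ≤ bv c (u2 c) + bR c + 1 :=
  (size_prod _).trans_le (Nat.succ_le_succ (Nat.add_le_add (size_gmul _ _ _) (size_red _ _)))

@[fun_prop] theorem pt_tow {c : α → Cx} {l : α → V} {A : α → List V} {X : α → List V} {B : α →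
    List V} {Y : α → List V} (h1 : PT c) (h2 : PT l) (h3 : PT A) (h4 : PT X) (h5 : PT B) (h6 : PT
    Y) : PT (fun ee => tow (c ee) (l ee) (A ee) (X ee) (B ee) (Y ee)) :=
  PT.foldl_add (f := fun e s k => lvl (c e) (l e) (A e) (X e) (B e) s k) (by fun_prop)
    (by fun_prop) (by fun_prop) _ (((ps_bv h1 (pt_u2 h1)).add (ps_bR h1)).add (PB.const 1))
    fun _ _ _ _ => (size_lvl _ _ _ _ _ _ _).trans (Nat.le_add_left _ _)

@[fun_prop] theorem pt_two {c : α → Cx} {f' : α → V} {f : α → V} {X : α → List V} (h1 : PT c) (h2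
    : PT f') (h3 : PT f) (h4 : PT X) : PT (fun ee => two (c ee) (f' ee) (f ee) (X ee)) := by
  unfold two; fun_prop

@[fun_prop] theorem pt_bck {c : α → Cx} {f' : α → V} {f : α → V} {r : α → V × List V} (h1 : PT c)
    (h2 : PT f') (h3 : PT f) (h4 : PT r) : PT (fun ee => bck (c ee) (f' ee) (f ee) (r ee)) := by
  unfold bck; fun_prop

@[fun_prop] theorem pt_coQ {c : α → Cx} {A : α → List V} {X : α → List V} {x : α → Lt} {y : α →
    Rt} (h1 : PT c) (h2 : PT A) (h3 : PT X) (h4 : PT x) (h5 : PT y) : PT (fun ee => coQ (c ee) (A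
    ee) (X ee) (x ee) (y ee)) := by
  unfold coQ; fun_prop

@[fun_prop] theorem pt_coS {c : α → Cx} {A : α → List V} {X : α → List V} {z : α → Lt × List Rt}
    (h1 : PT c) (h2 : PT A) (h3 : PT X) (h4 : PT z) : PT (fun ee => coS (c ee) (A ee) (X ee) (z
    ee)) := by
  unfold coS; fun_prop

@[fun_prop] theorem pt_coR {c : α → Cx} {l : α → V} {A : α → List V} {X : α → List V} (h1 : PT c)
    (h2 : PT l) (h3 : PT A) (h4 : PT X) : PT (fun ee => coR (c ee) (l ee) (A ee) (X ee)) := by
  unfold coR; fun_prop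

@[fun_prop] theorem pt_coT {c : α → Cx} {l : α → V} {X : α → List V} (h1 : PT c) (h2 : PT l) (h3 :
    PT X) : PT (fun ee => coT (c ee) (l ee) (X ee)) := by
  unfold coT; fun_prop

@[fun_prop] theorem pt_core {c : α → Cx} {l : α → V} {X : α → List V} (h1 : PT c) (h2 : PT l) (h3
    : PT X) : PT (fun ee => core (c ee) (l ee) (X ee)) := by
  unfold core; fun_prop

@[fun_prop] theorem pt_fchk {c : α → Cx} {X : α → List V} {y : α → V} (h1 : PT c) (h2 : PT X) (h3
    : PT y) : PT (fun ee => fchk (c ee) (X ee) (y ee)) := by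
  unfold fchk; fun_prop

@[fun_prop] theorem pt_findQ {c : α → Cx} {l : α → V} {X : α → List V} (h1 : PT c) (h2 : PT l) (h3
    : PT X) : PT (fun ee => findQ (c ee) (l ee) (X ee)) := by
  unfold findQ; fun_prop

@[fun_prop] theorem pt_genQ {c : α → Cx} {l : α → V} {A : α → List V} (h1 : PT c) (h2 : PT l) (h3
    : PT A) : PT (fun ee => genQ (c ee) (l ee) (A ee)) := by
  unfold genQ; fun_prop

/-! ### sizes of the results -/

theorem size_findQ {c : Cx} {l : V} {X : List V} {y : V} (h : findQ c l X = some y) :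
    size y ≤ bv c (u2 c) := by
  rw [findQ, fchk] at h
  cases e : mem c (u2 c) X (core c l X).1 && parP c (core c l X).1 <;> rw [e] at h
  · cases h
  · cases h; exact size_mmul _ _ _

theorem size_genQ {c : Cx} {l : V} {A : List V} {y : V} (h : y ∈ genQ c l A) :
    size y ≤ bv c (u2 c) := by
  obtain ⟨x, -, rfl⟩ := List.mem_map.1 h
  exact size_mmul _ _ _

theorem len_tow (c : Cx) (l : V) (A X B Y : List V) :
    (tow c l A X B Y).2.length ≤ (u1 c).length * (c.2.2.length + 1) := by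
  unfold tow
  rcases List.eq_nil_or_concat (ran (uh c)) with e | ⟨I, i, e⟩
  · rw [e]; exact len_genP _ _ _
  · have h1 : 0 < (u1 c).length := by
      have := congrArg List.length e
      rw [len_ran, uh, List.length_append, List.length_concat] at this
      omega
    rw [e, List.concat_eq_append, List.foldl_append]
    refine le_trans ?_ (Nat.le_mul_of_pos_left _ h1)
    exact (List.length_map _).trans_le ((List.length_take_le _ _).trans (Nat.le_succ _))

theorem len_genQ (c : Cx) (l : V) (A : List V) :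
    (genQ c l A).length ≤ (u1 c).length * (c.2.2.length + 1) :=
  (List.length_map _).trans_le (len_tow _ _ _ _ _ _)

end Pool.Agent.P.MP_f1a348_lc.UP.GF
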