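import Pool.Agent.P.MP_f1a348_lc.GF.Iface

/-! Annihilators and the left ideals of the tests. -/

namespace Pool.Agent.P.MP_f1a348_lc.UP.GF

open Matrix Module Pool.Agent.P.MP_f1a348_lc.PG

namespace TANN2

variable {p n : ℕ} [Fact p.Prime] {c : Cx}

theorem cast_dot (h : Ok p n c) (x y : V) :
    ((dot c x y : ℕ) : ZMod p) = dotM (mV p n x) (mV p n y) := by
  rw [dot, cast_sm, h.len1, sum_range_ix, dotM_apply]
  refine Finset.sum_congr rfl fun α _ => ?_
  rw [cast_sm, h.len1, sum_range_ix]
  exact Finset.sum_congr rfl fun β _ => by rw [Nat.cast_mul, h.mV_apply, h.mV_apply]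

omit [Fact p.Prime] in
theorem dot_comm (a b : Mat p n) : dotM a b = dotM b a := by
  simp only [dotM_apply, mul_comm]

theorem ann_bas (h : Ok p n c) (R : List V) : Bas (mat p n) (u2 c).length (annM c R)
    (sp (mat p n) (units c (u2 c)) ⊓ ⨅ r ∈ R, (sp (cf p 1) []).comap
      ((dotM (mV p n r)).smulRight (Pi.single 0 1 : Sq p))) :=
  preAll_bas (u := [()]) h.hp (dec_cf 1) h.d2 _ _ (fun r _ x => by
    funext i
    rw [LinearMap.smulRight_apply, ← cast_dot h, dv, cf_apply]
    cases i with
    | zero => simp [tv]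
    | succ i => simp) []

theorem mem_ann (h : Ok p n c) (R : List V) (a : Mat p n) :
    a ∈ sp (mat p n) (annM c R) ↔ ∀ r ∈ R, dotM (mV p n r) a = 0 := by
  rw [(ann_bas h R).sp, sp_units_top h.hp h.d2 mat_surj, top_inf_eq]
  simp only [Submodule.mem_iInf, Submodule.mem_comap, sp_nil, Submodule.mem_bot,
    LinearMap.smulRight_apply]
  refine forall₂_congr fun r _ => ⟨fun e => ?_, fun e => by rw [e, zero_smul]⟩
  simpa using congrFun e 0

theorem nn (h : Ok p n c) (B : List V) (x : V) (b : Mat p n) :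
    b ∈ sp (mat p n) (nnP c B x) ↔ NN (sp (mat p n) B) (vV p n x) b := by
  rw [nnP, mem_preAll h.hp h.d2 h.d2 B (fun a => LinearMap.mulLeft (ZMod p) (mV p n a))
    (fun a _ y => h.mmul a y), NN]
  refine and_congr_right fun _ => ?_
  have k := mem_preim (L := B) (f := fun a => mvec c a x) h.hp h.d1 h.d2 (evx (vV p n x))
    (fun a _ => h.mvec a x) []
  simp only [sp_nil, Submodule.mem_bot] at k ⊢
  constructor
  · intro e a ha h0
    have : sp (mat p n) (preim c (u1 c) (u2 c) B (fun a => mvec c a x) []) ≤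
        LinearMap.ker (LinearMap.mulRight (ZMod p) b) := sp_le.2 fun t ht => e t ht
    exact this ((k a).2 ⟨ha, h0⟩)
  · intro e t ht
    obtain ⟨h1, h2⟩ := (k _).1 (mem_sp ht)
    exact e _ h1 h2

end TANN2

open TANN2

theorem a_ANN (p n : ℕ) [Fact p.Prime] : S_ANN p n := by
  intro c R h
  refine ⟨cast_dot h, ?_, fun M => ⟨fun hM a ha => ?_, fun H => ?_⟩, fun x => ?_⟩
  · rw [(ann_bas h R).len]
    exact (Submodule.finrank_le _).trans (by simp [Module.finrank_matrix])
  · have : sp (mat p n) R ≤ LinearMap.ker (dotM (mV p n a)) := sp_le.2 fun r hr => by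
      rw [LinearMap.mem_ker, dot_comm]; exact (mem_ann h R _).1 (mem_sp ha) r hr
    exact this hM
  · by_contra hM
    obtain ⟨φ, h1, h2⟩ := Submodule.exists_dual_map_eq_bot_of_notMem hM inferInstance
    have e : ∀ x, dotM (Matrix.of fun α β => φ (Matrix.single α β 1)) x = φ x := fun x => by
      conv_rhs => rw [Matrix.matrix_eq_sum_single x]
      rw [dotM_apply, map_sum]
      refine Finset.sum_congr rfl fun α _ => ?_
      rw [map_sum]
      refine Finset.sum_congr rfl fun β _ => ?_
      rw [Matrix.of_apply, mul_comm, ← smul_eq_mul, ← map_smul, Matrix.smul_single, smul_eq_mul,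
        mul_one]
    have m : (Matrix.of fun α β => φ (Matrix.single α β 1)) ∈ sp (mat p n) (annM c R) :=
      (mem_ann h R _).2 fun r hr => by
        rw [dot_comm, e]
        exact (Submodule.mem_bot _).1 (h2 ▸ Submodule.mem_map_of_mem (mem_sp hr))
    have : sp (mat p n) (annM c R) ≤ LinearMap.ker (dotM M) := sp_le.2 fun a ha => by
      rw [LinearMap.mem_ker, dot_comm]; exact H a ha
    have k := this m
    rw [LinearMap.mem_ker, dot_comm, e] at k
    exact h1 k
  · have b := preAll_bas h.hp h.d2 h.d2 R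
      (ts := preim c (u1 c) (u2 c) R (fun a => mvec c a x) []) (f := fun a b => mmul c a b)
      (fun a => LinearMap.mulLeft (ZMod p) (mV p n a)) (fun a _ y => h.mmul a y) []
    have e : sp (mat p n) (nnP c R x) = NS (sp (mat p n) R) (vV p n x) :=
      Submodule.ext fun y => nn h R x y
    rw [← e]
    exact b.sp ▸ b

end Pool.Agent.P.MP_f1a348_lc.UP.GF
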