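import Pool.Agent.P.MP_f1a348_lc.GF.Iface

/-! Project GF: the correction step of the tower. -/

namespace Pool.Agent.P.MP_f1a348_lc.UP.GF

open Matrix Module Pool.Agent.P.MP_f1a348_lc.PG

namespace TCOR

variable {p n : ℕ} [Fact p.Prime]

theorem alg (hKAP : S_KAP p n) {ℓ : Ix n → ℕ} {A B X : Sub p n} {φ : Mat p n} {k : ℕ}
    (hs : Set1 ℓ A B X φ) (hk : 1 ≤ k) {g x m ν : Mat p n} (hg : Un g) (hx : x ∈ X)
    (e : g - x ∈ Tk ℓ k) (hm : m ∈ Dk ℓ k)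
    (hw : sk (st m) - (1 - st g * x) ∈ A ⊔ Tk ℓ (k + 1)) (hν : Par ℓ ν)
    (h1 : ν - 1 - sk m ∈ Tk ℓ (k + 1)) :
    g * ν ∈ X ⊔ Tk ℓ (k + 1) ∧ g * ν - g ∈ Tk ℓ k := by
  have hl := hs.lab
  have h2 : ν - 1 ∈ Tk ℓ k := by
    simpa using add_mem (tk_succ h1) (sk_tk hl (dk_le hm))
  have hgr : gr ℓ ν = 1 := by rw [gr_eq_of_sub hl hk h2, gr_one]
  obtain ⟨-, a2, a3⟩ := ((hKAP ℓ A B X φ k hs hk).1 g x hg hx e).2.2.2.2 ν 1 hν.2.1 hs.sa.one h2
  rw [hgr, st_one, cj_apply, st_one] at a3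
  simp only [mul_one, one_mul] at a2 a3
  have hu : Un (g * ν) := by
    rw [Un, st_mul, mul_assoc, ← mul_assoc (st g), hg.st_mul, one_mul]
    exact hν.2.1
  refine ⟨((hKAP ℓ A B X φ k hs hk).1 (g * ν) x hu hx a2).2.2.1.2 ?_, ?_⟩
  · have h3 := tk_st hl h1
    have h4 := sub_mem (sub_mem (Submodule.mem_sup_right (S := A) a3) hw)
      (Submodule.mem_sup_right (S := A) h3)
    convert h4 using 1
    simp only [sk_apply, st_sub, st_st, st_one]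
    abel
  · have ht : Tri ℓ g := hs.tri_sup (mem_sup_tk.2 ⟨x, hx, e⟩)
    have := tk_left hl ht h2
    rwa [mul_sub, mul_one] at this

end TCOR

theorem s_COR (p n : ℕ) [Fact p.Prime] (hKAP : S_KAP p n) (hSOL : S_SOL p n)
    (hUNI : S_UNI p n) : S_COR p n := by
  rintro c ℓ A B D W X T φ k y g h hs hk hD hW hT hy ⟨x, hx, e, hr⟩
  have hg : Un g.1 := g.2.2.1
  obtain ⟨b1, b2⟩ := hSOL c X (nv c (u2 c)) LinearMap.id y T h (fun x => h.nv2 x)
    ⟨x, hx, by rw [hT, hy]; simpa using neg_mem e⟩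
  rw [hT, hy, LinearMap.id_apply] at b2
  have b3 : g.1 - mV p n (sol c X (nv c (u2 c)) y T) ∈ Tk ℓ k := by simpa using neg_mem b2
  have ht : mV p n (kp c X T y) = 1 - st g.1 * mV p n (sol c X (nv c (u2 c)) y T) := by
    have h1 := h.oneP
    have h2 := h.mmul (mstar c y) (sol c X (nv c (u2 c)) y T)
    rw [h.mstar, hy] at h2
    rw [kp, mV, dv_vsub h.hp h.d2, ← h1, ← h2]
  have hr0 : mV p n (kp c X T y) ∈ Rk ℓ A k := by
    have := add_mem hr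
      (wk_le (((hKAP ℓ A B _ φ k hs hk).1 g.1 x hg hx e).2.2.2.1 _ b1 b3))
    rwa [sub_add_sub_cancel, ← ht] at this
  obtain ⟨w, hw, _, ⟨d, hd, rfl⟩, e0⟩ := Submodule.mem_sup.1 hr0
  obtain ⟨c1, c2⟩ := hSOL c D (fun x => skP c (mstar c x)) (sk ∘ₗ stL) (kp c X T y) W h
    (fun x => by
      have h1 := h.mstar x
      have h2 := h.mstar (mstar c x)
      rw [h1] at h2
      rw [skP, mV, dv_vsub h.hp h.d2, LinearMap.comp_apply, stL_apply, sk_apply, ← h2, ← h1])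
    ⟨-d, by rw [hD]; exact neg_mem hd, by
      rw [hW, ← e0]
      convert neg_mem hw using 1
      simp only [LinearMap.comp_apply, stL_apply, sk_apply, st_neg, st_st]
      abel⟩
  rw [hD] at c1
  rw [hW, ht, LinearMap.comp_apply, stL_apply] at c2
  obtain ⟨d1, d2⟩ := hUNI c ℓ k _ h hs.lab hk c1
  have key := TCOR.alg hKAP hs hk hg b1 b3 c1 c2 d1 d2
  rw [cor, h.gD_mul, gD_of hy, gD_of (g := ⟨_, d1.l0⟩) rfl]
  exact key

end Pool.Agent.P.MP_f1a348_lc.UP.GF
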