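import Pool.Agent.P.MP_f1a348_lc.GF.Iface

/-!
Project GF: the core of the program and the two results.
-/

namespace Pool.Agent.P.MP_f1a348_lc.UP.GF

open Matrix Module Pool.Agent.P.MP_f1a348_lc.PG

namespace TCORE

variable {p n : ℕ} [Fact p.Prime] {ℓ ℓ' : Ix n → ℕ} {A B : Sub p n} {f : Mat p n}

theorem sa (hl : Lab ℓ) (h : Alg ℓ A) : SA A :=
  ⟨h.one, h.mul, h.star, fun a ha => ((h.dg a ha).tri hl).dg_l0⟩

theorem lev0 (h : Par (l0 n) f) : Lev (l0 n) f := ⟨lab_l0, h, h.1.dg_l0⟩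

theorem sp_two {c : Cx} (h : Ok p n c) (g f : V) (X : List V) :
    sp (mat p n) (two c g f X) = (sp (mat p n) X).map (lr (st (mV p n g)) (mV p n f)) :=
  sp_map _ fun x _ => by
    change mV p n _ = lr _ _ (mV p n x)
    rw [h.mmul, h.mmul, h.mstar, lr_apply]

theorem q0_cj (hA : SA A) (hf : Par (l0 n) f) (q : Q0 A) : Q0 (A.map (cj f)) := by
  rintro _ ⟨a, ha, rfl⟩
  obtain ⟨t, ht, e⟩ := q a ha
  refine ⟨_, ⟨t, ht, rfl⟩, ?_⟩
  rw [(lev0 hf).cj_c0 ((hA.dg a ha).tri lab_l0), ← cj_st, ← hf.2.1.cj_mul, e, map_add, map_add,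
    map_smul, hf.2.1.cj_one, cj_st]

theorem q0_gr (hl : Lab ℓ) (ht : ∀ a ∈ A, Tri ℓ a) (q : Q0 A) : Q0 (A.map (gr ℓ)) := by
  rintro _ ⟨a, ha, rfl⟩
  obtain ⟨t, h, e⟩ := q a ha
  refine ⟨_, ⟨t, h, rfl⟩, ?_⟩
  rw [← gr_st hl, ← gr_mul ((ht a ha).st hl) (ht a ha), e, map_add, map_add, map_smul, gr_one,
    gr_st hl, gr_apply, if_pos rfl]

theorem u1_cj (hA : SA A) (hf : Par (l0 n) f) {w : Mat p n} (hw : U1 A w) :
    U1 (A.map (cj f)) (cj f w) :=
  ⟨⟨w, hw.1, rfl⟩, (hf.2.1.mul hw.2.1).mul hf.2.1.star,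
    ((lev0 hf).cj_c0 ((hA.dg w hw.1).tri lab_l0)).trans hw.2.2⟩

end TCORE

open TCORE

theorem s_CORE (p n : ℕ) [Fact p.Prime] (hCUTA : S_CUTA p n) (hREF2 : S_REF2 p n)
    (hTOW : S_TOW p n) : S_CORE p n := by
  intro c l X A z h hl hA hz hX
  obtain ⟨A', le, hA', q, e1, e2, hU⟩ := hCUTA c _ X A z h hl hA hz hX
  obtain ⟨x, y, er, fr, str⟩ := hREF2 c l (lsq c (cutA c X)) (cutA c X) z h hl (e2 ▸ hA') hz
    (by rw [e2, e1])
  have ec : core c l X = bck c y.1 x.2.1 (tow c x.1 (two c x.2.1 x.2.1 (lsq c (cutA c X)))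
      (two c y.1 x.2.1 (cutA c X)) x.2.2 y.2) := by
    unfold core coT coR coS
    rw [er]
    rfl
  rw [e2] at fr
  obtain ⟨ref, pf', phi, ey⟩ := fr
  set f := mV p n x.2.1 with hf
  set f' := mV p n y.1 with hf'
  have pf : Par (l0 n) f := ref.par.l0
  have ps : Par (l0 n) (st f) := pf.star lab_l0
  have s0 : SA A' := sa hl hA'
  have eA : sp (mat p n) (two c x.2.1 x.2.1 (lsq c (cutA c X))) = A'.map (cj (st f)) := by
    rw [sp_two h, e2]
    congr 1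
    exact LinearMap.ext fun C => by rw [lr_apply, cj_apply, st_st]
  have eX : sp (mat p n) (two c y.1 x.2.1 (cutA c X)) =
      (A'.map (cj (st f))).map (lm (st f' * z * f)) := by
    rw [sp_two h, e1, ← Submodule.map_comp, ← Submodule.map_comp]
    congr 1
    refine LinearMap.ext fun C => ?_
    simp only [LinearMap.comp_apply, lr_apply, lm_apply, cj_apply, st_st, mul_assoc]
    rw [← mul_assoc f (st f), pf.2.1.mul_st, one_mul]
  have sh : SA (A'.map (cj (st f))) := (lev0 ps).alg s0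
  have tri : ∀ a ∈ A'.map (cj (st f)), Tri (lab n x.1) a := by
    rintro _ ⟨a, ha, rfl⟩
    simpa only [cj_apply, st_st] using ref.tri a ha
  have eB : sp (mat p n) x.2.2 = (A'.map (cj (st f))).map (gr (lab n x.1)) := by
    rw [ref.eq, Submodule.map_comp]
  obtain ⟨t1, t2, t3⟩ := hTOW c x.1 (two c x.2.1 x.2.1 (lsq c (cutA c X))) x.2.2
    (two c y.1 x.2.1 (cutA c X)) y.2 (st f' * z * f) h
    (by rw [eA, eX]; exact ⟨sh, tri, eB, str, phi, rfl⟩)
    (by rw [eB]; exact q0_gr ref.lab tri (q0_cj s0 ps q)) ey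
  rw [ec]
  generalize tow c x.1 (two c x.2.1 x.2.1 (lsq c (cutA c X)))
    (two c y.1 x.2.1 (cutA c X)) x.2.2 y.2 = r at *
  rw [eX] at t1
  rw [eA] at t2 t3
  refine ⟨?_, fun g hg => ?_, fun w hw => ?_⟩
  · have e : mV p n (bck c y.1 x.2.1 r).1 = f' * mV p n r.1 * st f := by
      rw [bck, h.mmul, h.mmul, h.mstar]
    obtain ⟨⟨_, ⟨a, ha, rfl⟩, ea⟩, u1, u2⟩ := t1
    have tr : Tri (l0 n) (mV p n r.1) := by
      rw [← ea, lm_apply]
      exact phi.1.l0.mul (tri _ ⟨a, ha, rfl⟩).l0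
    have pr : Par (l0 n) (f' * mV p n r.1 * st f) := (pf'.mul ⟨tr, u1, u2⟩).mul ps
    rw [e]
    refine ⟨?_, pr.2⟩
    rw [hX]
    refine ⟨a, le ha, ?_⟩
    rw [← ea]
    simp only [lm_apply, cj_apply, st_st, mul_assoc]
    rw [pf.2.1.mul_st, mul_one, ← mul_assoc f (st f), pf.2.1.mul_st, one_mul,
      ← mul_assoc f' (st f'), pf'.2.1.mul_st, one_mul]
  · obtain ⟨g, hg', rfl⟩ := List.mem_map.1 hg
    have := u1_cj sh pf (t2 g hg')
    rw [h.cjP]
    refine ⟨le ?_, this.2⟩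
    simpa only [st_st, pf.2.1.cj_cj'] using ps.2.1.mem_map_cj.1 (t2 g hg').1
  · have := t3 _ (u1_cj s0 ps ⟨hU w hw, hw.2⟩)
    rw [← pf.2.1.cj_cj' w]
    generalize cj (st f) w = v at this
    induction this using Submonoid.closure_induction with
    | mem v hv =>
      obtain ⟨g, hg, rfl⟩ := hv
      exact Submonoid.subset_closure ⟨_, List.mem_map.2 ⟨g, hg, rfl⟩, h.cjP _ _⟩
    | one => rw [pf.2.1.cj_one]; exact one_mem _
    | mul a b _ _ ha hb => rw [pf.2.1.cj_mul]; exact mul_mem ha hb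

theorem s_QFIND (p n : ℕ) [Fact p.Prime] (hCORE : S_CORE p n) : S_QFIND p n := by
  intro c l X h hl hd
  refine ⟨fun y hy => ?_, fun A hA hC ⟨z, hz⟩ => ?_⟩
  · unfold findQ fchk at hy
    cases e : mem c (u2 c) X (core c l X).1 && parP c (core c l X).1 <;> rw [e] at hy
    · simp at hy
    · obtain rfl : (core c l X).1 = y := by simpa using hy
      rw [Bool.and_eq_true, mem_iff h.hp h.d2, h.parP] at e
      exact ⟨e.1, e.2.2⟩
  · have lz : Lev (lab n l) z := ⟨hl, ⟨(hd z hz.1).tri hl, hz.2⟩, hd z hz.1⟩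
    have eX : sp (mat p n) X = A.map (lm z) := by
      ext x
      refine ⟨fun hx => ⟨_, hC.quo z hz.1 x hx, ?_⟩, ?_⟩
      · rw [lm_apply, ← mul_assoc, hz.2.1.mul_st, one_mul]
      · rintro ⟨a, ha, rfl⟩
        exact hC.mul z hz.1 a ha
    have u := (hCORE c l X A z h hl hA lz eX).1
    have e : (mem c (u2 c) X (core c l X).1 && parP c (core c l X).1) = true := by
      rw [Bool.and_eq_true, mem_iff h.hp h.d2, h.parP]
      exact ⟨u.1, ((hd _ u.1).tri hl).l0, u.2⟩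
    unfold findQ fchk
    rw [e]
    rfl

theorem s_QGEN (p n : ℕ) [Fact p.Prime] (hCORE : S_CORE p n) : S_QGEN p n := fun c l A h hl hA =>
  (hCORE c l A _ 1 h hl hA ⟨hl, Par.one, Dg.one⟩ (by ext x; simp)).2

end Pool.Agent.P.MP_f1a348_lc.UP.GF
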