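import Pool.Agent.P.MP_f1a348_lc.GF.Iface

/-!
Project GF: one step of the cut.
-/

namespace Pool.Agent.P.MP_f1a348_lc.UP.GF

open Matrix Module Pool.Agent.P.MP_f1a348_lc.PG

namespace TCUT1

section lin
variable {p : ℕ} [Fact p.Prime] {c : Cx} {X Y : Type} [AddCommGroup X] [Module (ZMod p) X]
  [AddCommGroup Y] [Module (ZMod p) Y] {δ : Dcd p X} {ε : Dcd p Y} {u w : U}

theorem smul_mod {Z : Submodule (ZMod p) X} {T : Submodule (ZMod p) Y} {g : X → Y}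
    (hg : ∀ x ∈ Z, ∀ y ∈ Z, g (x + y) - g x - g y ∈ T) (a : ZMod p) {x : X} (hx : x ∈ Z) :
    g (a • x) - a • g x ∈ T := by
  obtain ⟨k, rfl⟩ := ZMod.natCast_zmod_surjective a
  induction k with
  | zero => simpa using neg_mem (hg 0 Z.zero_mem 0 Z.zero_mem)
  | succ k ih =>
    have := add_mem (hg _ (Z.smul_mem (k : ZMod p) hx) x hx) ih
    rw [Nat.cast_succ, add_smul, add_smul, one_smul, one_smul]
    convert this using 1
    abel

/-- the graph of a map that is additive modulo `T` -/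
def Gam (Z : Submodule (ZMod p) X) (T : Submodule (ZMod p) Y) (g : X → Y)
    (hg : ∀ x ∈ Z, ∀ y ∈ Z, g (x + y) - g x - g y ∈ T) : Submodule (ZMod p) (Y × X) where
  carrier := {v | v.2 ∈ Z ∧ v.1 - g v.2 ∈ T}
  add_mem' {a b} ha hb := ⟨add_mem ha.1 hb.1, by
    have := sub_mem (add_mem ha.2 hb.2) (hg _ ha.1 _ hb.1)
    convert this using 1
    rw [Prod.fst_add, Prod.snd_add]
    abel⟩
  zero_mem' := ⟨zero_mem _, by simpa using hg 0 Z.zero_mem 0 Z.zero_mem⟩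
  smul_mem' a v hv := ⟨Z.smul_mem a hv.1, by
    have := sub_mem (T.smul_mem a hv.2) (smul_mod hg a hv.1)
    convert this using 1
    rw [Prod.smul_fst, Prod.smul_snd, smul_sub]
    abel⟩

theorem preim_mod (h : pp c = p) (hε : Dec ε u.length) (hδ : Dec δ w.length) {L : List V}
    {f : V → V} (g : X → Y) (hf : ∀ x ∈ L, dv ε (f x) = g (dv δ x)) (S : List V)
    (hg : ∀ x ∈ sp δ L, ∀ y ∈ sp δ L, g (x + y) - g x - g y ∈ sp ε S) (y : X) :
    y ∈ sp δ (preim c u w L f S) ↔ y ∈ sp δ L ∧ g y ∈ sp ε S := by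
  have hγ := dec_join_x hε hδ
  have g0 : g 0 ∈ sp ε S := by simpa using neg_mem (hg 0 (zero_mem _) 0 (zero_mem _))
  have e1 : ∀ x ∈ L, dv (ε.prod (δ ∘ₗ shf p u.length)) (nv c u (f x) ++ x) =
      (g (dv δ x), dv δ x) := fun x hx => by
    rw [dv_join_x, List.drop_left' (length_nv ..), dv_append_left hε _ (length_nv ..).ge,
      dv_nv h hε, hf x hx]
  have e2 : sp (ε.prod (δ ∘ₗ shf p u.length)) (S.map (nv c u)) =
      (sp ε S).map (LinearMap.inl _ _ _) := sp_map _ fun x _ => by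
    rw [dv_join_x, List.drop_of_length_le (length_nv ..).le, dv_nv h hε, dv_nil]
    rfl
  have e3 : sp (ε.prod (δ ∘ₗ shf p u.length)) (L.map fun x => nv c u (f x) ++ x) ≤
      Gam (sp δ L) (sp ε S) g hg := sp_le.2 fun z hz => by
    obtain ⟨x, hx, rfl⟩ := List.mem_map.1 hz
    rw [e1 x hx]
    exact ⟨mem_sp hx, by simp⟩
  have e4 : (sp ε S).map (LinearMap.inl (ZMod p) Y X) ≤ Gam (sp δ L) (sp ε S) g hg := by
    rintro _ ⟨s, hs, rfl⟩
    exact ⟨zero_mem _, sub_mem hs g0⟩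
  have e5 : sp δ L ≤ (sp (ε.prod (δ ∘ₗ shf p u.length))
      (L.map fun x => nv c u (f x) ++ x)).map (LinearMap.snd _ _ _) := sp_le.2 fun x hx =>
    ⟨_, mem_sp (List.mem_map_of_mem hx), by rw [e1 x hx]; rfl⟩
  rw [preim, (basis_bas h hδ _).sp, sp_map (δ := ε.prod (δ ∘ₗ shf p u.length))
    (LinearMap.snd _ _ _) fun x _ => by rw [dv_join_x]; rfl]
  simp only [Submodule.mem_map, elim, ran_eq,
    mem_elim_x h hγ _ (show u.length ≤ (u ++ w).length by simp), sp_append, e2]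
  constructor
  · rintro ⟨z, ⟨hz, v, hv, h0⟩, rfl⟩
    have h1 : z.1 = 0 := (congrArg Prod.fst hv).symm.trans ((hε v).2 h0)
    obtain ⟨h2, h3⟩ := sup_le e3 e4 hz
    rw [h1, zero_sub] at h3
    exact ⟨h2, by simpa using neg_mem h3⟩
  · rintro ⟨h1, h2⟩
    obtain ⟨v, hv⟩ := sp_range_x h1
    obtain ⟨z, hz, rfl⟩ := e5 h1
    have h3 : z.1 ∈ sp ε S := by simpa using add_mem (e3 hz).2 h2
    refine ⟨(0, z.2), ⟨Submodule.mem_sup.2 ⟨z, hz, _, ⟨-z.1, neg_mem h3, rfl⟩,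
      Prod.ext (add_neg_cancel _) (add_zero _)⟩,
      fun i => if i < u.length then 0 else v (i - u.length), Prod.ext ?_ ?_,
      fun j hj => if_pos hj⟩, rfl⟩
    · exact (hε _).2 fun j hj => if_pos hj
    · exact (congrArg δ (funext fun i => by simp [shf])).trans hv

end lin

variable {p n : ℕ} {c : Cx} {ℓ : Ix n → ℕ} {A E : Sub p n} {z : Mat p n}

/-- the norm minus a scalar -/
noncomputable def q (x : Mat p n) : Mat p n :=
  st x * x - (x (c0 n) (c0 n) * x (c0 n) (c0 n)) • (1 : Mat p n)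

/-- the traces -/
noncomputable def Ts (E : Sub p n) : Sub p n := E.map (LinearMap.id + stL)

theorem mem_Ts {M : Mat p n} : M ∈ Ts E ↔ ∃ t ∈ E, t + st t = M := Iff.rfl

theorem st_c0 (x : Mat p n) : st x (c0 n) (c0 n) = x (c0 n) (c0 n) := by simp

theorem q_add (h1 : (1 : Mat p n) ∈ E) {x y : Mat p n} (h : st x * y ∈ E) :
    q (x + y) - q x - q y ∈ Ts E := by
  refine mem_Ts.2 ⟨_, sub_mem h (E.smul_mem (x (c0 n) (c0 n) * y (c0 n) (c0 n)) h1), ?_⟩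
  simp only [q, st_sub, st_add, st_mul, st_st, st_smul, st_one, Matrix.add_apply, add_mul,
    mul_add, add_smul, mul_comm (y (c0 n) (c0 n)) (x (c0 n) (c0 n))]
  abel

theorem q_un {w : Mat p n} (hw : Un w) (h : w (c0 n) (c0 n) = 1) : q w = 0 := by
  rw [q, hw.st_mul, h, mul_one, one_smul, sub_self]

theorem q_mul {a : Mat p n} (ha : Tri ℓ a) (b : Mat p n) :
    q (a * b) = st b * q a * b + (a (c0 n) (c0 n) * a (c0 n) (c0 n)) • q b := by
  simp only [q, ha.mul_c0, st_mul, mul_sub, sub_mul, mul_assoc, mul_smul_comm, smul_mul_assoc,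
    mul_one, smul_sub, smul_smul, mul_left_comm (b (c0 n) (c0 n)) (a (c0 n) (c0 n))]
  abel

theorem ts_mul (hl : Lab ℓ) (hA : Alg ℓ A) {a b : Mat p n} (ha : a ∈ A) (hb : b ∈ A)
    (h1 : q a ∈ Ts A) (h2 : q b ∈ Ts A) : q (a * b) ∈ Ts A := by
  rw [q_mul ((hA.dg a ha).tri hl)]
  refine add_mem ?_ (Submodule.smul_mem _ _ h2)
  obtain ⟨t, ht, e⟩ := mem_Ts.1 h1
  refine mem_Ts.2 ⟨_, hA.mul _ (hA.mul _ (hA.star b hb) t ht) b hb, ?_⟩
  simp only [← e, st_mul, st_st, mul_add, add_mul, mul_assoc]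

theorem q_lev (hz : Lev ℓ z) (a : Mat p n) : q (z * a) = q a := by
  rw [q_mul hz.par.1, q_un hz.un hz.par.2.2, hz.par.2.2]
  simp

theorem q_lev' (hz : Lev ℓ z) (a : Mat p n) : q (st (z * a)) = cj z (q (st a)) := by
  rw [q, q, st_c0, st_c0, hz.par.1.mul_c0, hz.par.2.2, map_sub, map_smul, hz.un.cj_one]
  simp only [st_st, st_mul, cj_apply, one_mul, mul_assoc]

theorem ts_cj (hz : Un z) {M : Mat p n} : cj z M ∈ Ts (A.map (cj z)) ↔ M ∈ Ts A := by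
  constructor
  · intro h
    obtain ⟨_, ⟨t, ht, rfl⟩, e⟩ := mem_Ts.1 h
    exact mem_Ts.2 ⟨t, ht, hz.cj_inj (by rw [map_add, cj_st, e])⟩
  · intro h
    obtain ⟨t, ht, rfl⟩ := mem_Ts.1 h
    exact mem_Ts.2 ⟨_, ⟨t, ht, rfl⟩, by rw [map_add, cj_st]⟩

variable [Fact p.Prime]

theorem lsq_eq (h : Ok p n c) {X : List V}
    (h1 : ∀ x ∈ sp (mat p n) X, ∀ y ∈ sp (mat p n) X, st x * y ∈ E)
    (h2 : ∀ e ∈ E, ∃ x ∈ sp (mat p n) X, ∃ y ∈ sp (mat p n) X, st x * y = e) :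
    sp (mat p n) (lsq c X) = E := by
  rw [lsq, (basis_bas h.hp h.d2 _).sp]
  refine le_antisymm (sp_le.2 fun v hv => ?_) fun e he => ?_
  · obtain ⟨x, hx, hv⟩ := List.mem_flatMap.1 hv
    obtain ⟨y, hy, rfl⟩ := List.mem_map.1 hv
    show mV p n _ ∈ E
    rw [h.mmul, h.mstar]
    exact h1 _ (mem_sp hx) _ (mem_sp hy)
  · obtain ⟨x, hx, y, hy, rfl⟩ := h2 e he
    have key : ∀ a ∈ X, sp (mat p n) X ≤ (sp (mat p n) (X.flatMap fun x => X.map fun y =>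
        mmul c (mstar c x) y)).comap (lm (st (mV p n a))) := fun a ha => sp_le.2 fun b hb => by
      have := mem_sp (δ := mat p n) (List.mem_flatMap.2 ⟨a, ha, List.mem_map_of_mem
        (f := fun y => mmul c (mstar c a) y) hb⟩ :
        _ ∈ X.flatMap fun x => X.map fun y => mmul c (mstar c x) y)
      rwa [show dv (mat p n) _ = _ from h.mmul _ _, h.mstar] at this
    have key2 : sp (mat p n) X ≤ (sp (mat p n) (X.flatMap fun x => X.map fun y =>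
        mmul c (mstar c x) y)).comap (LinearMap.mulRight (ZMod p) y ∘ₗ stL) :=
      sp_le.2 fun a ha => key a ha hy
    exact key2 hx

theorem sp_trs (h : Ok p n c) (L : List V) : sp (mat p n) (trs c L) = Ts (sp (mat p n) L) :=
  sp_map _ fun x _ => by
    rw [dv_axpy h.hp h.d2, Nat.cast_one, one_smul, show dv (mat p n) (mstar c x) = _ from h.mstar x]
    rfl

theorem mV_nq (h : Ok p n c) (x : V) : mV p n (nq c x) = q (mV p n x) := by
  rw [nq, mV, dv_axpy h.hp h.d2, cast_ng h.hp, show dv (mat p n) (oneP c) = _ from h.oneP,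
    show dv (mat p n) _ = _ from h.mmul _ _, h.mstar, q, h.mV_apply, h.cz, Nat.cast_mul, neg_smul,
    neg_add_eq_sub, c0_val]

end TCUT1

open TCUT1

theorem s_CUT1 (p n : ℕ) [Fact p.Prime] : S_CUT1 p n := by
  intro c ℓ X A z h hl hA hz hX
  have hm : ∀ x, x ∈ sp (mat p n) X ↔ ∃ a ∈ A, z * a = x := fun x => by rw [hX]; rfl
  have hz1 : z ∈ sp (mat p n) X := (hm z).2 ⟨1, hA.one, mul_one z⟩
  have m1 : ∀ x ∈ sp (mat p n) X, ∀ y ∈ sp (mat p n) X, st x * y ∈ A := fun x hx y hy => by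
    obtain ⟨a, ha, rfl⟩ := (hm x).1 hx
    obtain ⟨b, hb, rfl⟩ := (hm y).1 hy
    rw [st_mul, mul_assoc, ← mul_assoc (st z), hz.un.st_mul, one_mul]
    exact hA.mul _ (hA.star a ha) b hb
  have m2 : ∀ x ∈ sp (mat p n) X, ∀ y ∈ sp (mat p n) X, st (st x) * st y ∈ A.map (cj z) :=
    fun x hx y hy => by
      obtain ⟨a, ha, rfl⟩ := (hm x).1 hx
      obtain ⟨b, hb, rfl⟩ := (hm y).1 hy
      exact ⟨_, hA.mul a ha _ (hA.star b hb), by simp only [cj_apply, st_st, st_mul, mul_assoc]⟩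
  have l1 : sp (mat p n) (lsq c X) = A := lsq_eq h m1 fun e he =>
    ⟨z, hz1, _, (hm _).2 ⟨e, he, rfl⟩, by rw [← mul_assoc, hz.un.st_mul, one_mul]⟩
  have hs : sp (mat p n) (X.map (mstar c)) = (sp (mat p n) X).map stL :=
    sp_map _ fun x _ => h.mstar x
  have l2 : sp (mat p n) (lsq c (X.map (mstar c))) = A.map (cj z) := by
    refine lsq_eq h ?_ ?_ <;> rw [hs]
    · rintro _ ⟨x, hx, rfl⟩ _ ⟨y, hy, rfl⟩
      exact m2 x hx y hy
    · rintro _ ⟨a, ha, rfl⟩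
      exact ⟨_, ⟨_, (hm _).2 ⟨a, ha, rfl⟩, rfl⟩, _, ⟨z, hz1, rfl⟩, by
        simp only [stL_apply, st_st, cj_apply]⟩
  have c1 : ∀ y, y ∈ sp (mat p n) (preim c (u2 c) (u2 c) X (nq c) (trs c (lsq c X))) ↔
      y ∈ sp (mat p n) X ∧ q y ∈ Ts A := fun y => by
    rw [preim_mod h.hp h.d2 h.d2 q (fun x _ => mV_nq h x) _ fun x hx y hy => by
      rw [sp_trs h, l1]; exact q_add hA.one (m1 x hx y hy), sp_trs h, l1]
  have c2 : ∀ y, y ∈ sp (mat p n) (cut1 c X) ↔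
      (y ∈ sp (mat p n) X ∧ q y ∈ Ts A) ∧ q (st y) ∈ Ts (A.map (cj z)) := fun y => by
    rw [cut1, preim_mod h.hp h.d2 h.d2 (fun x => q (st x))
      (fun x _ => (mV_nq h _).trans (by rw [h.mstar])) _ fun x hx y hy => by
      rw [sp_trs h, l2, st_add]
      exact q_add (hz.alg hA).one (m2 x ((c1 x).1 hx).1 y ((c1 y).1 hy).1), sp_trs h, l2, c1]
  have c3 : ∀ a, a ∈ A ⊓ (sp (mat p n) (cut1 c X)).comap (lm z) ↔
      a ∈ A ∧ q a ∈ Ts A ∧ q (st a) ∈ Ts A := fun a => by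
    rw [Submodule.mem_inf, Submodule.mem_comap, lm_apply, c2, q_lev hz, q_lev' hz, ts_cj hz.un]
    exact ⟨fun e => ⟨e.1, e.2.1.2, e.2.2⟩, fun e => ⟨e.1, ⟨(hm _).2 ⟨a, e.1, rfl⟩, e.2.1⟩, e.2.2⟩⟩
  have hu : ∀ w, U1 A w → w ∈ A ⊓ (sp (mat p n) (cut1 c X)).comap (lm z) := fun w hw =>
    (c3 w).2 ⟨hw.1, by rw [q_un hw.2.1 hw.2.2]; exact zero_mem _,
      by rw [q_un hw.2.1.star ((st_c0 w).trans hw.2.2)]; exact zero_mem _⟩
  refine ⟨l1, _, inf_le_left, ⟨hu 1 (u1_one hA), fun a ha b hb => ?_, fun a ha => ?_,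
    fun a ha => hA.dg a ha.1⟩, ?_, hu, ?_⟩
  · obtain ⟨a1, a2, a3⟩ := (c3 a).1 ha
    obtain ⟨b1, b2, b3⟩ := (c3 b).1 hb
    exact (c3 _).2 ⟨hA.mul a a1 b b1, ts_mul hl hA a1 b1 a2 b2, by
      rw [st_mul]; exact ts_mul hl hA (hA.star b b1) (hA.star a a1) b3 a3⟩
  · obtain ⟨a1, a2, a3⟩ := (c3 a).1 ha
    exact (c3 _).2 ⟨hA.star a a1, a3, by rwa [st_st]⟩
  · ext y
    constructor
    · intro hy
      obtain ⟨a, ha, rfl⟩ := (hm y).1 ((c2 y).1 hy).1.1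
      exact ⟨a, ⟨ha, hy⟩, rfl⟩
    · rintro ⟨a, ha, rfl⟩
      exact ha.2
  · have key : ∀ a, q a ∈ Ts A ↔ ∃ t ∈ A, st a * a =
        (a (c0 n) (c0 n) * a (c0 n) (c0 n)) • (1 : Mat p n) + (t + st t) := fun a => by
      rw [mem_Ts]
      exact exists_congr fun t => and_congr_right fun _ => by
        rw [q, eq_comm, sub_eq_iff_eq_add']
    constructor
    · intro e a ha
      exact (key a).1 ((c3 a).1 (e.symm ▸ ha)).2.1
    · intro e
      exact le_antisymm inf_le_left fun a ha =>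
        (c3 a).2 ⟨ha, (key a).2 (e a ha), (key _).2 (e _ (hA.star a ha))⟩

end Pool.Agent.P.MP_f1a348_lc.UP.GF
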