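import Pool.Agent.P.MP_f1a348_lc.GF.Iface

/-! Project GF: the iterated cut. -/

namespace Pool.Agent.P.MP_f1a348_lc.UP.GF

open Matrix Module Pool.Agent.P.MP_f1a348_lc.PG

namespace TCUTA

variable {p n : ℕ} [Fact p.Prime]

theorem fold (hC : S_CUT1 p n) {c : Cx} {ℓ : Ix n → ℕ} {z : Mat p n} (h : Ok p n c) (hl : Lab ℓ)
    (hz : Lev ℓ z) (u : U) : ∀ (X : List V) (A : Sub p n), Alg ℓ A →
      sp (mat p n) X = A.map (lm z) → ∃ A' ≤ A, Alg ℓ A' ∧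
        sp (mat p n) (u.foldl (fun X _ => cut1 c X) X) = A'.map (lm z) ∧
        (∀ w, U1 A w → w ∈ A') ∧ (Q0 A → Q0 A') ∧
        (Q0 A' ∨ finrank (ZMod p) A' + u.length ≤ finrank (ZMod p) A) := by
  induction u with
  | nil => exact fun X A hA e => ⟨A, le_rfl, hA, e, fun _ hw => hw.1, id, .inr le_rfl⟩
  | cons a u ih =>
    intro X A hA e
    obtain ⟨-, A1, a1, a2, a3, a4, a5⟩ := hC c ℓ X A z h hl hA hz e
    obtain ⟨A2, b1, b2, b3, b4, b5, b6⟩ := ih _ A1 a2 a3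
    refine ⟨A2, b1.trans a1, b2, b3, fun w hw => b4 w ⟨a4 w hw, hw.2⟩,
      fun q => b5 ((a5.2 q).symm ▸ q), ?_⟩
    by_cases e1 : A1 = A
    · exact .inl (b5 (e1.symm ▸ a5.1 e1))
    · have := Submodule.finrank_lt_finrank_of_lt (lt_of_le_of_ne a1 e1)
      exact b6.imp_right fun k => by rw [List.length_cons]; omega

end TCUTA

theorem s_CUTA (p n : ℕ) [Fact p.Prime] (hCUT1 : S_CUT1 p n) : S_CUTA p n := by
  intro c ℓ X A z h hl hA hz e
  obtain ⟨A', a1, a2, a3, a4, -, a5⟩ := TCUTA.fold hCUT1 h hl hz (u2 c) (basis c (u2 c) X) A hA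
    ((basis_bas h.hp h.d2 X).sp.trans e)
  refine ⟨A', a1, a2, a5.resolve_right fun k => ?_, a3, (hCUT1 c ℓ _ A' z h hl a2 hz a3).1, a4⟩
  have h1 : finrank (ZMod p) A ≤ (2 * n + 1) * (2 * n + 1) :=
    (Submodule.finrank_le A).trans_eq (by simp [Module.finrank_matrix])
  rw [h.len2] at k
  have h2 : A' = ⊥ := Submodule.finrank_eq_zero.1 (by omega)
  exact one_ne_zero ((Submodule.mem_bot _).1 (h2 ▸ a2.one))

end Pool.Agent.P.MP_f1a348_lc.UP.GF
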