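import Pool.Agent.P.MP_f1a348_lc.GF.Iface

/-! Linear algebra of the tower: the filtration and the affine solver. -/

namespace Pool.Agent.P.MP_f1a348_lc.UP.GF

open Matrix Module Pool.Agent.P.MP_f1a348_lc.PG

namespace TDK

variable {p n : ℕ} [Fact p.Prime] {c : Cx}

theorem dk (h : Ok p n c) (l : V) (k : ℕ) (hl : Lab (lab n l)) :
    sp (mat p n) (dkP c l k) = Dk (lab n l) k := by
  have key : ∀ α β : Ix n, α.val * (2 * n + 1) + β.val ∈ ((ran (u2 c)).filter fun i =>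
      Nat.blt (cz c) (i / mM c) && Nat.blt (cz c) (i % mM c) &&
      Nat.ble (l.getD (i / mM c) 0 + l.getD (rv c (i % mM c)) 0 + k)
        (l.getD (i % mM c) 0 + l.getD (rv c (i / mM c)) 0)) ↔
      (c0 n < α ∧ c0 n < β) ∧ lab n l α + lab n l β.rev + k ≤ lab n l β + lab n l α.rev :=
    fun α β => by
    rw [List.mem_filter, mem_ran, h.len2, h.hM, div_enc, mod_enc, h.rv, h.rv, h.cz]
    simp only [Bool.and_eq_true, Nat.blt_eq, Nat.ble_eq, enc2_lt, true_and]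
    rfl
  ext M
  rw [dkP, mem_sp_units h.hp h.d2, mem_Dk, mem_Tk]
  constructor
  · rintro ⟨v, hv, rfl⟩
    have e : ∀ α β : Ix n, mat p n v α β ≠ 0 → _ := fun α β c' => (key α β).1 (by
      by_contra c''
      exact c' (hv _ (h.len2 ▸ enc2_lt α β) c''))
    refine ⟨⟨fun α β c' => ?_, fun α β c' => (e α β c').2⟩, fun α β c' => (e α β c').1.1⟩
    obtain ⟨⟨e1, e2⟩, e3⟩ := e α β c'
    refine ⟨?_, ⟨fun a => absurd a e1.not_gt, fun a => absurd a e2.not_gt⟩, fun _ => e2, fun _ => e1⟩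
    by_contra c''
    have := hl.sym β α (by omega)
    omega
  · rintro ⟨⟨h1, h2⟩, h3⟩
    obtain ⟨v, rfl⟩ := mat_surj M
    refine ⟨v, fun i hi hn => ?_, rfl⟩
    rw [h.len2] at hi
    obtain ⟨a, ha, β, rfl⟩ := exists_enc2 hi
    by_contra c'
    have c'' : mat p n v ⟨a, ha⟩ β ≠ 0 := c'
    exact hn ((key ⟨a, ha⟩ β).2 ⟨⟨h3 _ _ c'', (h1 _ _ c'').2.2.1 (h3 _ _ c'')⟩, h2 _ _ c''⟩)

/-- `(a, x) ↦ F x - a • z` -/
noncomputable def aF (F : Mat p n →ₗ[ZMod p] Mat p n) (z : Mat p n) :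
    ZMod p × Mat p n →ₗ[ZMod p] Mat p n :=
  F ∘ₗ LinearMap.snd _ _ _ - LinearMap.toSpanSingleton _ _ z ∘ₗ LinearMap.fst _ _ _

theorem aF_apply (F : Mat p n →ₗ[ZMod p] Mat p n) (z : Mat p n) (y : ZMod p × Mat p n) :
    aF F z y = F y.2 - y.1 • z := rfl

end TDK

open TDK

theorem s_DK (p n : ℕ) [Fact p.Prime] : S_DK p n := by
  intro c l k h hl
  refine ⟨dk h l k hl, fun hk => ?_, fun x => ?_⟩
  · rw [tkP, sp_append, sp_map (δ := mat p n) stL fun x _ => h.mstar x, dk h l k hl]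
    refine le_antisymm (sup_le dk_le ?_) fun M hM => ?_
    · rintro _ ⟨x, hx, rfl⟩
      exact tk_st hl (dk_le hx)
    · rw [tk_split hk hM]
      exact Submodule.add_mem_sup (eD_mem hM) ⟨_, eD_mem (tk_st hl hM), rfl⟩
  · exact (dv_vsub h.hp h.d2 _ _).trans (congrArg (mV p n x - ·) (h.mstar x))

theorem s_SOL (p n : ℕ) [Fact p.Prime] : S_SOL p n := by
  rintro c L f F z S h hf ⟨x, hx, hs⟩
  have key := fun y => mem_preim (L := [1] :: L.map fun r => 0 :: r)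
    (f := fun r => axpy c (u2 c) (ng c (r.getD 0 0)) z (f r.tail))
    h.hp h.d2 h.d2.pl' (aF F (mV p n z)) (fun r _ => by
      rw [dv_axpy h.hp h.d2, cast_ng h.hp, dv_pl, aF_apply, neg_smul, neg_add_eq_sub]
      exact congrArg (· - _) (hf r.tail)) S y
  have e := (key _).1 (aff_getD h.hp h.d2 ((key (1, x)).2
    ⟨(mem_sp_one_cons L _).2 hx, by rwa [aF_apply, one_smul]⟩))
  rw [mem_sp_one_cons, aF_apply, one_smul] at e
  exact e

end Pool.Agent.P.MP_f1a348_lc.UP.GF
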