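import Pool.Agent.P.MP_f1a348_lc.GF.Iface
import Pool.Agent.P.MP_f1a348_lc.UP.TQFIND

/-! Proof of FU. -/

namespace Pool.Agent.P.MP_f1a348_lc.UP.GF

open Matrix Module Pool.Agent.P.MP_f1a348_lc.PG

namespace TFU

open QFINDy

variable {p n : ℕ} [Fact p.Prime] {ℓ : Ix n → ℕ}

theorem alt (j : Ix n) : (Pi.single j 1 + e0 : Vec p n) (c0 n) ≠ 0 ∨
    (j = c0 n ∧ (Pi.single j 1 + e0 : Vec p n) = 0) := by
  by_cases e : j = c0 n
  · subst e
    by_cases h : (Pi.single (c0 n) 1 + e0 : Vec p n) (c0 n) = 0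
    · refine Or.inr ⟨rfl, funext fun β => ?_⟩
      by_cases e : β = c0 n
      · rw [e, h]; rfl
      · simp [e0, e]
    · exact Or.inl h
  · exact Or.inl (by simp [e0, Ne.symm e])

theorem wp (hl : Lab ℓ) {X : Sub p n} (hX : ∀ x ∈ X, Dg ℓ x) (hW : WP X) (j : Ix n)
    {v : Vec p n} (hv : v ∈ Vb ℓ j) : WP (Ht X (D0 (Pi.single j 1)) (D0 v)) := by
  intro h hh h1
  obtain ⟨m, ⟨a, ha⟩, b, hb⟩ := mem_pin.1 hh
  obtain ⟨y, hy, w4⟩ := hW h m h1
  refine ⟨y, ⟨mem_pin.2 ⟨hy.1, ?_⟩, hy.2⟩, w4⟩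
  rcases alt (p := p) j with hu | ⟨rfl, hu⟩
  · obtain ⟨e, k⟩ := key hl (hX h m) h1 hu ha hb
    refine ⟨⟨a, by rw [w4 _ k, ha]⟩, b, ?_⟩
    rw [← hy.2.1.st_mulVec (b • (Pi.single j 1 + e0)), mulVec_smul, w4 _ k, ← ha, smul_smul,
      mul_comm b, e, one_smul]
  · have e1 : v + e0 = (v (c0 n) + 1) • e0 := by
      rw [add_smul, one_smul, ← Vb_c0 hl hv]
    have e2 : v + e0 = 0 := by
      rw [hu, smul_zero, e1, mulVec_smul, (fix hl (hX h m) h1).2] at hb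
      rw [e1, ← hb]
    rw [hu, e2]
    exact ⟨⟨0, by simp⟩, 0, by simp⟩

variable {c : Cx} {l : V}

theorem step' (h : Ok p n c) (hl : Lab (lab n l)) (X : List V) (j : Ix n) :
    (∀ v ∈ Vb (lab n l) j,
      ∀ y ∈ Ht (sp (mat p n) X) (D0 (Pi.single j 1)) (D0 v), y (c0 n) (c0 n) ≠ 1) ∨
    ∃ v ∈ Vb (lab n l) j,
      sp (mat p n) (fstep c l X j.val) = Ht (sp (mat p n) X) (D0 (Pi.single j 1)) (D0 v) ∧
      ∃ y ∈ Ht (sp (mat p n) X) (D0 (Pi.single j 1)) (D0 v), y (c0 n) (c0 n) = 1 := by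
  rw [fstep]
  cases e : (blkP c l j.val).find? fun v => (chiA c (pinP c X j.val v)).isSome with
  | none =>
    refine Or.inl fun v hv y hy h1 => ?_
    obtain ⟨x, hx, rfl⟩ := ((h.blkP hl j).mem v).1 hv
    exact List.find?_eq_none.1 e x hx ((chi_isSome h _).2 ⟨y, sp_pin h X j x ▸ hy, h1⟩)
  | some v =>
    exact Or.inr ⟨_, ((h.blkP hl j).mem _).2 ⟨v, List.mem_of_find?_eq_some e, rfl⟩,
      sp_pin h X j v, sp_pin h X j v ▸ (chi_isSome h _).1
        (List.find?_some (p := fun v => (chiA c (pinP c X j.val v)).isSome) e)⟩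

theorem sound (h : Ok p n c) (hl : Lab (lab n l)) (I : List (Ix n)) (X : List V)
    (hX : ∀ x ∈ sp (mat p n) X, Dg (lab n l) x) :
    ∀ x ∈ sp (mat p n) ((I.map Fin.val).foldl (fstep c l) X), x ∈ sp (mat p n) X ∧
      (x (c0 n) (c0 n) = 1 → ∀ j ∈ I, st x *ᵥ (x *ᵥ Pi.single j 1) = Pi.single j 1) := by
  induction I generalizing X with
  | nil => exact fun x hx => ⟨hx, by simp⟩
  | cons j I ih =>
    have k : ∀ x ∈ sp (mat p n) (fstep c l X j.val), x ∈ sp (mat p n) X ∧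
        (x (c0 n) (c0 n) = 1 → st x *ᵥ (x *ᵥ Pi.single j 1) = Pi.single j 1) := fun x hx => by
      rcases step h hl X j with ⟨e, -⟩ | ⟨v, e, -⟩
      · rw [e, Submodule.mem_bot] at hx
        exact ⟨hx ▸ zero_mem _, fun h1 => by simp [hx] at h1⟩
      · obtain ⟨m, ⟨a, ha⟩, b, hb⟩ := mem_pin.1 (e ▸ hx)
        refine ⟨m, fun h1 => ?_⟩
        obtain ⟨f1, f2⟩ := fix hl (hX x m) h1
        rcases alt (p := p) j with hu | ⟨rfl, -⟩
        · have := (key hl (hX x m) h1 hu ha hb).2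
          rwa [mulVec_add, mulVec_add, f1, f2, add_left_inj] at this
        · exact (congrArg (st x *ᵥ ·) f1).trans f2
    intro x hx
    obtain ⟨a1, a2⟩ := ih _ (fun y hy => hX y (k y hy).1) x hx
    exact ⟨(k x a1).1, fun h1 => List.forall_mem_cons.2 ⟨(k x a1).2 h1, a2 h1⟩⟩

theorem complete (h : Ok p n c) (hl : Lab (lab n l)) (I : List (Ix n)) (X : List V)
    (hX : ∀ x ∈ sp (mat p n) X, Dg (lab n l) x) (hW : WP (sp (mat p n) X))
    (hz : ∃ z, U1 (sp (mat p n) X) z) :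
    ∃ z, U1 (sp (mat p n) ((I.map Fin.val).foldl (fstep c l) X)) z := by
  induction I generalizing X with
  | nil => exact hz
  | cons j I ih =>
    obtain ⟨z, hz⟩ := hz
    rcases step' h hl X j with e | ⟨v, hv, e, y, hy, h1⟩
    · obtain ⟨f1, f2⟩ := fix hl (hX z hz.1) hz.2.2
      refine absurd hz.2.2 (e _ ((hX z hz.1).mulVec_mem (single_mem_Vb rfl 1)) z
        (mem_pin.2 ⟨hz.1, ⟨1, ?_⟩, 1, ?_⟩))
      · rw [one_smul, mulVec_add, f1]
      · rw [one_smul, mulVec_add, f2, hz.2.1.st_mulVec]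
    · have hW' := wp hl hX hW j hv
      obtain ⟨w, hw, -⟩ := hW' y hy h1
      exact ih (fstep c l X j.val) (fun x hx => hX x (e ▸ hx).1) (e ▸ hW') ⟨w, e ▸ hw⟩

end TFU

open TFU QFINDy in
theorem s_FU (p n : ℕ) [Fact p.Prime] : S_FU p n := by
  intro c l X h hl hX
  suffices k : _ ∧ _ from ⟨k.1, k.2, fun hW j v hv => wp hl hX hW j hv⟩
  have e : sp (mat p n) (basis c (u2 c) X) = sp (mat p n) X := (basis_bas h.hp h.d2 X).sp
  rw [findU, h.ran1]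
  rw [← e] at hX ⊢
  generalize basis c (u2 c) X = Y at hX ⊢
  refine ⟨fun y hy => ?_, fun hW hz => ?_⟩
  · rw [chiA] at hy
    obtain ⟨a1, a2⟩ := (sp_chi h _ _).1 (aff_some h.hp h.d2 hy)
    obtain ⟨b1, b2⟩ := TFU.sound h hl (List.finRange (2 * n + 1)) Y hX _ a1
    refine ⟨b1, Matrix.ext fun α β => ?_, a2⟩
    have := congrFun (b2 a2 β (List.mem_finRange β)) α
    rw [mulVec_mulVec, mulVec_single_one] at this
    exact this.trans (by rw [one_apply, Pi.single_apply])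
  · obtain ⟨z, hz⟩ := TFU.complete h hl (List.finRange (2 * n + 1)) Y hX hW hz
    exact (chi_isSome h _).2 ⟨z, hz.1, hz.2.2⟩

end Pool.Agent.P.MP_f1a348_lc.UP.GF
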