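import Pool.Agent.P.MP_f1a348_lc.GF.Iface

/-!
Project GF: the algebra of one level of the tower.
-/

namespace Pool.Agent.P.MP_f1a348_lc.UP.GF

open Matrix Module Pool.Agent.P.MP_f1a348_lc.PG

namespace TKAP

variable {p n : ℕ} {ℓ : Ix n → ℕ} {A B X : Sub p n} {φ : Mat p n} {k : ℕ}

theorem one_sub {g : Mat p n} (hg : Un g) (x : Mat p n) : 1 - st g * x = st g * (g - x) := by
  rw [mul_sub, hg.st_mul]

theorem tri_of (h : Set1 ℓ A B X φ) {g x : Mat p n} (hx : x ∈ X) (e : g - x ∈ Tk ℓ k) :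
    Tri ℓ g := h.tri_sup (mem_sup_tk.2 ⟨x, hx, e⟩)

theorem k1 (h : Set1 ℓ A B X φ) {g x : Mat p n} (hg : Un g) (hx : x ∈ X)
    (e : g - x ∈ Tk ℓ k) : 1 - st g * x ∈ Tk ℓ k := by
  rw [one_sub hg]
  exact tk_left h.lab ((tri_of h hx e).st h.lab) e

theorem k2 (h : Set1 ℓ A B X φ) (hk : 1 ≤ k) {g x : Mat p n} (hg : Un g) (hx : x ∈ X)
    (e : g - x ∈ Tk ℓ k) : (1 - st g * x) + st (1 - st g * x) ∈ A ⊔ Tk ℓ (k + 1) := by
  refine mem_sup_tk.2 ⟨1 - st x * x, sub_mem h.sa.one (h.quo hx hx), ?_⟩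
  have := tk_mul' hk (tk_st h.lab e) e
  convert this using 1
  rw [st_sub, st_sub, st_mul, st_st, st_one, sub_mul, mul_sub, mul_sub, hg.st_mul]
  abel

theorem k4 (h : Set1 ℓ A B X φ) (hk : 1 ≤ k) {g x x' : Mat p n} (hx : x ∈ X)
    (e : g - x ∈ Tk ℓ k) (hx' : x' ∈ X) (e' : g - x' ∈ Tk ℓ k) :
    st g * x - st g * x' ∈ A ⊔ Tk ℓ (k + 1) := by
  refine mem_sup_tk.2 ⟨st x * (x - x'), h.quo hx (sub_mem hx hx'), ?_⟩
  have e2 : x - x' ∈ Tk ℓ k := by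
    have := sub_mem e' e
    rwa [sub_sub_sub_cancel_left] at this
  have := tk_mul' hk (tk_st h.lab e) e2
  convert this using 1
  rw [st_sub, sub_mul, mul_sub (st g)]

theorem k3 (h : Set1 ℓ A B X φ) (hk : 1 ≤ k) {g x : Mat p n} (hg : Un g) (hx : x ∈ X)
    (e : g - x ∈ Tk ℓ k) : g ∈ X ⊔ Tk ℓ (k + 1) ↔ 1 - st g * x ∈ A ⊔ Tk ℓ (k + 1) := by
  have tg := tri_of h hx e
  constructor
  · intro h1
    obtain ⟨x', hx', e'⟩ := mem_sup_tk.1 h1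
    have a1 : st g * (g - x') ∈ A ⊔ Tk ℓ (k + 1) :=
      Submodule.mem_sup_right (tk_left h.lab (tg.st h.lab) e')
    have a2 := k4 h hk hx e hx' (tk_succ e')
    have := sub_mem a1 a2
    convert this using 1
    rw [← one_sub hg]
    abel
  · intro h1
    obtain ⟨a, ha, r⟩ := mem_sup_tk.1 h1
    have ta : a ∈ Tk ℓ k := by
      have := sub_mem (k1 h hg hx e) (tk_succ r)
      rwa [sub_sub_cancel] at this
    refine mem_sup_tk.2 ⟨x + x * a, add_mem hx (h.mul hx ha), ?_⟩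
    have := add_mem (tk_mul' hk e ta) (tk_left h.lab tg r)
    convert this using 1
    rw [mul_sub, mul_sub, mul_one, ← mul_assoc, hg.mul_st, one_mul, sub_mul]
    abel

theorem k5 (h : Set1 ℓ A B X φ) (hk : 1 ≤ k) {g x w a : Mat p n} (hg : Un g) (hx : x ∈ X)
    (e : g - x ∈ Tk ℓ k) (ha : a ∈ A) (e' : w - a ∈ Tk ℓ k) :
    g * w - x * a ∈ Tk ℓ k ∧
      1 - st (g * w) * (x * a) - (cj (st (gr ℓ w)) (1 - st g * x) + (1 - st w * a)) ∈
        Tk ℓ (k + 1) := by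
  have tg := tri_of h hx e
  have tw := tri_of h.self ha e'
  have ta := h.tri a ha
  constructor
  · have := add_mem (tk_left h.lab tg e') (tk_right h.lab e ta)
    rwa [mul_sub, sub_mul, sub_add_sub_cancel] at this
  · have t1 := k1 h hg hx e
    have w1 : w - gr ℓ w ∈ Tk ℓ 1 := sub_gr_mem h.lab tw
    have a1 : a - gr ℓ w ∈ Tk ℓ 1 := by
      have := sub_mem w1 (tk_mono hk e')
      rwa [sub_sub_sub_cancel_left] at this
    have tf : Tri ℓ (gr ℓ w) := (dg_gr w).tri h.lab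
    have := add_mem (tk_right h.lab (tk_mul' le_rfl (tk_st h.lab w1) t1) ta)
      (tk_mul'' le_rfl (tk_left h.lab (tf.st h.lab) t1) a1)
    convert this using 1
    rw [cj_apply, st_st, st_mul, st_sub]
    noncomm_ring

theorem sand (h : Set1 ℓ A B X φ) {r b b' : Mat p n} (hr : r ∈ Tk ℓ k)
    (hw : r ∈ A ⊔ Tk ℓ (k + 1)) (hb : b ∈ B) (hb' : b' ∈ B) :
    b * r * st b' ∈ A ⊔ Tk ℓ (k + 1) := by
  obtain ⟨a, ha, e⟩ := mem_sup_tk.1 hw
  have tb := h.triB hb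
  have tb' := (h.triB hb').st h.lab
  obtain ⟨a1, h1, rfl⟩ := h.memB.1 hb
  obtain ⟨a2, h2, rfl⟩ := h.memB.1 hb'
  have ta : a ∈ Tk ℓ k := by
    have := sub_mem hr (tk_succ e)
    rwa [sub_sub_cancel] at this
  refine mem_sup_tk.2 ⟨a1 * a * st a2,
    h.sa.mul _ (h.sa.mul _ h1 _ ha) _ (h.sa.star _ h2), ?_⟩
  have s1 := sub_gr_mem h.lab (h.tri a1 h1)
  have s2 := tk_st h.lab (sub_gr_mem h.lab (h.tri a2 h2))
  have := sub_mem (sub_mem (tk_lr h.lab tb e tb')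
    (tk_right h.lab (tk_mul' le_rfl s1 ta) tb'))
    (tk_mul'' le_rfl (tk_left h.lab (h.tri a1 h1) ta) s2)
  convert this using 1
  rw [st_sub]
  noncomm_ring

theorem k6 (h : Set1 ℓ A B X φ) (hk : 1 ≤ k) {t b : Mat p n} (ht : t ∈ Tk ℓ k) (hb : b ∈ B)
    (hr : t ∈ Rk ℓ A k) : cj b t ∈ Rk ℓ A k := by
  obtain ⟨r, hw, _, ⟨d, hd, rfl⟩, rfl⟩ := Submodule.mem_sup.1 hr
  have td : d ∈ Tk ℓ k := dk_le hd
  have tr : r ∈ Tk ℓ k := by
    have := sub_mem ht (sk_tk h.lab td)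
    rwa [add_sub_cancel_right] at this
  have tb := h.triB hb
  rw [map_add]
  refine add_mem (wk_le (sand h tr hw hb hb)) ?_
  have := sk_mem_rk (A := A) h.lab hk (tk_lr h.lab tb td (tb.st h.lab))
  convert this using 1
  rw [sk_apply, sk_apply, map_sub, cj_st, cj_apply]

theorem k7 (h : Set1 ℓ A B X φ) (hk : 1 ≤ k) {t b b' : Mat p n} (ht : t ∈ Tk ℓ k)
    (hs : t + st t ∈ A ⊔ Tk ℓ (k + 1)) (hb : b ∈ B) (hb' : b' ∈ B) :
    cj (b + b') t - (cj b t + cj b' t) ∈ Rk ℓ A k := by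
  have := add_mem
    (sk_mem_rk (A := A) h.lab hk (tk_lr h.lab (h.triB hb) ht ((h.triB hb').st h.lab)))
    (wk_le (sand h (add_mem ht (tk_st h.lab ht)) hs hb' hb))
  convert this using 1
  rw [cj_apply, cj_apply, cj_apply, sk_apply, st_add, st_mul, st_mul, st_st]
  noncomm_ring

end TKAP

theorem s_KAP (p n : ℕ) [Fact p.Prime] : S_KAP p n := fun _ _ _ _ _ _ h hk =>
  ⟨fun _ _ hg hx e => ⟨TKAP.k1 h hg hx e, TKAP.k2 h hk hg hx e, TKAP.k3 h hk hg hx e,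
      fun _ hx' e' => TKAP.k4 h hk hx e hx' e',
      fun _ _ _ ha e' => ⟨h.mul hx ha, TKAP.k5 h hk hg hx e ha e'⟩⟩,
    fun _ ht _ hb hr => TKAP.k6 h hk ht hb hr,
    fun _ ht hs _ hb _ hb' => TKAP.k7 h hk ht hs hb hb'⟩

end Pool.Agent.P.MP_f1a348_lc.UP.GF
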