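import Pool.Agent.P.MP_f1a348_lc.GF.Iface

/-! One level of the tower. -/

namespace Pool.Agent.P.MP_f1a348_lc.UP.GF

open Matrix Module Pool.Agent.P.MP_f1a348_lc.PG

namespace TLVL

variable {p n : ℕ} [Fact p.Prime] {ℓ : Ix n → ℕ} {A B X : Sub p n} {φ : Mat p n} {k : ℕ}

/-- elements whose skew part is realised in `G` -/
def Sm (hl : Lab ℓ) (hk : 1 ≤ k) (G : SG p n) : AddSubmonoid (Mat p n) where
  carrier := {x | x ∈ Tk ℓ k ∧ ∃ w ∈ G, w.1 - 1 - sk x ∈ Tk ℓ (k + 1)}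
  zero_mem' := ⟨zero_mem _, 1, one_mem _, by simp⟩
  add_mem' := by
    rintro a b ⟨ha, v, hv, e⟩ ⟨hb, w, hw, e'⟩
    refine ⟨add_mem ha hb, v * w, mul_mem hv hw, ?_⟩
    have h1 : v.1 - 1 ∈ Tk ℓ k := by
      simpa only [sub_add_cancel] using add_mem (tk_succ e) (sk_tk hl ha)
    have h2 : w.1 - 1 ∈ Tk ℓ k := by
      simpa only [sub_add_cancel] using add_mem (tk_succ e') (sk_tk hl hb)
    have := add_mem (add_mem (tk_mul' hk h1 h2) e) e'
    convert this using 1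
    rw [val_mul, map_add]
    noncomm_ring

def Sl (hl : Lab ℓ) (hk : 1 ≤ k) (G : SG p n) : Sub p n where
  toAddSubmonoid := Sm hl hk G
  smul_mem' c x hx := by
    have : c • x = c.val • x := by
      rw [← Nat.cast_smul_eq_nsmul (ZMod p), ZMod.natCast_zmod_val]
    rw [this]
    exact nsmul_mem (show x ∈ Sm hl hk G from hx) _

/-- elements that are close to `G` -/
def Hk (h : Set1 ℓ A B X φ) (k : ℕ) (G : SG p n) : SG p n :=
  sg (fun g => g.1 ∈ A ⊔ Tk ℓ k ∧ ∃ u ∈ G, g.1 - u.1 ∈ Tk ℓ k)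
    ⟨Submodule.mem_sup_left h.sa.one, 1, one_mem _, by simp⟩ (by
      rintro a b ⟨ha, u, hu, e⟩ ⟨hb, v, hv, e'⟩
      refine ⟨h.self.mul_sup ha hb, u * v, mul_mem hu hv, ?_⟩
      have tv : Tri ℓ v.1 := by simpa using (h.self.tri_sup hb).sub (tk_tri e')
      have := add_mem (tk_left h.lab (h.self.tri_sup ha) e') (tk_right h.lab e tv)
      rwa [mul_sub, sub_mul, sub_add_sub_cancel] at this)

theorem sup_succ {g : Mat p n} (hg : g ∈ A ⊔ Tk ℓ (k + 1)) : g ∈ A ⊔ Tk ℓ k :=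
  sup_le_sup_left (tk_mono (Nat.le_succ k)) A hg

theorem quo_sub (u z : GG p n) : (u⁻¹ * z).1 - 1 = st u.1 * (z.1 - u.1) := by
  rw [mul_sub, u.2.2.1.st_mul]; rfl

theorem cov (h : Set1 ℓ A B X φ) (hk : 1 ≤ k) {G G' : SG p n}
    (h0 : ∀ z : GG p n, z.1 ∈ A ⊔ Tk ℓ k → ∃ u ∈ G, z.1 - u.1 ∈ Tk ℓ k)
    (h1 : ∀ g ∈ G, (∃ a ∈ A, g.1 - a ∈ Tk ℓ k ∧ 1 - st g.1 * a ∈ Rk ℓ A k) →
      ∃ u ∈ G', g.1 - u.1 ∈ Tk ℓ k)
    (hle : ∀ g ∈ G', g.1 ∈ A ⊔ Tk ℓ (k + 1))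
    (h2 : ∀ x ∈ Dk ℓ k, sk x ∈ A ⊔ Tk ℓ (k + 1) → ∃ w ∈ G', w.1 - 1 - sk x ∈ Tk ℓ (k + 1))
    (z : GG p n) (hz : z.1 ∈ A ⊔ Tk ℓ (k + 1)) : ∃ u ∈ G', z.1 - u.1 ∈ Tk ℓ (k + 1) := by
  have hl := h.lab
  obtain ⟨a, ha, ea⟩ := mem_sup_tk.1 hz
  obtain ⟨u, hu, eu⟩ := h0 z (sup_succ hz)
  have tu : Tri ℓ u.1 := by simpa using (h.self.tri_sup hz).sub (tk_tri eu)
  obtain ⟨v, hv, ev⟩ := h1 u hu ⟨a, ha, by simpa using sub_mem (tk_succ ea) eu, by
    have r1 : (u⁻¹ * z).1 - 1 ∈ Rk ℓ A k :=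
      un_mem_rk hl hk (u⁻¹ * z).2.2.1 (quo_sub u z ▸ tk_left hl (tu.st hl) eu)
    have := add_mem (neg_mem r1) (tk_le_rk (tk_left hl (tu.st hl) ea))
    convert this using 1
    rw [val_mul, val_inv]
    noncomm_ring⟩
  have tv := h.self.tri_sup (hle v hv)
  have e1 : (v⁻¹ * z).1 - 1 ∈ Tk ℓ k :=
    quo_sub v z ▸ tk_left hl (tv.st hl) (by simpa using add_mem eu ev)
  have e2 : (v⁻¹ * z).1 ∈ A ⊔ Tk ℓ (k + 1) := h.self.quo_sup (hle v hv) hz
  have e3 := un_sk hl hk (v⁻¹ * z).2.2.1 e1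
  obtain ⟨w, hw, ew⟩ := h2 _ (eD_mem e1) (by
    simpa only [sub_sub_cancel] using
      sub_mem (sub_mem e2 (Submodule.mem_sup_left h.sa.one)) (Submodule.mem_sup_right e3))
  refine ⟨v * w, mul_mem hv hw, ?_⟩
  have := tk_left hl tv (sub_mem e3 ew)
  rwa [sub_sub_sub_cancel_right, sub_sub_sub_cancel_right, mul_sub, ← val_mul, ← val_mul,
    mul_inv_cancel_left] at this

theorem vd_subs {c : Cx} (h : Ok p n c) (t : ℕ → V → Bool) (I : List ℕ) (S : List V) :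
    ∀ s ∈ subs c t I S, Vd p n s := by
  have key : ∀ S : List V, ∀ s ∈ red c S, Vd p n s := fun S s hs => by
    obtain ⟨x, -, rfl⟩ := List.mem_map.1 hs
    exact vd_of (h.nrm x)
  unfold subs
  induction I using List.reverseRecOn with
  | nil => exact key _
  | append_singleton I i _ => rw [List.foldl_append]; exact key _

end TLVL

open TLVL in
theorem s_LVL (p n : ℕ) [Fact p.Prime] (hTST : S_TST p n) (hCOR : S_COR p n) (hUNI : S_UNI p n)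
    (hDK : S_DK p n) (hANN : S_ANN p n) (hQRED : S_QRED p n) : S_LVL p n := by
  intro c l A B X φ k s h hS hI
  have hl := hS.lab
  have hk : 1 ≤ k + 1 := Nat.le_add_left 1 k
  obtain ⟨eD, eT, eS⟩ := hDK c l (k + 1) h hl
  replace eT := eT hk
  have eW : sp (mat p n) (A ++ tkP c l (k + 2)) = sp (mat p n) A ⊔ Tk (lab n l) (k + 1 + 1) := by
    rw [sp_append, (hDK c l (k + 2) h hl).2.1 (by omega)]
  have eR : sp (mat p n) (A ++ tkP c l (k + 2) ++ (dkP c l (k + 1)).map (skP c)) =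
      Rk (lab n l) (sp (mat p n) A) (k + 1) := by
    rw [sp_append, eW, sp_map (δ := mat p n) sk (fun x _ => eS x), eD, Rk]
  obtain ⟨-, hL, eL, -⟩ := hANN c (A ++ tkP c l (k + 2) ++ (dkP c l (k + 1)).map (skP c)) h
  rw [eR] at eL
  obtain ⟨h1, g, eg, hg⟩ := hTST c l A B X _ _ φ (k + 1) s.1 s.2 h hS hk eT hL eL hI
  unfold lvl lvQ
  generalize annM c (A ++ tkP c l (k + 2) ++ (dkP c l (k + 1)).map (skP c)) = L at *
  generalize A ++ tkP c l (k + 2) = W at *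
  generalize tkP c l (k + 1) = T at *
  generalize dkP c l (k + 1) = D at *
  have hv := vd_subs h (tst c B L A T) (ran (u3 c)) s.2
  generalize subs c (tst c B L A T) (ran (u3 c)) s.2 = S1 at *
  have hK := mem_preim (L := D) (f := skP c) h.hp h.d2 h.d2 sk (fun x _ => eS x) W
  rw [eD, eW] at hK
  generalize preim c (u2 c) (u2 c) D (skP c) W = K at *
  rw [hQRED c _ h]
  have c1 := fun x (hx : x ∈ S1) => hCOR c _ _ _ D W A T 1 (k + 1) x (gD p n x) h hS.self hk eD eW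
    eT (hv x hx) ((h1 _).1 (mem_gS hx)).2
  have c2 : ∀ x ∈ K, (gD p n (uni c x)).1 - 1 - sk (mV p n x) ∈ Tk (lab n l) (k + 1 + 1) :=
    fun x hx => by
      obtain ⟨u1, u2⟩ := hUNI c _ (k + 1) x h hl hk ((hK _).1 (mem_sp hx)).1
      rwa [← vd_par u1.l0]
  have hle : gS p n (S1.map (cor c D W A T) ++ K.map (uni c)) ≤ Yk hS (k + 1 + 1) := by
    refine gS_le.2 fun y hy => (mem_Yk hS).2 ?_
    rcases List.mem_append.1 hy with hy | hy <;> obtain ⟨x, hx, rfl⟩ := List.mem_map.1 hy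
    · exact (c1 x hx).1
    · simpa using add_mem (add_mem (Submodule.mem_sup_right (c2 x hx)) ((hK _).1 (mem_sp hx)).2)
        (Submodule.mem_sup_left hS.sa.one)
  refine ⟨(hCOR c _ _ _ D W X T φ (k + 1) _ g h hS hk eD eW eT eg hg).1, hle,
    cov hS hk hI.cov (fun u hu e => ?_) hle fun x hx e => ?_⟩
  · have : gS p n S1 ≤ Hk hS (k + 1) (gS p n (S1.map (cor c D W A T) ++ K.map (uni c))) :=
      gS_le.2 fun y hy => ⟨hI.le _ ((h1 _).1 (mem_gS hy)).1, _,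
        mem_gS (List.mem_append_left _ (List.mem_map_of_mem hy)),
        by simpa using neg_mem (c1 y hy).2⟩
    exact (this ((h1 u).2 ⟨hu, e⟩)).2
  · have : sp (mat p n) K ≤ Sl hl hk (gS p n (S1.map (cor c D W A T) ++ K.map (uni c))) :=
      sp_le.2 fun y hy => ⟨((hK _).1 (mem_sp hy)).1.1, _,
        mem_gS (List.mem_append_right _ (List.mem_map_of_mem hy)), c2 y hy⟩
    exact (this ((hK x).2 ⟨hx, e⟩)).2

end Pool.Agent.P.MP_f1a348_lc.UP.GF
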