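import Pool.Agent.P.MP_f1a348_lc.GF.Iface

/-!
Project GF: the right ideals `NS` are small and add up to the algebra.
-/

namespace Pool.Agent.P.MP_f1a348_lc.UP.GF

open Matrix Module Pool.Agent.P.MP_f1a348_lc.PG

namespace TNNL

variable {p n : ℕ} [Fact p.Prime] {ℓ : Ix n → ℕ} {B : Sub p n}

omit [Fact p.Prime] in
theorem of_im {x : Vec p n} {b : Mat p n} (hb : b ∈ B) (h : im b ≤ orb (Com B) x) : b ∈ NS B x :=
  ⟨hb, fun a ha h0 => mat_ext fun u => by
    obtain ⟨C, hC, e⟩ := mem_orb.1 (h ⟨u, rfl⟩)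
    rw [← Matrix.mulVec_mulVec, Matrix.zero_mulVec, show b *ᵥ u = C *ᵥ x from e.symm,
      ← com_mulVec hC ha, h0, Matrix.mulVec_zero]⟩

theorem im_le (h : Str ℓ B) {x : Vec p n} {b : Mat p n} (hb : b ∈ NS B x) (u : Vec p n) :
    b *ᵥ u ∈ orb (Com B) x := by
  refine mem_of_blocks h.lab fun a => by_contra fun hn => ?_
  obtain ⟨e, he, e1, e2⟩ := dens h (stab_orb x) (pr_mulVec_mem a _) hn (pr_mulVec_mem a (b *ᵥ u))
  rw [← com_mulVec (com_pr h.alg a) he, Matrix.mulVec_mulVec u e b,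
    hb.2 e he (e2 x (self_mem_orb x)), Matrix.zero_mulVec, Matrix.mulVec_zero] at e1
  exact hn (e1 ▸ zero_mem _)

theorem dim_le (h : Str ℓ B) (j : Ix n) :
    finrank (ZMod p) (NS B (Pi.single j 1)) ≤ 2 * n + 1 := by
  let f : NS B (Pi.single j 1) →ₗ[ZMod p] Vec p n :=
    { toFun := fun b => st b.1 *ᵥ Pi.single j.rev 1
      map_add' := fun a b => by rw [Submodule.coe_add, st_add, Matrix.add_mulVec]
      map_smul' := fun c a => by rw [Submodule.coe_smul, st_smul, Matrix.smul_mulVec]; rfl }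
  have hf : Function.Injective f := (injective_iff_map_eq_zero f).2 fun b hb => by
    have hb' : st b.1 *ᵥ Pi.single j.rev 1 = 0 := hb
    refine Subtype.ext (mat_ext fun u => ?_)
    rw [Submodule.coe_zero, Matrix.zero_mulVec]
    by_contra h0
    have := mem_of_orb h ((stab_orb (Pi.single j.rev 1)).perp h.alg) (single_mem_Vb (a := j) rfl 1)
      (im_le h b.2 u) h0 (mem_perp_orb.2 fun C hC => by
        rw [ip_mulVec_right, ← com_mulVec hC (h.alg.star _ b.2.1), hb', Matrix.mulVec_zero,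
          ip_zero_left]) _ (self_mem_orb _)
    rw [ip_single_right, Pi.single_eq_same] at this
    exact one_ne_zero this
  simpa using LinearMap.finrank_le_finrank_of_injective hf

theorem sup_ideal (h : Str ℓ B) {b : Mat p n} (hb : b ∈ ⨆ j : Ix n, NS B (Pi.single j 1)) :
    b ∈ B ∧ ∀ a ∈ B, b * a ∈ ⨆ j : Ix n, NS B (Pi.single j 1) := by
  induction hb using Submodule.iSup_induction' with
  | mem j b hb =>
    exact ⟨hb.1, fun a ha => Submodule.mem_iSup_of_mem j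
      ⟨h.alg.mul _ hb.1 _ ha, fun c hc e => by rw [← mul_assoc, hb.2 c hc e, zero_mul]⟩⟩
  | zero => exact ⟨zero_mem _, fun a _ => by rw [zero_mul]; exact zero_mem _⟩
  | add b c _ _ hb hc =>
    exact ⟨add_mem hb.1 hc.1, fun a ha => by rw [add_mul]; exact add_mem (hb.2 a ha) (hc.2 a ha)⟩

theorem fix (h : Str ℓ B) (I : List (Ix n)) : ∃ ε ∈ ⨆ j : Ix n, NS B (Pi.single j 1),
    ∀ j ∈ I, ε *ᵥ Pi.single j 1 = Pi.single j 1 := by
  induction I with
  | nil => exact ⟨0, zero_mem _, by simp⟩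
  | cons j I ih =>
    obtain ⟨ε, h1, h2⟩ := ih
    by_cases e : ε *ᵥ Pi.single j 1 = Pi.single j 1
    · exact ⟨ε, h1, List.forall_mem_cons.2 ⟨e, h2⟩⟩
    obtain ⟨h3, h4⟩ := sup_ideal h h1
    have hW : Stab B (LinearMap.eqLocus ε.mulVecLin LinearMap.id) := fun C hC w hw => by
      have hw' : ε *ᵥ w = w := hw
      show ε *ᵥ (C *ᵥ w) = C *ᵥ w
      rw [← com_mulVec hC h3, hw']
    obtain ⟨ρ, r1, -, r3, r4, r5⟩ := proj h hW (single_mem_Vb (a := j) rfl 1) e
    refine ⟨ρ + ε * (1 - ρ), add_mem (Submodule.mem_iSup_of_mem j (of_im r1 r5))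
      (h4 _ (sub_mem h.alg.one r1)), List.forall_mem_cons.2 ⟨?_, fun i hi => ?_⟩⟩
    · rw [Matrix.add_mulVec, ← Matrix.mulVec_mulVec, Matrix.sub_mulVec, Matrix.one_mulVec, r3,
        sub_self, Matrix.mulVec_zero, add_zero]
    · rw [Matrix.add_mulVec, ← Matrix.mulVec_mulVec, Matrix.sub_mulVec, Matrix.one_mulVec,
        r4 _ (h2 i hi), sub_zero, zero_add, h2 i hi]

end TNNL

theorem s_NNL (p n : ℕ) [Fact p.Prime] : S_NNL p n := by
  refine fun ℓ B h => ⟨TNNL.dim_le h, ?_⟩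
  obtain ⟨ε, h1, h2⟩ := TNNL.fix h (List.finRange _)
  have : ε = 1 := by
    ext α β
    have := congrFun (h2 β (List.mem_finRange β)) α
    simpa [Matrix.one_apply, Pi.single_apply] using this
  rwa [this] at h1

end Pool.Agent.P.MP_f1a348_lc.UP.GF
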