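import Pool.Agent.P.MP_f1a348_lc.GF.Iface

namespace Pool.Agent.P.MP_f1a348_lc.UP.GF

open Matrix Module Pool.Agent.P.MP_f1a348_lc.PG

namespace TPS

variable {p n : ℕ} [Fact p.Prime] {ℓ : Ix n → ℕ} {A B X J : Sub p n} {φ g x x' w a b t : Mat p n}
  {k : ℕ} {ψ : Mat p n →ₗ[ZMod p] ZMod p}

variable (hK : S_KAP p n) (h : Set1 ℓ A B X φ) (hk : 1 ≤ k) (hψ : ∀ r ∈ Rk ℓ A k, ψ r = 0)
include hK h hk hψ

/-- all witnesses agree -/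
theorem agree (hg : Un g) (hx : x ∈ X) (e : g - x ∈ Tk ℓ k) (hx' : x' ∈ X) (e' : g - x' ∈ Tk ℓ k)
    (hb : b ∈ B) : ψ (cj b (1 - st g * x')) = ψ (cj b (1 - st g * x)) := by
  obtain ⟨k1, k2, -⟩ := hK ℓ A B X φ k h hk
  obtain ⟨a1, -, -, a2, -⟩ := k1 g x hg hx e
  have a3 := sub_mem (k1 g x' hg hx' e').1 a1
  rw [← sub_eq_zero, ← map_sub, ← map_sub]
  refine hψ _ (k2 _ a3 b hb ?_)
  rw [sub_sub_sub_cancel_left]
  exact wk_le (a2 x' hx' e')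

/-- the zero set of the functional is a subspace -/
theorem zero (hg : Un g) (hx : x ∈ X) (e : g - x ∈ Tk ℓ k) :
    ∃ Z : Sub p n, ∀ b, b ∈ Z ↔ b ∈ B ∧ ψ (cj b (1 - st g * x)) = 0 := by
  obtain ⟨k1, -, k3⟩ := hK ℓ A B X φ k h hk
  obtain ⟨a1, a2, -⟩ := k1 g x hg hx e
  let Z : AddSubmonoid (Mat p n) :=
    { carrier := {b | b ∈ B ∧ ψ (cj b (1 - st g * x)) = 0}
      add_mem' := fun {b b'} hb hb' => ⟨add_mem hb.1 hb'.1, by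
        have := hψ _ (k3 _ a1 a2 b hb.1 b' hb'.1)
        rwa [map_sub, map_add, hb.2, hb'.2, add_zero, sub_zero] at this⟩
      zero_mem' := ⟨zero_mem _, by simp⟩ }
  refine ⟨{ Z with smul_mem' := fun c b hb => ?_ }, fun b => Iff.rfl⟩
  rw [← ZMod.natCast_zmod_val c, Nat.cast_smul_eq_nsmul]
  exact nsmul_mem (S := Z) hb _

/-- the cocycle identity -/
theorem coc (hg : Un g) (hx : x ∈ X) (e : g - x ∈ Tk ℓ k) (hw : Un w) (ha : a ∈ A)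
    (e' : w - a ∈ Tk ℓ k) : x * a ∈ X ∧ g * w - x * a ∈ Tk ℓ k ∧ ∀ b ∈ B,
      ψ (cj b (1 - st (g * w) * (x * a))) =
        ψ (cj (b * st (gr ℓ w)) (1 - st g * x)) + ψ (cj b (1 - st w * a)) := by
  obtain ⟨k1, -, -⟩ := hK ℓ A B X φ k h hk
  obtain ⟨a1, a2, a3⟩ := (k1 g x hg hx e).2.2.2.2 w a hw ha e'
  refine ⟨a1, a2, fun b hb => ?_⟩
  have := hψ _ (tk_le_rk (tk_lr h.lab (h.triB hb) a3 ((h.triB hb).st h.lab)))
  rw [← cj_apply, map_sub, map_sub, map_add, map_add, sub_eq_zero] at this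
  rw [this]
  simp only [cj_apply, st_mul, mul_assoc]

theorem key (hJ : J ≤ B) (hI : ∀ b ∈ J, ∀ a ∈ B, b * a ∈ J) (hg : Un g) (hw : Un w)
    (hy : Ps ℓ X k ψ J g) (e : w ∈ A ⊔ Tk ℓ k) : Ps ℓ X k ψ J (g * w) ↔ Ps ℓ A k ψ J w := by
  obtain ⟨x, hx, e1, e2⟩ := hy
  have hm := h.str.alg.star _ (h.gr_sup hk e)
  constructor
  · rintro ⟨x', hx', e3, e4⟩
    obtain ⟨a, ha, e5⟩ := mem_sup_tk.1 e
    obtain ⟨a1, a2, a3⟩ := coc hK h hk hψ hg hx e1 hw ha e5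
    refine ⟨a, ha, e5, fun b hb => ?_⟩
    have := a3 b (hJ hb)
    rw [agree hK h hk hψ (hg.mul hw) hx' e3 a1 a2 (hJ hb), e4 b hb, e2 _ (hI b hb _ hm),
      zero_add] at this
    exact this.symm
  · rintro ⟨a, ha, e5, e6⟩
    obtain ⟨a1, a2, a3⟩ := coc hK h hk hψ hg hx e1 hw ha e5
    exact ⟨_, a1, a2, fun b hb => by rw [a3 b (hJ hb), e6 b hb, e2 _ (hI b hb _ hm), add_zero]⟩

theorem idx (hJ : J ≤ B) (hI : ∀ b ∈ J, ∀ a ∈ B, b * a ∈ J) {Q G : SG p n}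
    (hQ : ∀ g, g ∈ Q ↔ Ps ℓ A k ψ J g.1) (hG : ∀ g ∈ G, g.1 ∈ A ⊔ Tk ℓ k) :
    Q.relIndex G ≤ p ^ finrank (ZMod p) J := by
  choose α h1 h2 using fun g : G => mem_sup_tk.1 (hG g g.2)
  let β := Module.finBasis (ZMod p) J
  refine (Nat.card_le_card_of_injective (fun (q : G ⧸ Q.subgroupOf G) i =>
    ψ (cj (β i).1 (1 - st (q.out⁻¹).1.1 * α q.out⁻¹))) fun q q' e => ?_).trans_eq (by simp)
  rw [← q.out_eq, ← q'.out_eq]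
  refine QuotientGroup.eq.2 ((hQ _).2 ?_)
  obtain ⟨u, hu⟩ : ∃ u, u = q.out⁻¹ * q'.out := ⟨_, rfl⟩
  obtain ⟨v, hv⟩ : ∃ v, v = q'.out⁻¹ := ⟨_, rfl⟩
  have e1 : q.out⁻¹ = u * v := by rw [hu, hv, mul_inv_cancel_right]
  rw [← hu]
  simp only [← hv, e1] at e
  have uu : Un u.1.1 := u.1.2.2.1
  have uv : Un v.1.1 := v.1.2.2.1
  obtain ⟨a1, a2, a3⟩ := coc hK h.self hk hψ uu (h1 u) (h2 u) uv (h1 v) (h2 v)
  obtain ⟨Z, hZ⟩ := zero hK h.self hk hψ uu (h1 u) (h2 u)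
  have hm := h.gr_sup hk (hG v v.2)
  have pv : Par ℓ v.1.1 := ⟨h.self.tri_sup (hG v v.2), v.1.2.2⟩
  have hle : Submodule.span (ZMod p) (Set.range β) ≤
      Z.comap (LinearMap.mulRight (ZMod p) (st (gr ℓ v.1.1)) ∘ₗ J.subtype) := by
    refine Submodule.span_le.2 ?_
    rintro _ ⟨i, rfl⟩
    refine (hZ _).2 ⟨hJ (hI _ (β i).2 _ (h.str.alg.star _ hm)), ?_⟩
    have e2 := a3 _ (hJ (β i).2)
    rw [agree hK h.self hk hψ (uu.mul uv) (h1 (u * v)) (h2 (u * v)) a1 a2 (hJ (β i).2)] at e2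
    exact left_eq_add.1 (((congrFun e i).symm.trans e2).trans (add_comm _ _))
  refine ⟨α u, h1 u, h2 u, fun b hb => ?_⟩
  have := ((hZ _).1 (hle (β.mem_span ⟨_, hI b hb _ hm⟩))).2
  rwa [LinearMap.comp_apply, LinearMap.mulRight_apply, Submodule.subtype_apply, mul_assoc,
    (pv.gr h.lab).2.1.mul_st, mul_one] at this

end TPS

theorem s_PS (p n : ℕ) [Fact p.Prime] (hKAP : S_KAP p n) : S_PS p n := by
  intro ℓ A B X φ k h hk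
  refine ⟨fun ψ J hψ hJ => ⟨fun g x hg hx e => ⟨fun r => ⟨x, hx, e, fun b hb => hψ _ ?_⟩,
    fun L hL => ⟨?_, fun k1 => ⟨x, hx, e, fun b hb => ?_⟩⟩⟩, fun hI => ?_⟩,
    fun Ψ J hΨ hJ h1 g x hg hx e hP => (hΨ _).2 fun ψ hψ => ?_⟩
  · obtain ⟨k1, k2, -⟩ := hKAP ℓ A B X φ k h hk
    exact k2 _ (k1 g x hg hx e).1 b (hJ hb) r
  · rintro ⟨x', hx', e1, e2⟩ b hb
    have hb' : b ∈ J := hL ▸ Submodule.subset_span hb
    rw [TPS.agree hKAP h hk hψ hg hx' e1 hx e (hJ hb'), e2 b hb']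
  · obtain ⟨Z, hZ⟩ := TPS.zero hKAP h hk hψ hg hx e
    refine ((hZ b).1 ((Submodule.span_le.2 fun y hy => (hZ y).2 ⟨hJ ?_, k1 y hy⟩) (hL ▸ hb))).2
    exact hL ▸ Submodule.subset_span hy
  · refine ⟨sg (fun g => Ps ℓ A k ψ J g.1) ⟨1, h.sa.one, by simp, fun b _ => by simp⟩
      fun a b ha hb => (TPS.key hKAP h.self hk hψ hJ hI a.2.2.1 b.2.2.1 ha ?_).2 hb,
      fun g => Iff.rfl, fun G hG => TPS.idx hKAP h hk hψ hJ hI (fun g => Iff.rfl) hG,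
      fun y w hy hw => TPS.key hKAP h hk hψ hJ hI y.2.2.1 w.2.2.1 hy hw⟩
    obtain ⟨x, hx, e, -⟩ := hb
    exact mem_sup_tk.2 ⟨x, hx, e⟩
  · have h0 : ∀ r ∈ Rk ℓ A k, ψ r = 0 := fun r hr => (hΨ r).1 hr ψ hψ
    obtain ⟨Z, hZ⟩ := TPS.zero hKAP h hk h0 hg hx e
    have hle : ⨆ j, J j ≤ Z := iSup_le fun j b hb => (hZ b).2 ⟨hJ j hb, by
      obtain ⟨x', hx', e1, e2⟩ := hP ψ hψ j
      rw [TPS.agree hKAP h hk h0 hg hx' e1 hx e (hJ j hb), e2 b hb]⟩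
    simpa using ((hZ 1).1 (hle h1)).2

end Pool.Agent.P.MP_f1a348_lc.UP.GF
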