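import Pool.Agent.P.MP_f1a348_lc.GF.Iface
import Pool.Agent.P.MP_f1a348_lc.UP.OQRef

/-!
Project GF: refinement with frames on both sides.
-/

namespace Pool.Agent.P.MP_f1a348_lc.UP.GF

open Matrix Module Pool.Agent.P.MP_f1a348_lc.PG

set_option linter.unusedSectionVars false

namespace TREF2

variable {p n : ℕ} [Fact p.Prime] {c : Cx}

theorem mkgA {l : V} (h : Ok p n c) (hMKG : PG.S_MKG p n) (hl : Lab (lab n l)) {α : Ix n}
    (hα : c0 n < α) {L : List V} {W : VS p n} (hW : Bas (vec p n) (2 * n + 1) L W)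
    (hle : W ≤ Vb (lab n l) α) : Ad (lab n l) α W (mV p n (mkg c l α.val L)) := by
  obtain ⟨b1, b2, b3⟩ := QMkgy.ext_spec (l := l) h α L (by rw [hW.sp, hW.len]) (hW.sp ▸ hle)
  rw [PG.mkg]
  generalize extP c l α.val L = E at b1 b2 b3
  have hG := QMkgy.g1_apply (l := l) h α E
  have hcol : ∀ β, (fun γ => mV p n (g1P c l α.val E) γ β) ∈
      LinearMap.range (mV p n (g1P c l α.val E)).mulVecLin := fun β =>
    ⟨Pi.single β 1, by funext γ; simp⟩
  have hs : Function.Surjective (mV p n (g1P c l α.val E)).mulVec := by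
    intro x
    refine QMkgy.top_of_single (S := LinearMap.range (mV p n (g1P c l α.val E)).mulVecLin)
      (fun β => ?_) x
    by_cases e1 : lab n l β = lab n l α
    · have h1 : Vb (lab n l) α ≤ LinearMap.range (mV p n (g1P c l α.val E)).mulVecLin := by
        rw [← b3, sp_le]
        intro y hy
        obtain ⟨i, hi, rfl⟩ := List.getElem_of_mem hy
        have h2 := add_nb_le_y hl α
        have h3 : lab n l ⟨lab n l α + i, by omega⟩ = lab n l α :=
          (hl.block α _).2 ⟨Nat.le_add_right _ _, by show lab n l α + i < _; omega⟩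
        have h4 := hcol ⟨lab n l α + i, by omega⟩
        simp only [hG, if_pos h3, Nat.add_sub_cancel_left, List.getD_eq_getElem _ _ hi] at h4
        exact h4
      exact h1 (single_mem_Vb e1 1)
    · have h4 := hcol β
      simp only [hG, if_neg e1] at h4
      have h5 : (fun γ => (1 : Mat p n) γ β) = Pi.single β 1 := by
        funext γ; rw [Matrix.one_apply, Pi.single_apply]
      rwa [h5] at h4
  obtain ⟨G', hG'⟩ := Matrix.mulVec_surjective_iff_exists_right_inverse.1 hs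
  rw [h.mmul, h.mstar, h.invP hG']
  refine hMKG _ α W _ G' hl hα hG' (fun γ β e => by rw [hG, if_neg e]) (fun γ β e e' => ?_)
    fun β e hβ => ?_
  · rw [hG, if_pos e]
    exact (b3 ▸ QMkgy.getD_mem E _ : _ ∈ Vb (lab n l) α) γ e'
  · simp only [hG, if_pos e]
    obtain ⟨T, rfl⟩ := b1
    have h1 := ((hl.block α β).1 e).1
    rw [List.getD_append _ _ _ _ (by rw [hW.len]; omega), ← hW.sp]
    exact QMkgy.getD_mem L _

open QSplity in
theorem step (h : Ok p n c) (hCUT : PG.S_CUT n) (hSPL : PG.S_SPL p n) (hMKG : PG.S_MKG p n)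
    (hREF : PG.S_REF p n) (hINV : PG.S_INV p n) {ℓ : Ix n → ℕ} {A : Sub p n} {z : Mat p n}
    (hℓ : Lab ℓ) (hA0 : Alg ℓ A) {x : Lt} {y : Rt} (f : Fr2 p n ℓ A z x y) :
    (Sim (lab n x.1) (alL p n x) ∧ split c (x, [y]) = (x, [y])) ∨
    ∃ x' y', split c (x, [y]) = (x', [y']) ∧ Fr2 p n ℓ A z x' y' ∧
      nblk (lab n x.1) < nblk (lab n x'.1) := by
  have hl : Lab (lab n x.1) := f.ref.lab
  have hB : Alg (lab n x.1) (alL p n x) := (hREF _ _ hℓ hA0).2.1 _ _ _ f.ref
  cases e : findP c x with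
  | none =>
    refine Or.inl ⟨(hREF _ _ hl hB).2.2.2 fun α hα x hx h0 => ?_, by rw [PG.split, e]; rfl⟩
    obtain ⟨v, hv, rfl⟩ := ((h.blkP hl α).mem x).1 hx
    by_contra hn
    refine List.find?_eq_none.1 e (α.val, v) (List.mem_flatMap.2
      ⟨α.val, mem_ran.2 (α.2.trans_eq h.len1.symm), List.mem_map_of_mem hv⟩) ?_
    simp only [Bool.and_eq_true, Nat.blt_eq, Bool.not_eq_true', h.cz, h.nbP, (h.orbP _ _).len]
    exact ⟨⟨hα, Bool.eq_false_iff.2 fun e => h0 ((isz_iff h.hp h.d1 v).1 e)⟩, not_le.1 hn⟩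
  | some q =>
    have h2 := List.find?_some e
    obtain ⟨a, ha, hq⟩ := List.mem_flatMap.1 (List.mem_of_find?_eq_some e)
    obtain ⟨v, hv, rfl⟩ := List.mem_map.1 hq
    obtain ⟨α, rfl⟩ : ∃ α : Ix n, a = α.val := ⟨⟨a, h.len1 ▸ mem_ran.1 ha⟩, rfl⟩
    have hs : PG.split c (x, [y]) = (spLft c x (α.val, v), [spRgt c x (α.val, v) y]) := by
      rw [PG.split, e]; rfl
    have hW : Bas (vec p n) (2 * n + 1) (orbP c x.2.2 v) (orb (alL p n x) (vV p n v)) :=
      h.orbP _ _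
    simp only [Bool.and_eq_true, Nat.blt_eq, Bool.not_eq_true', h.cz, h.nbP, hW.len] at h2
    obtain ⟨⟨hα, h0⟩, hlt⟩ := h2
    replace hα : c0 n < α := hα
    replace h0 : vV p n v ≠ 0 := fun e => Bool.eq_false_iff.1 h0 ((isz_iff h.hp h.d1 v).2 e)
    have hvB : vV p n v ∈ Vb (lab n x.1) α := ((h.blkP hl α).mem _).2 ⟨v, hv, rfl⟩
    have hle : orb (alL p n x) (vV p n v) ≤ Vb (lab n x.1) α := fun w hw => by
      obtain ⟨b, hb, rfl⟩ := mem_orb.1 hw
      exact (hB.dg b hb).mulVec_mem hvB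
    have hpos : 0 < finrank (ZMod p) (orb (alL p n x) (vV p n v)) :=
      Nat.pos_of_ne_zero fun e => h0 (by
        have h1 : vV p n v ∈ orb (alL p n x) (vV p n v) :=
          mem_orb.2 ⟨1, hB.one, Matrix.one_mulVec _⟩
        rwa [Submodule.finrank_eq_zero.1 e, Submodule.mem_bot] at h1)
    have hA := mkgA h hMKG hl hα hW hle
    have hc : lab n (cutP c x.1 α.val (orbP c x.2.2 v).length) =
        cutL (lab n x.1) α (finrank (ZMod p) (orb (alL p n x) (vV p n v))) := by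
      rw [h.cutP hl, hW.len]
    have hc' : lab n (spLft c x (α.val, v)).1 = _ := hc
    obtain ⟨c1, c2, c3, -, -⟩ := hCUT _ α _ hl hα hpos hlt
    have href : Ref (lab n x.1) (alL p n x) (lab n (spLft c x (α.val, v)).1)
        (mV p n (mkg c x.1 α.val (orbP c x.2.2 v))) (alL p n (spLft c x (α.val, v))) := by
      refine ⟨hc' ▸ c1, hc' ▸ c2, hA.par, hA.dg, fun b hb => ?_, ?_⟩
      · rw [hc']
        exact hSPL _ α _ _ _ _ b hl hα hle hle hpos hlt rfl hA hA (hB.dg b hb) (orb_stab hB hb)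
          (orb_stab hB (hB.star b hb))
      · rw [← lr_eq]
        exact h.conjP _ _ _ _
    have hφ := f.phi
    have y3 : sp (mat p n) y.2 = (alL p n x).map _ := f.eq
    have e1 : mV p n (spRgt c x (α.val, v) y).1 = _ := h.mmul _ _
    have e2 : mV p n (spLft c x (α.val, v)).2.1 = _ := h.mmul _ _
    have e3 : st (mV p n (spRgt c x (α.val, v) y).1) * z * mV p n (spLft c x (α.val, v)).2.1 =
        st (mV p n (mkg c x.1 α.val (orbP c y.2 v))) * (st (mV p n y.1) * z * mV p n x.2.1) *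
          mV p n (mkg c x.1 α.val (orbP c x.2.2 v)) := by
      rw [e1, e2, st_mul]
      simp only [mul_assoc]
    generalize st (mV p n y.1) * z * mV p n x.2.1 = φ at hφ y3 e3
    have hf := (hφ.gr hl).2.1
    have hW' : Bas (vec p n) (2 * n + 1) (orbP c y.2 v)
        ((orb (alL p n x) (vV p n v)).map (gr (lab n x.1) φ).mulVecLin) := by
      rw [← orb_lm, ← y3]
      exact h.orbP _ _
    have hle' : (orb (alL p n x) (vV p n v)).map (gr (lab n x.1) φ).mulVecLin ≤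
        Vb (lab n x.1) α := by
      rintro _ ⟨w, hw, rfl⟩
      exact (dg_gr φ).mulVec_mem (hle hw)
    have hA' := mkgA h hMKG hl hα hW' hle'
    have ht := hSPL _ α _ _ _ _ (gr (lab n x.1) φ) hl hα hle hle' hpos hlt (fin_map hf _) hA hA'
      (dg_gr φ) (fun w hw => ⟨w, hw, rfl⟩) (by
        rintro _ ⟨w, hw, rfl⟩
        rwa [Matrix.mulVecLin_apply, hf.st_mulVec])
    obtain ⟨i1, i2⟩ := hINV _ _ _ _ _ _ φ hl href hφ hA'.par hA'.dg (hc' ▸ ht)
    refine Or.inr ⟨_, _, hs, ⟨?_, e1 ▸ f.par.mul hA'.par.l0, e3 ▸ i1, ?_⟩, hc' ▸ c3⟩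
    · rw [e2]
      exact (hREF _ _ hℓ hA0).2.2.1 _ _ _ _ _ _ f.ref href
    · rw [e3]
      refine Eq.trans ?_ i2
      rw [← y3]
      exact h.conjP _ _ _ _

theorem main (h : Ok p n c) (hCUT : PG.S_CUT n) (hSPL : PG.S_SPL p n) (hMKG : PG.S_MKG p n)
    (hREF : PG.S_REF p n) (hINV : PG.S_INV p n) {ℓ : Ix n → ℕ} {A : Sub p n} {z : Mat p n}
    (hℓ : Lab ℓ) (hA0 : Alg ℓ A) (u : U) : ∀ (x : Lt) (y : Rt), Fr2 p n ℓ A z x y →
    2 * n + 1 < u.length + nblk (lab n x.1) →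
    ∃ x' y', u.foldl (fun z _ => split c z) (x, [y]) = (x', [y']) ∧ Fr2 p n ℓ A z x' y' ∧
      Str (lab n x'.1) (sp (mat p n) x'.2.2) := by
  induction u with
  | nil =>
    intro x _ _ hk
    have : nblk (lab n x.1) ≤ 2 * n + 1 := (Finset.card_filter_le _ _).trans (by simp)
    simp only [List.length_nil] at hk
    omega
  | cons a u ih =>
    intro x y f hk
    rcases step h hCUT hSPL hMKG hREF hINV hℓ hA0 f with ⟨hs, e⟩ | ⟨x', y', e, f', h1⟩
    · exact ⟨x, y, QRefy.fix c _ e, f, f.ref.lab, (hREF _ _ hℓ hA0).2.1 _ _ _ f.ref, hs⟩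
    · rw [List.foldl_cons, e]
      exact ih x' y' f' (by rw [List.length_cons] at hk; omega)

end TREF2

theorem s_REF2 (p n : ℕ) [Fact p.Prime] (hCUT : PG.S_CUT n) (hSPL : PG.S_SPL p n)
    (hMKG : PG.S_MKG p n) (hREF : PG.S_REF p n) (hINV : PG.S_INV p n) : S_REF2 p n := by
  intro c l A X z h hl hA hz hX
  have e : st (mV p n (oneP c)) * z * mV p n (oneP c) = z := by
    rw [h.oneP, st_one, one_mul, mul_one]
  refine TREF2.main h hCUT hSPL hMKG hREF hINV hl hA _ _ _ ⟨?_, ?_, ?_, ?_⟩ ?_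
  · show Ref _ _ (lab n l) (mV p n (oneP c)) (sp (mat p n) A)
    rw [h.oneP]
    exact (hREF _ _ hl hA).1
  · show Par _ (mV p n (oneP c))
    rw [h.oneP]
    exact Par.one
  · show Par (lab n l) (st (mV p n (oneP c)) * z * mV p n (oneP c))
    rw [e]
    exact hz.par
  · show sp (mat p n) X = (sp (mat p n) A).map
      (lm (gr (lab n l) (st (mV p n (oneP c)) * z * mV p n (oneP c))))
    rw [e, hz.dg.gr_eq]
    exact hX
  · rw [h.len1]
    exact Nat.lt_add_of_pos_right (Finset.card_pos.2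
      ⟨0, Finset.mem_filter.2 ⟨Finset.mem_univ _, Nat.le_zero.1 (hl.le 0)⟩⟩)

end Pool.Agent.P.MP_f1a348_lc.UP.GF
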