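import Pool.Agent.P.MP_f1a348_lc.GF.Iface

/-! The whole tower. -/

namespace Pool.Agent.P.MP_f1a348_lc.UP.GF

open Matrix Module Pool.Agent.P.MP_f1a348_lc.PG

namespace TTOW

variable {p n : ℕ} [Fact p.Prime] {ℓ : Ix n → ℕ} {A B X : Sub p n} {φ : Mat p n} {k : ℕ}

/-- the invariant -/
def J (ℓ : Ix n → ℕ) (A X : Sub p n) (k : ℕ) (s : V × List V) : Prop :=
  Iv ℓ A X (k + 1) (gD p n s.1) (gS p n s.2) ∧ Vd p n s.1 ∧ ∀ g ∈ s.2, Vd p n g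

omit [Fact p.Prime] in
theorem u1_par (hl : Lab ℓ) {Y : Sub p n} (hd : ∀ x ∈ Y, Dg ℓ x) {y : Mat p n} (h : U1 Y y) :
    Par ℓ y := ⟨(hd y h.1).tri hl, h.2.1, h.2.2⟩

theorem sup_of_gr (h : Set1 ℓ A B X φ) {a y : Mat p n} (ha : a ∈ A)
    (e : gr ℓ φ * gr ℓ a = y) : y ∈ X ⊔ Tk ℓ 1 := by
  refine mem_sup_tk.2 ⟨φ * a, h.mem.2 ⟨a, ha, rfl⟩, ?_⟩
  rw [← e, ← gr_mul h.par.1 (h.tri a ha), ← neg_sub]
  exact neg_mem (sub_gr_mem h.lab (h.par.1.mul (h.tri a ha)))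

theorem clo {L : List V} (hv : ∀ g ∈ L, Vd p n g) {z : Mat p n}
    (hz : z ∈ Submonoid.closure {x | ∃ g ∈ L, mV p n g = x}) : ∃ u ∈ gS p n L, u.1 = z := by
  induction hz using Submonoid.closure_induction with
  | mem x hx =>
    obtain ⟨g, hg, rfl⟩ := hx
    exact ⟨_, mem_gS hg, (hv g hg).symm⟩
  | one => exact ⟨1, one_mem _, rfl⟩
  | mul x y _ _ hx hy =>
    obtain ⟨u, hu, rfl⟩ := hx
    obtain ⟨v, hv', rfl⟩ := hy
    exact ⟨u * v, mul_mem hu hv', rfl⟩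

theorem clo' {L : List V} (hv : ∀ g ∈ L, Vd p n g) {u : GG p n} (hu : u ∈ gS p n L) :
    u.1 ∈ Submonoid.closure {x | ∃ g ∈ L, mV p n g = x} :=
  (gS_le (Z := sg (fun g : GG p n => g.1 ∈ Submonoid.closure {x | ∃ g ∈ L, mV p n g = x})
    (one_mem _) fun _ _ ha hb => mul_mem ha hb)).2
    (fun x hx => Submonoid.subset_closure ⟨x, hx, hv x hx⟩) hu

theorem top (hl : Lab ℓ) (hk : 2 * (2 * n + 1) ≤ k) {g : Mat p n} (hg : g ∈ X ⊔ Tk ℓ k) :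
    g ∈ X := by
  obtain ⟨x, hx, e⟩ := mem_sup_tk.1 hg
  rwa [sub_eq_zero.1 (tk_top hl hk e)]

theorem start (hWQ : S_WQ p n) (hFU : S_FU p n) (hGU : S_GU p n) {c : Cx} {l : V}
    {B Y : List V} (hc : Ok p n c) (h : Set1 (lab n l) A (sp (mat p n) B) X φ)
    (hQ : Q0 (sp (mat p n) B))
    (hY : sp (mat p n) Y = (sp (mat p n) B).map (lm (gr (lab n l) φ))) :
    J (lab n l) A X 0 ((findU c l Y).getD [], genP c l B) := by
  have hf := h.par.lev h.lab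
  obtain ⟨wB, wY⟩ := hWQ _ _ h.str hQ
  have wY := hY ▸ wY _ hf
  have dY : ∀ x ∈ sp (mat p n) Y, Dg (lab n l) x := by
    rw [hY]
    rintro _ ⟨b, hb, rfl⟩
    exact hf.dg.mul (h.str.alg.dg b hb)
  obtain ⟨f1, f2, -⟩ := hFU c l Y hc h.lab dY
  obtain ⟨y, hy⟩ := Option.isSome_iff_exists.1 (f2 wY ⟨_, by
    rw [hY]; exact ⟨1, h.str.alg.one, mul_one _⟩, hf.par.2⟩)
  have uy := f1 y hy
  have vy : Vd p n y := vd_par (u1_par h.lab dY uy).l0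
  obtain ⟨g1, g2⟩ := hGU c l B hc h.lab h.str.alg wB
  have vg : ∀ g ∈ genP c l B, Vd p n g := fun g hg =>
    vd_par (u1_par h.lab h.str.alg.dg (g1 g hg)).l0
  rw [hy]
  refine ⟨⟨?_, fun g hg => (gS_le (Z := Yk h 1)).2 (fun x hx => ?_) hg, fun z hz => ?_⟩, vy, vg⟩
  · have m := uy.1
    rw [hY] at m
    obtain ⟨b, hb, e⟩ := m
    obtain ⟨a, ha, rfl⟩ := h.memB.1 hb
    exact sup_of_gr h ha (e.trans vy)
  · obtain ⟨a, ha, e⟩ := h.memB.1 (g1 x hx).1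
    exact sup_of_gr h.self ha (by rw [gr_one, one_mul, e]; exact vg x hx)
  · have tz := h.self.tri_sup hz
    have pz : Par (lab n l) z.1 := ⟨tz, z.2.2⟩
    obtain ⟨u, hu, e⟩ := clo vg (g2 _ ⟨h.gr_sup le_rfl hz, (pz.gr h.lab).2⟩)
    exact ⟨u, hu, e ▸ sub_gr_mem h.lab tz⟩

end TTOW

open TTOW in
theorem s_TOW (p n : ℕ) [Fact p.Prime] (hLVL : S_LVL p n) (hWQ : S_WQ p n) (hFU : S_FU p n)
    (hGU : S_GU p n) : S_TOW p n := by
  intro c l A B X Y φ hc h hQ hY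
  have key : ∀ k, J (lab n l) (sp (mat p n) A) (sp (mat p n) X) k
      ((List.range k).foldl (lvl c l A X B) ((findU c l Y).getD [], genP c l B)) := by
    intro k
    induction k with
    | zero => exact start hWQ hFU hGU hc h hQ hY
    | succ k ih =>
      rw [List.range_succ, List.foldl_append, List.foldl_cons, List.foldl_nil]
      refine ⟨hLVL c l A B X φ k _ hc h ih.1, vd_of (hc.gmul _ _), fun g hg => ?_⟩
      obtain ⟨x, -, rfl⟩ := List.mem_map.1 hg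
      exact vd_of (hc.nrm x)
  have e : J (lab n l) (sp (mat p n) A) (sp (mat p n) X) (2 * (2 * n + 1)) (tow c l A X B Y) := by
    rw [tow, ran_eq, hc.lenh]; exact key _
  obtain ⟨i, v1, v2⟩ := e
  refine ⟨?_, fun g hg => ?_, fun z hz => ?_⟩
  · rw [v1]
    exact ⟨top h.lab (Nat.le_succ _) i.mem, (gD p n _).2.2⟩
  · rw [v2 g hg]
    exact ⟨top h.lab (Nat.le_succ _) (i.le _ (mem_gS hg)), (gD p n _).2.2⟩
  · obtain ⟨u, hu, e⟩ := i.cov ⟨z, (u1_par lab_l0 h.sa.dg hz)⟩ (Submodule.mem_sup_left hz.1)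
    have := sub_eq_zero.1 (tk_top h.lab (Nat.le_succ _) e)
    exact (show z = u.1 from this) ▸ clo' v2 hu

end Pool.Agent.P.MP_f1a348_lc.UP.GF
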