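import Pool.Agent.P.MP_f1a348_lc.GF.Iface

/-!
Project GF, task TST: the tests of one level.
-/

namespace Pool.Agent.P.MP_f1a348_lc.UP.GF

open Matrix Module Pool.Agent.P.MP_f1a348_lc.PG

set_option linter.unusedSectionVars false

namespace TTST

variable {p n : ℕ} [Fact p.Prime] {c : Cx} {ℓ : Ix n → ℕ} {A : Sub p n} {B X T L : List V}
  {φ : Mat p n} {k : ℕ}

/-- the functional of the test `i` -/
noncomputable def psi (p n : ℕ) (c : Cx) (L : List V) (i : ℕ) : Mat p n →ₗ[ZMod p] ZMod p :=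
  dotM (mV p n (L.getD (i / mM c) []))

/-- the right ideal of the test `i` -/
noncomputable def JJ (B : Sub p n) (i : ℕ) : Sub p n := NS B (Pi.single (ixD n i) 1)

theorem ns_le (B : Sub p n) (x : Vec p n) : NS B x ≤ B := fun _ h => h.1

theorem psi_van {R : Sub p n} (hL : ∀ M, M ∈ R ↔ ∀ a ∈ L, dotM (mV p n a) M = 0) (i : ℕ) :
    ∀ r ∈ R, psi p n c L i r = 0 := fun r hr => by
  rw [psi]
  by_cases e : i / mM c < L.length
  · rw [List.getD_eq_getElem _ _ e]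
    exact (hL r).1 hr _ (List.getElem_mem e)
  · rw [List.getD_eq_default _ _ (not_lt.1 e), mV, dv_nil]
    simp [dotM_apply]

theorem kp_val (hSOL : S_SOL p n) (h : Ok p n c) (hT : sp (mat p n) T = Tk ℓ k) {x : V}
    {g : Mat p n} (e : mV p n x = g) (hg : g ∈ sp (mat p n) X ⊔ Tk ℓ k) :
    ∃ x0 ∈ sp (mat p n) X, g - x0 ∈ Tk ℓ k ∧ mV p n (kp c X T x) = 1 - st g * x0 := by
  obtain ⟨x0, hx0, hd⟩ := mem_sup_tk.1 hg
  obtain ⟨h1, h2⟩ := hSOL c X (nv c (u2 c)) LinearMap.id x T h h.nv2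
    ⟨x0, hx0, by rw [hT, e]; simpa using neg_mem hd⟩
  refine ⟨_, h1, ?_, ?_⟩
  · rw [hT, e] at h2
    simpa using neg_mem h2
  · have e1 : ∀ a b : V, mV p n (vsub c (u2 c) a b) = mV p n a - mV p n b := dv_vsub h.hp h.d2
    rw [kp, e1, h.oneP, h.mmul, h.mstar, e]

theorem tst_iff (hPS : S_PS p n) (hSOL : S_SOL p n) (hANN : S_ANN p n) (h : Ok p n c)
    (hs : Set1 ℓ A (sp (mat p n) B) (sp (mat p n) X) φ) (hk : 1 ≤ k)
    (hT : sp (mat p n) T = Tk ℓ k) (hL : ∀ M, M ∈ Rk ℓ A k ↔ ∀ a ∈ L, dotM (mV p n a) M = 0)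
    (i : ℕ) {x : V} {g : Mat p n} (hu : Un g) (e : mV p n x = g)
    (hg : g ∈ sp (mat p n) X ⊔ Tk ℓ k) :
    tst c B L X T i x = true ↔
      Ps ℓ (sp (mat p n) X) k (psi p n c L i) (JJ (sp (mat p n) B) i) g := by
  obtain ⟨x0, hx0, hd, ek⟩ := kp_val hSOL h hT e hg
  obtain ⟨hdot, -, -, hb⟩ := hANN c B h
  have hsp := (hb (unit c (u1 c) (i % mM c))).sp
  rw [sp_eq_span] at hsp
  have e1 : vV p n (unit c (u1 c) (i % mM c)) = Pi.single (ixD n i) 1 := by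
    rw [h.mod_ix, h.unit1]
  rw [e1] at hsp
  rw [((((hPS ℓ A _ _ φ k hs hk).1 (psi p n c L i) (JJ _ i) (psi_van hL i) (ns_le _ _)).1 g x0 hu
    hx0 hd).2 _ hsp), tst, tstQ, List.all_eq_true]
  simp only [mod_eq_zero_iff h.hp, hdot, h.cjP, ek]
  exact ⟨by rintro H _ ⟨b, hb, rfl⟩; exact H b hb, fun H b hb => H _ ⟨b, hb, rfl⟩⟩

theorem last (hPS : S_PS p n) (hNNL : S_NNL p n) (h : Ok p n c) {B X : Sub p n}
    (hs : Set1 ℓ A B X φ) (hk : 1 ≤ k) (hlen : L.length ≤ (2 * n + 1) * (2 * n + 1))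
    (hL : ∀ M, M ∈ Rk ℓ A k ↔ ∀ a ∈ L, dotM (mV p n a) M = 0) {g : Mat p n} (hu : Un g)
    (hP : ∀ i ∈ ran (u3 c), Ps ℓ X k (psi p n c L i) (JJ B i) g) :
    ∃ x ∈ X, g - x ∈ Tk ℓ k ∧ 1 - st g * x ∈ Rk ℓ A k := by
  obtain ⟨x, hx, hd, -⟩ := hP 0 (mem_ran.2 (by rw [h.len3, top]; positivity))
  refine ⟨x, hx, hd, (hPS ℓ A B X φ k hs hk).2 {ψ | ∃ a ∈ L, dotM (mV p n a) = ψ}
    (fun j => NS B (Pi.single j 1)) (fun M => (hL M).trans ?_) (fun j => ns_le _ _)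
    (hNNL ℓ B hs.str).2 g x hu hx hd ?_⟩
  · exact ⟨by rintro H _ ⟨a, ha, rfl⟩; exact H a ha, fun H a ha => H _ ⟨a, ha, rfl⟩⟩
  · rintro _ ⟨a, ha, rfl⟩ j
    obtain ⟨r, hr, rfl⟩ := List.mem_iff_getElem.1 ha
    have := hP (r * (2 * n + 1) + j.val) (mem_ran.2 (by
      rw [h.len3, top]
      have := j.2
      nlinarith))
    have e : ixD n (r * (2 * n + 1) + j.val) = j := Fin.ext (mod_enc r j)
    rwa [psi, JJ, h.hM, div_enc, e, List.getD_eq_getElem _ _ hr] at this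

end TTST

open TTST in
theorem s_TST (p n : ℕ) [Fact p.Prime] (hKAP : S_KAP p n) (hPS : S_PS p n) (hNNL : S_NNL p n)
    (hSOL : S_SOL p n) (hANN : S_ANN p n) (hQSUBS : S_QSUBS p n) (hQCOS : S_QCOS p n) :
    S_TST p n := by
  intro c l A B X T L φ k y S h hs hk hT hlen hL iv
  have H := fun i => (hPS _ _ _ _ φ k hs hk).1 (psi p n c L i) (JJ _ i) (psi_van hL i) (ns_le _ _)
  have HA := fun i =>
    (hPS _ _ _ _ 1 k hs.self hk).1 (psi p n c L i) (JJ _ i) (psi_van hL i) (ns_le _ _)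
  choose Q hQ1 hQ2 hQ3 using fun i => (H i).2 fun b hb a ha =>
    ⟨(hs.str.alg.mul b hb.1 a ha : b * a ∈ sp (mat p n) B), fun a' h1 h2 => by
      rw [← mul_assoc, hb.2 a' h1 h2, zero_mul]⟩
  have hT1 : ∀ i, Tst (tst c B L A T i) (gS p n S) (· ∈ Q i) := fun i x g hg e =>
    (tst_iff hPS hSOL hANN h hs.self hk hT hL i g.2.2.1 e (iv.le g hg)).trans (hQ1 i g).symm
  have hI : ∀ i, (Q i).relIndex (gS p n S) ≤ c.2.2.length := fun i =>
    (hQ2 i _ iv.le).trans (h.pow_le' (((hNNL _ _ hs.str).1 _).trans (by omega)))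
  constructor
  · intro g
    rw [hQSUBS c _ _ S Q h (chn_of fun i _ => ⟨hT1 i, hI i⟩) g]
    refine and_congr_right fun _ => ⟨fun hg => TTST.last hPS hNNL h hs.self hk hlen hL g.2.2.1
      fun i hi => (hQ1 i g).1 (hg i hi), ?_⟩
    rintro ⟨a, ha, hd, hr⟩ i -
    exact (hQ1 i g).2 (((HA i).1 g.1 a g.2.2.1 ha hd).1 hr)
  obtain ⟨v, -, hc⟩ := hQCOS c (tst c B L A T) (tst c B L X T) (ran (u3 c)) y S h
  refine ⟨_, v, TTST.last hPS hNNL h hs hk hlen hL (gD p n _).2.2.1 (hc Q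
    (fun i g => Ps (lab n l) (sp (mat p n) X) k (psi p n c L i) (JJ (sp (mat p n) B) i) g.1)
    (fun i _ => ⟨hT1 i, hI i, fun x u hu e => tst_iff hPS hSOL hANN h hs hk hT hL i
      (gD p n y * u).2.2.1 e (hs.mul_sup iv.mem (iv.le u hu)),
      fun u _ hP w hw => hQ3 i _ w hP (iv.le w hw)⟩) ?_)⟩
  obtain ⟨u, hu, hd⟩ := iv.cov ((gD p n y)⁻¹ * ⟨φ, hs.par.l0⟩)
    (hs.quo_sup iv.mem (Submodule.mem_sup_left hs.phi))
  have hy : Un (gD p n y).1 := (gD p n y).2.2.1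
  have hyu : Un (gD p n y * u).1 := (gD p n y * u).2.2.1
  have h1 : (gD p n y * u).1 - φ ∈ Tk (lab n l) k := by
    have := neg_mem (tk_left hs.lab (hs.tri_sup iv.mem) hd)
    rwa [val_mul, val_inv, mul_sub, ← mul_assoc, hy.mul_st, one_mul, neg_sub] at this
  have h2 : st (gD p n y * u).1 * φ - 1 ∈ Tk (lab n l) k := by
    have := neg_mem (tk_left hs.lab
      ((hs.tri_sup (hs.mul_sup iv.mem (iv.le u hu))).st hs.lab) h1)
    rwa [← val_mul, mul_sub, hyu.st_mul, neg_sub] at this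
  refine ⟨u, hu, fun i _ => ((H i).1 _ φ hyu hs.phi h1).1 ?_⟩
  simpa using neg_mem (un_mem_rk (A := sp (mat p n) A) hs.lab hk (hyu.star.mul hs.par.2.1) h2)

end Pool.Agent.P.MP_f1a348_lc.UP.GF
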