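import Pool.Agent.P.MP_f1a348_lc.PG.Struct

/-! The theorem of Witt for an algebra with simple blocks in which norms are traces. -/

namespace Pool.Agent.P.MP_f1a348_lc.GF

open Matrix Module Pool.Agent.P.MP_f1a348_lc.PG

set_option linter.unusedSectionVars false

variable {p n : ℕ} {ℓ : Ix n → ℕ} {B : Sub p n}

/-- norms of elements with central entry zero are traces -/
def QZ (B : Sub p n) : Prop :=
  ∀ a ∈ B, a (c0 n) (c0 n) = 0 → ∃ t ∈ B, st a * a = t + st t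

namespace WQx

theorem alg1 {A : Type} [Ring A] {r s t u : A} (h1 : r * r = r) (h2 : s * s = s) (h3 : s * r = 0)
    (h4 : r * s = t + u) :
    (r - r * t * s) * (r - r * t * s) = r - r * t * s ∧ (r - r * t * s) * (s - r * u * s) = 0 ∧
    (s - r * u * s) * (r - r * t * s) = 0 := by
  refine ⟨?_, ?_, ?_⟩
  · linear_combination (norm := noncomm_ring) h1 - h1 * t * s - r * t * h3 + r * t * h3 * t * s
  · linear_combination (norm := noncomm_ring) -(h1 * s) - r * h2 - h1 * s * s + h1 * s + r * h2 +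
      r * h4 * s - h1 * u * s - r * t * h2 + r * t * h3 * u * s - r * h2
  · linear_combination (norm := noncomm_ring) h3 - h3 * t * s - r * u * h3 + r * u * h3 * t * s

theorem alg2 {A : Type} [Ring A] {a b c d : A} (h1 : a * a = 0) (h2 : b * b = 0) (h3 : b * a = 0)
    (h4 : c + d = a * b) (h5 : a * c = 0) (h6 : b * c = 0) (h7 : d * a = 0) (h8 : d * b = 0)
    (h9 : d * c = 0) : (1 + b - a - d) * (1 + a - b - c) = 1 := by
  linear_combination (norm := noncomm_ring) -h1 - h2 + h3 - h4 + h5 - h6 - h7 + h8 + h9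

theorem alg3 {A : Type} [Ring A] {π σ b c : A} (h1 : π * π = π) (h2 : σ * σ = σ) (h3 : π * σ = 0)
    (h4 : σ * π = 0) (h5 : π * (b * π) = b * π) (h6 : σ * c * σ = σ * c) (h7 : c * (b * π) = π)
    (h8 : σ * c * b = σ) :
    (1 - σ - π + σ * c + π * c * π) * (1 - π - σ + b * π + σ * b * σ) = 1 := by
  have e1 : σ * (b * π) = 0 := by rw [← h5, ← mul_assoc, h4, zero_mul]
  have e2 : σ * c * π = 0 := by rw [← h6, mul_assoc, h4, mul_zero]
  have e3 : σ * c * (b * π) = 0 := by rw [mul_assoc, h7, h4]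
  have e4 : σ * c * (σ * b * σ) = σ := by
    rw [← mul_assoc, ← mul_assoc, h6, h8, h2]
  have e5 : π * c * π * (b * π) = π := by rw [mul_assoc, h5, mul_assoc, h7, h1]
  linear_combination (norm := noncomm_ring) h1 + h2 + h3 + h4 - e1 - h2 * b * σ - h5 -
    h3 * b * σ - e2 - h6 + e3 + e4 - π * c * h1 - π * c * h3 + e5 + π * c * h3 * b * σ

variable [Fact p.Prime]

theorem orb_c0 (h : Str ℓ B) {a : Ix n} (ht : ¬ Triv ℓ B a) {v x : Vec p n} (hv : v ∈ Vb ℓ a)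
    (hx : x ∈ orb (Com B) v) : x (c0 n) = 0 := by
  obtain ⟨C, hC, rfl⟩ := mem_orb.1 hx
  have h1 := cb_of_com h.alg hC (c0 n) a
  rw [cb_eq_bot h (triv_c0 h.alg) ht, Submodule.mem_bot] at h1
  have h2 := congrFun (cb_comp (C := C) (c0 n) hv) (c0 n)
  rw [h1, Matrix.zero_mulVec, pr_mulVec, if_pos rfl] at h2
  exact h2.symm

theorem chi0 (h : Str ℓ B) {a : Ix n} (ht : ¬ Triv ℓ B a) {v : Vec p n} (hv : v ∈ Vb ℓ a)
    {g : Mat p n} (hg : ∀ x, g *ᵥ x ∈ orb (Com B) v) : g (c0 n) (c0 n) = 0 := by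
  have := orb_c0 h ht hv (hg e0)
  simpa [e0] using this

theorem st_kill {W : VS p n} {g : Mat p n} (hg : ∀ x, g *ᵥ x ∈ W) {y : Vec p n}
    (hy : y ∈ perp W) : st g *ᵥ y = 0 :=
  ip_nondeg fun z => by rw [← ip_mulVec_right, ip_comm]; exact hy _ (hg z)

theorem mul_zero_of {W : VS p n} {f g : Mat p n} (hg : ∀ x, g *ᵥ x ∈ W)
    (hf : ∀ w ∈ W, f *ᵥ w = 0) : f * g = 0 :=
  mat_ext fun x => by rw [← Matrix.mulVec_mulVec, hf _ (hg x), Matrix.zero_mulVec]

theorem on_orb {f g : Mat p n} (hf : f ∈ B) (hg : g ∈ B) {v : Vec p n} (e : f *ᵥ v = g *ᵥ v) :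
    ∀ w ∈ orb (Com B) v, f *ᵥ w = g *ᵥ w := by
  intro w hw
  obtain ⟨C, hC, rfl⟩ := mem_orb.1 hw
  rw [← com_mulVec hC hf, ← com_mulVec hC hg, e]

theorem move (h : Str ℓ B) {W : VS p n} (hW : Stab B W) {a : Ix n} {u v : Vec p n}
    (hu : u ∈ Vb ℓ a) (hn : u ∉ W) (hv : v ∈ Vb ℓ a) :
    ∃ c ∈ B, c *ᵥ u = v ∧ (∀ w ∈ W, c *ᵥ w = 0) ∧ ∀ x, c *ᵥ x ∈ orb (Com B) v := by
  obtain ⟨ρ, hρ, _, a2, a3, a4⟩ := proj h hW hu hn
  obtain ⟨c, hc, e⟩ := h.sim a u hu (fun e => hn (e ▸ zero_mem _)) v hv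
  refine ⟨c * ρ, h.alg.mul _ hc _ hρ, by rw [← Matrix.mulVec_mulVec, a2, e], fun w hw => by
    rw [← Matrix.mulVec_mulVec, a3 w hw, Matrix.mulVec_zero], fun x => ?_⟩
  obtain ⟨C, hC, e2⟩ := mem_orb.1 (a4 ⟨x, rfl⟩)
  refine mem_orb.2 ⟨C, hC, ?_⟩
  rw [← Matrix.mulVec_mulVec, show ρ *ᵥ x = C *ᵥ u from e2.symm, ← com_mulVec hC hc, e]

end WQx

open WQx

variable [Fact p.Prime]

/-- an isotropic idempotent through an isotropic vector -/
theorem sepq (h : Str ℓ B) (hq : QZ B) {W : VS p n} (hW : Stab B W) {a : Ix n} {y : Vec p n}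
    (ht : ¬ Triv ℓ B a) (hy : y ∈ Vb ℓ a) (hi : Isot B y) (hp : y ∈ perp W) (hn : y ∉ W) :
    ∃ π ∈ B, Iso π ∧ π *ᵥ y = y ∧ (∀ w ∈ W, π *ᵥ w = 0 ∧ st π *ᵥ w = 0) ∧
      ∀ x, π *ᵥ x ∈ orb (Com B) y := by
  obtain ⟨ρ, r1, r2, r3, r4, r5⟩ := proj h hW hy hn
  have r6 : ∀ x, ρ *ᵥ x ∈ orb (Com B) y := fun x => r5 ⟨x, rfl⟩
  have hO : orb (Com B) y ≤ perp (orb (Com B) y) :=
    ((stab_orb y).perp h.alg).orb_le (isot_iff.1 hi)
  have s1 : st ρ * ρ = 0 := mul_zero_of r6 fun w hw => st_kill r6 (hO hw)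
  have s2 : ∀ w ∈ W, st ρ *ᵥ w = 0 := fun w hw => st_kill r6 fun v hv => by
    rw [ip_comm]; exact (hW.perp h.alg).orb_le hp hv w hw
  have s3 : st ρ *ᵥ y = 0 := st_kill r6 (isot_iff.1 hi)
  obtain ⟨t, t1, t2⟩ := hq (st ρ) (h.alg.star _ r1)
    (by rw [st_apply, rev_c0]; exact chi0 h ht hy r6)
  rw [st_st] at t2
  obtain ⟨a1, a2, a3⟩ := alg1 r2 (by rw [← st_mul, r2]) s1 t2
  have e : st (ρ - ρ * t * st ρ) = st ρ - ρ * st t * st ρ := by
    rw [st_sub, st_mul, st_mul, st_st, mul_assoc]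
  refine ⟨ρ - ρ * t * st ρ, sub_mem r1 (h.alg.mul _ (h.alg.mul _ r1 _ t1) _ (h.alg.star _ r1)),
    ⟨a1, by rw [e, a2], by rw [e, a3]⟩, ?_, fun w hw => ⟨?_, ?_⟩, fun x => ?_⟩
  · rw [Matrix.sub_mulVec, ← Matrix.mulVec_mulVec, s3, Matrix.mulVec_zero, sub_zero, r3]
  · rw [Matrix.sub_mulVec, ← Matrix.mulVec_mulVec, s2 w hw, Matrix.mulVec_zero, sub_zero, r4 w hw]
  · rw [e, Matrix.sub_mulVec, ← Matrix.mulVec_mulVec, s2 w hw, Matrix.mulVec_zero, sub_zero]
  · rw [Matrix.sub_mulVec, mul_assoc, ← Matrix.mulVec_mulVec]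
    exact sub_mem (r6 _) (r6 _)

theorem wq_step (h : Str ℓ B) (hq : QZ B) {b : Mat p n} (hb : b ∈ B) (hc : b (c0 n) (c0 n) = 1)
    {W : VS p n} (hW : Stab B W) (h1 : ∀ w ∈ W, b *ᵥ w = w) (h2 : ∀ w ∈ W, st b *ᵥ w = w)
    {a : Ix n} {u : Vec p n} (hu : u ∈ Vb ℓ a) (h3 : st b *ᵥ (b *ᵥ u) = u) (hn : u ∉ W) :
    ∃ w ∈ B, Un w ∧ w (c0 n) (c0 n) = 1 ∧ w *ᵥ u = b *ᵥ u ∧ ∀ x ∈ W, w *ᵥ x = x := by
  by_cases ht : Triv ℓ B a
  · exact ⟨1, h.alg.one, Un.one, Matrix.one_apply_eq _,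
      by rw [triv_act h ht hu hb, hc, one_smul, Matrix.one_mulVec], fun x _ => Matrix.one_mulVec x⟩
  have hs := h.alg.star b hb
  obtain ⟨v, hv⟩ : ∃ v, b *ᵥ u = u + v := ⟨b *ᵥ u - u, by abel⟩
  have v1 : v ∈ Vb ℓ a := by
    have := sub_mem ((h.alg.dg b hb).mulVec_mem hu) hu
    rwa [hv, add_sub_cancel_left] at this
  have v2 : v ∈ perp W := fun w hw => by
    have := ip_mulVec_right b w u
    rwa [hv, h2 w hw, ip_add_right, add_eq_left] at this
  have v3 : orb (Com B) v ≤ perp W := (hW.perp h.alg).orb_le v2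
  have v4 : ∀ w ∈ W, w ∈ perp (orb (Com B) v) := fun w hw x hx => by
    rw [ip_comm]; exact v3 hx w hw
  have key : ∀ C ∈ Com B, ip (C *ᵥ (u + v)) (u + v) = ip (C *ᵥ u) u := fun C hC => by
    rw [← hv, com_mulVec hC hb, ip_mulVec, h3]
  have hP := (stab_orb (B := B) v).perp h.alg
  by_cases c1 : u ∈ perp (orb (Com B) v)
  · have c2 := perp_orb_symm h.alg c1
    have hi : Isot B v := fun C hC => by
      have := key C hC
      rwa [Matrix.mulVec_add, ip_add_left, ip_add_right, ip_add_right, mem_perp_orb.1 c1 C hC,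
        mem_perp_orb.1 c2 C hC, add_zero, zero_add, add_eq_left] at this
    have hO : orb (Com B) v ≤ perp (orb (Com B) v) := hP.orb_le (isot_iff.1 hi)
    by_cases c3 : u ∈ W ⊔ orb (Com B) v
    · obtain ⟨m, hm, x, hx, e⟩ := Submodule.mem_sup.1 c3
      have n1 : v ∉ W := fun e' => hn (e ▸ add_mem hm (hW.orb_le e' hx))
      obtain ⟨π, p1, ⟨p2, p3, p4⟩, p5, p6, p7⟩ := sepq h hq hW ht v1 hi v2 n1
      have q1 := h.alg.star π p1
      have x0 : x ≠ 0 := fun e' => hn (by rw [← e, e', add_zero]; exact hm)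
      have x1 : b *ᵥ x = x + v := by
        have := hv
        rw [← e, Matrix.mulVec_add, h1 m hm, add_assoc] at this
        exact add_left_cancel this
      have x2 : st b *ᵥ (b *ᵥ x) = x := by
        have := h3
        rw [← e, Matrix.mulVec_add, h1 m hm, Matrix.mulVec_add, h2 m hm] at this
        exact add_left_cancel this
      have x3 : orb (Com B) v ≤ orb (Com B) x :=
        (stab_orb x).orb_le (mem_of_orb h (stab_orb x) v1 hx x0 (self_mem_orb x))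
      have x4 : ∀ y ∈ orb (Com B) v, π *ᵥ y = y := fun y hy => by
        rw [on_orb p1 h.alg.one (by rw [p5, Matrix.one_mulVec]) y hy, Matrix.one_mulVec]
      have x5 : π * (b * π) = b * π := mat_ext fun y => by
        rw [← Matrix.mulVec_mulVec, ← Matrix.mulVec_mulVec]
        obtain ⟨C, hC, e2⟩ := mem_orb.1 (x3 (p7 y))
        refine x4 _ ?_
        rw [← e2, ← com_mulVec hC hb, x1]
        exact stab_orb v C hC _ (add_mem hx (self_mem_orb v))
      have x6 : st b * (b * π) = π := mat_ext fun y => by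
        rw [← mul_assoc, ← Matrix.mulVec_mulVec,
          on_orb (h.alg.mul _ hs _ hb) h.alg.one (by rw [← Matrix.mulVec_mulVec, x2,
            Matrix.one_mulVec]) _ (x3 (p7 y)), Matrix.one_mulVec]
      have x7 : st π *ᵥ x = 0 := st_kill p7 (hO hx)
      have x8 := chi0 h ht v1 p7
      have tb := (h.alg.dg b hb).tri h.lab
      have tq := (h.alg.dg _ q1).tri h.lab
      refine ⟨1 - π - st π + b * π + st π * b * st π, add_mem (add_mem (sub_mem (sub_mem h.alg.one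
        p1) q1) (h.alg.mul _ hb _ p1)) (h.alg.mul _ (h.alg.mul _ q1 _ hb) _ q1), ?_, ?_, ?_,
        fun y hy => ?_⟩
      · have := alg3 (b := b) (c := st b) p2 (by rw [← st_mul, p2]) p3 p4 x5
          (by have := congrArg st x5; rwa [st_mul, st_mul] at this) x6
          (by have := congrArg st x6; rwa [st_mul, st_mul, st_st] at this)
        rw [Un, st_add, st_add, st_sub, st_sub, st_one, st_st, st_mul, st_mul, st_mul, st_st,
          ← mul_assoc]
        exact this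
      · rw [Matrix.add_apply, Matrix.add_apply, Matrix.sub_apply, Matrix.sub_apply, tb.mul_c0,
          (tq.mul tb).mul_c0, st_apply, rev_c0, x8, Matrix.one_apply_eq]
        ring
      · rw [← e, Matrix.mulVec_add b, h1 m hm]
        simp only [Matrix.add_mulVec, Matrix.sub_mulVec, Matrix.mulVec_add, Matrix.one_mulVec,
          ← Matrix.mulVec_mulVec, (p6 m hm).1, (p6 m hm).2, x4 x hx, x7, Matrix.mulVec_zero]
        abel
      · simp only [Matrix.add_mulVec, Matrix.sub_mulVec, Matrix.one_mulVec,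
          ← Matrix.mulVec_mulVec, (p6 y hy).1, (p6 y hy).2, Matrix.mulVec_zero, sub_zero, add_zero]
    · obtain ⟨c, k1, k2, k3, k4⟩ := move h (hW.sup (stab_orb v)) hu c3 v1
      by_cases v0 : v = 0
      · exact ⟨1, h.alg.one, Un.one, Matrix.one_apply_eq _,
          by rw [hv, v0, add_zero, Matrix.one_mulVec], fun x _ => Matrix.one_mulVec x⟩
      obtain ⟨π, p1, _, p3, _, p5⟩ := proj h stab_bot v1 (by rwa [Submodule.mem_bot])
      have p6 : ∀ x, π *ᵥ x ∈ orb (Com B) v := fun x => p5 ⟨x, rfl⟩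
      have k5 := chi0 h ht v1 k4
      obtain ⟨t, t1, t2⟩ := hq (st c) (h.alg.star _ k1) (by rw [st_apply, rev_c0, k5])
      rw [st_st] at t2
      have k6 : ∀ y ∈ orb (Com B) v, c *ᵥ y = 0 := fun y hy => k3 y (Submodule.mem_sup_right hy)
      have k7 : ∀ y ∈ orb (Com B) v, st c *ᵥ y = 0 := fun y hy => st_kill k4 (hO hy)
      have k8 : ∀ y ∈ orb (Com B) v, st π *ᵥ y = 0 := fun y hy => st_kill p6 (hO hy)
      have k9 : π * c = c := mat_ext fun y => by
        rw [← Matrix.mulVec_mulVec,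
          on_orb p1 h.alg.one (by rw [p3, Matrix.one_mulVec]) _ (k4 y), Matrix.one_mulVec]
      have z1 : c * π = 0 := mul_zero_of p6 k6
      have z2 : st c * π = 0 := mul_zero_of p6 k7
      have z3 : st π * π = 0 := mul_zero_of p6 k8
      have z4 : st π * c = 0 := mul_zero_of k4 k8
      have z5 : st π * st c = 0 := by rw [← st_mul, z1, st_zero]
      have z6 : ∀ x, (π * t * st π) *ᵥ x ∈ orb (Com B) v := fun x => by
        rw [mul_assoc, ← Matrix.mulVec_mulVec]; exact p6 _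
      refine ⟨1 + c - st c - π * t * st π, sub_mem (sub_mem (add_mem h.alg.one k1)
        (h.alg.star _ k1)) (h.alg.mul _ (h.alg.mul _ p1 _ t1) _ (h.alg.star _ p1)), ?_, ?_, ?_,
        fun y hy => ?_⟩
      · have := alg2 (a := c) (b := st c) (c := π * t * st π) (d := π * st t * st π)
          (mul_zero_of k4 k6) (by rw [← st_mul, mul_zero_of k4 k6, st_zero]) (mul_zero_of k4 k7)
          (by rw [← add_mul, ← mul_add, ← t2, ← mul_assoc, k9, mul_assoc, ← st_mul, k9])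
          (mul_zero_of z6 k6) (mul_zero_of z6 k7) (by rw [mul_assoc, z4, mul_zero])
          (by rw [mul_assoc, z5, mul_zero])
          (by rw [mul_assoc, mul_assoc π t, ← mul_assoc (st π), z3, zero_mul, mul_zero])
        rw [Un, st_sub, st_sub, st_add, st_one, st_st, st_mul, st_mul, st_st, ← mul_assoc]
        exact this
      · rw [Matrix.sub_apply, Matrix.sub_apply, Matrix.add_apply, st_apply, rev_c0, k5,
          chi0 h ht v1 z6, Matrix.one_apply_eq]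
        ring
      · simp only [Matrix.add_mulVec, Matrix.sub_mulVec, Matrix.one_mulVec,
          ← Matrix.mulVec_mulVec, k2, st_kill k4 c1, st_kill p6 c1, Matrix.mulVec_zero, sub_zero,
          hv]
      · simp only [Matrix.add_mulVec, Matrix.sub_mulVec, Matrix.one_mulVec,
          ← Matrix.mulVec_mulVec, k3 y (Submodule.mem_sup_left hy), st_kill k4 (v4 y hy),
          st_kill p6 (v4 y hy), Matrix.mulVec_zero, sub_zero, add_zero]
  · obtain ⟨c, k1, k2, k3, k4⟩ := move h hP hu c1 v1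
    have K : ∀ y ∈ orb (Com B) v, y ∈ perp (orb (Com B) u) → y = 0 := fun y a1 a2 => by
      by_contra a3
      exact c1 (perp_orb_symm h.alg (mem_of_orb h ((stab_orb u).perp h.alg) v1 a1 a3 a2))
    have w1 : 1 + c ∈ B := add_mem h.alg.one k1
    have w2 : (1 + c) *ᵥ u = u + v := by rw [Matrix.add_mulVec, Matrix.one_mulVec, k2]
    have w3 : ∀ y ∈ perp (orb (Com B) v), (1 + c) *ᵥ y = y ∧ st (1 + c) *ᵥ y = y := fun y hy => by
      rw [st_add, st_one, Matrix.add_mulVec, Matrix.add_mulVec, Matrix.one_mulVec, k3 y hy,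
        st_kill k4 hy, add_zero]
      exact ⟨rfl, rfl⟩
    have w4 : (1 + c) (c0 n) (c0 n) = 1 := by
      rw [Matrix.add_apply, chi0 h ht v1 k4, Matrix.one_apply_eq, add_zero]
    generalize 1 + c = w at w1 w2 w3 w4
    have w5 : ∀ y, st w *ᵥ (w *ᵥ y) - y ∈ orb (Com B) v := fun y => by
      rw [← perp_perp (orb (Com B) v)]
      intro z hz
      rw [ip_sub_right, ← ip_mulVec, (w3 z hz).1, ip_mulVec_right, (w3 z hz).2, sub_self]
    have w6 : st w *ᵥ (w *ᵥ u) = u := sub_eq_zero.1 (K _ (w5 u) (mem_perp_orb.2 fun C hC => by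
      rw [ip_sub_right, ← ip_mulVec, ← com_mulVec hC w1, w2, key C hC, sub_self]))
    refine ⟨w, w1, mat_ext fun y => ?_, w4, by rw [w2, hv], fun x hx => (w3 x (v4 x hx)).1⟩
    rw [← Matrix.mulVec_mulVec, Matrix.one_mulVec]
    refine sub_eq_zero.1 (K _ (w5 y) (mem_perp_orb.2 fun C hC => ?_))
    rw [ip_sub_right, ← ip_mulVec, ip_mulVec_right, ← com_mulVec hC w1,
      ← com_mulVec hC (h.alg.star _ w1), w6, sub_self]

/-- the theorem of Witt -/
theorem wq (h : Str ℓ B) (hq : QZ B) {b : Mat p n} (hb : b ∈ B) (hc : b (c0 n) (c0 n) = 1) :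
    ∃ w ∈ B, Un w ∧ w (c0 n) (c0 n) = 1 ∧
      ∀ u : Vec p n, st b *ᵥ (b *ᵥ u) = u → w *ᵥ u = b *ᵥ u := by
  have hs := h.alg.star b hb
  obtain ⟨W, ⟨h1, h2, w, w1, w2, w3, w4⟩, hmax⟩ := set_has_maximal_iff_noetherian.2
    (inferInstance : IsNoetherian (ZMod p) (Vec p n))
    {W : VS p n | Stab B W ∧ (∀ u ∈ W, st b *ᵥ (b *ᵥ u) = u) ∧
      ∃ w ∈ B, Un w ∧ w (c0 n) (c0 n) = 1 ∧ ∀ u ∈ W, w *ᵥ u = b *ᵥ u}
    ⟨⊥, stab_bot, fun u hu => by simp [(Submodule.mem_bot _).1 hu], 1, h.alg.one, Un.one,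
      Matrix.one_apply_eq _, fun u hu => by simp [(Submodule.mem_bot _).1 hu]⟩
  refine ⟨w, w1, w2, w3, fun u hu => w4 u (mem_of_blocks h.lab fun a => ?_)⟩
  have hx := pr_mulVec_mem (ℓ := ℓ) a u
  have hy : st b *ᵥ (b *ᵥ (pr ℓ a *ᵥ u)) = pr ℓ a *ᵥ u := by
    rw [← com_mulVec (com_pr h.alg a) hb, ← com_mulVec (com_pr h.alg a) hs, hu]
  generalize pr ℓ a *ᵥ u = x at hx hy
  by_contra hn
  have ws := h.alg.star w w1
  have e1 : ∀ y, st (st w * b) *ᵥ ((st w * b) *ᵥ y) = st b *ᵥ (b *ᵥ y) := fun y => by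
    rw [st_mul, st_st, ← Matrix.mulVec_mulVec, ← Matrix.mulVec_mulVec, w2.mulVec_st]
  have e2 : ∀ y ∈ W, (st w * b) *ᵥ y = y := fun y hy => by
    rw [← Matrix.mulVec_mulVec, ← w4 y hy, w2.st_mulVec]
  obtain ⟨z, z1, z2, z3, z4, z5⟩ := wq_step h hq (h.alg.mul _ ws _ hb)
    (by rw [((h.alg.dg _ ws).tri h.lab).mul_c0, st_apply, rev_c0, w3, hc, one_mul]) h1 e2
    (fun y hy => by rw [← e2 y hy, e1, e2 y hy, h2 y hy]) hx (by rw [e1, hy]) hn
  have wz := h.alg.mul _ w1 _ z1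
  refine hmax (W ⊔ orb (Com B) x) ⟨h1.sup (stab_orb x), fun y hy' => ?_, w * z, wz, w2.mul z2,
    by rw [((h.alg.dg _ w1).tri h.lab).mul_c0, w3, z3, one_mul], fun y hy' => ?_⟩
    (lt_of_le_of_ne le_sup_left fun e => hn (e ▸ Submodule.mem_sup_right (self_mem_orb x)))
  · obtain ⟨m, hm, v, hv, rfl⟩ := Submodule.mem_sup.1 hy'
    have := on_orb (h.alg.mul _ hs _ hb) h.alg.one
      (by rw [← Matrix.mulVec_mulVec, hy, Matrix.one_mulVec]) v hv
    rw [← Matrix.mulVec_mulVec, Matrix.one_mulVec] at this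
    rw [Matrix.mulVec_add, Matrix.mulVec_add, h2 m hm, this]
  · obtain ⟨m, hm, v, hv, rfl⟩ := Submodule.mem_sup.1 hy'
    rw [Matrix.mulVec_add, Matrix.mulVec_add, ← Matrix.mulVec_mulVec, z5 m hm, w4 m hm,
      on_orb wz hb (by rw [← Matrix.mulVec_mulVec, z4, ← Matrix.mulVec_mulVec, w2.mulVec_st]) v hv]

end Pool.Agent.P.MP_f1a348_lc.GF
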