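import Pool.Agent.P.MP_f1a348_lc.GF.Iface
import Pool.Agent.P.MP_f1a348_lc.GF.WQ

/-! Project GF: isometries extend in algebras with simple blocks and in their cosets. -/

namespace Pool.Agent.P.MP_f1a348_lc.UP.GF

open Matrix Module Pool.Agent.P.MP_f1a348_lc.PG

theorem a_WQ (p n : ℕ) [Fact p.Prime] : S_WQ p n := by
  intro ℓ B h hq
  have k : WP B := fun b hb hc => by
    obtain ⟨w, w1, w2, w3, w4⟩ := Pool.Agent.P.MP_f1a348_lc.GF.wq h (fun a ha h0 => by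
      simpa [h0] using hq a ha) hb hc
    exact ⟨w, ⟨w1, w2, w3⟩, w4⟩
  refine ⟨k, fun φ hφ => ?_⟩
  rintro _ ⟨b, hb, rfl⟩ hc
  rw [lm_apply] at hc ⊢
  rw [hφ.par.1.mul_c0, hφ.par.2.2, one_mul] at hc
  obtain ⟨w, w1, w2⟩ := k b hb hc
  refine ⟨φ * w, ⟨⟨w, w1.1, rfl⟩, hφ.un.mul w1.2.1, ?_⟩, fun u hu => ?_⟩
  · rw [hφ.par.1.mul_c0, hφ.par.2.2, one_mul, w1.2.2]
  · rw [st_mul, ← mulVec_mulVec, ← mulVec_mulVec, hφ.un.st_mulVec] at hu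
    rw [← mulVec_mulVec, ← mulVec_mulVec, w2 u hu]

end Pool.Agent.P.MP_f1a348_lc.UP.GF
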