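import Pool.Agent.P.MP_f1a348_lc.GF.Time
import Pool.Agent.P.MP_f1a348_lc.GF.TWQ2
import Pool.Agent.P.MP_f1a348_lc.GF.TNNL
import Pool.Agent.P.MP_f1a348_lc.GF.TFU
import Pool.Agent.P.MP_f1a348_lc.GF.TGU
import Pool.Agent.P.MP_f1a348_lc.GF.TCUT1
import Pool.Agent.P.MP_f1a348_lc.GF.TCUTA
import Pool.Agent.P.MP_f1a348_lc.GF.TREF2
import Pool.Agent.P.MP_f1a348_lc.GF.TDK
import Pool.Agent.P.MP_f1a348_lc.GF.TANN2
import Pool.Agent.P.MP_f1a348_lc.GF.TUNI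
import Pool.Agent.P.MP_f1a348_lc.GF.TKAP
import Pool.Agent.P.MP_f1a348_lc.GF.TPS
import Pool.Agent.P.MP_f1a348_lc.GF.TTST
import Pool.Agent.P.MP_f1a348_lc.GF.TCOR
import Pool.Agent.P.MP_f1a348_lc.GF.TLVL
import Pool.Agent.P.MP_f1a348_lc.GF.TTOW
import Pool.Agent.P.MP_f1a348_lc.GF.TCORE
import Pool.Agent.P.MP_f1a348_lc.UP.TQRED
import Pool.Agent.P.MP_f1a348_lc.UP.TQBFS
import Pool.Agent.P.MP_f1a348_lc.UP.TQSUBS
import Pool.Agent.P.MP_f1a348_lc.CF.TCUT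
import Pool.Agent.P.MP_f1a348_lc.CF.TSPL
import Pool.Agent.P.MP_f1a348_lc.CF.TMKG
import Pool.Agent.P.MP_f1a348_lc.CF.TREF
import Pool.Agent.P.MP_f1a348_lc.CF.TINV

/-!
Project GF: the programs `findQ` and `genQ` are correct for every prime.
-/

namespace Pool.Agent.P.MP_f1a348_lc.UP.GF

variable (p n : ℕ) [Fact p.Prime]

theorem a_LVL : S_LVL p n :=
  have hR := s_QRED p n
  have hB := s_QBFS p n hR
  s_LVL p n (s_TST p n (s_KAP p n) (s_PS p n (s_KAP p n)) (s_NNL p n) (s_SOL p n) (a_ANN p n)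
    (s_QSUBS p n hR hB) (s_QCOS p n hR hB)) (s_COR p n (s_KAP p n) (s_SOL p n) (s_UNI p n))
    (s_UNI p n) (s_DK p n) (a_ANN p n) hR

theorem a_CORE : S_CORE p n :=
  s_CORE p n (s_CUTA p n (s_CUT1 p n))
    (s_REF2 p n (CF.s_CUT n) (CF.s_SPL p n (CF.s_CUT n)) (CF.s_MKG p n) (CF.s_REF p n)
      (CF.s_INV p n))
    (s_TOW p n (a_LVL p n) (a_WQ p n) (s_FU p n) (s_GU p n (s_FU p n)))

theorem a_QFIND : S_QFIND p n := s_QFIND p n (a_CORE p n)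

theorem a_QGEN : S_QGEN p n := s_QGEN p n (a_CORE p n)

end Pool.Agent.P.MP_f1a348_lc.UP.GF
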