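import Pool.Agent.P.MP_f1a348_lc.UP.Defs

/-!
Project GF: the filtration of the triangular matrices by weights.
-/

namespace Pool.Agent.P.MP_f1a348_lc.UP.GF

open Matrix Module Pool.Agent.P.MP_f1a348_lc.PG

variable {p n : ℕ} {ℓ : Ix n → ℕ} {j k : ℕ} {M N a b : Mat p n}

theorem tri_zero : Tri ℓ (0 : Mat p n) := fun _ _ h => absurd rfl h

theorem ne_of_add {α β : Ix n} (h : (M + N) α β ≠ 0) : M α β ≠ 0 ∨ N α β ≠ 0 := by
  by_contra! e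
  exact h (by rw [Matrix.add_apply, e.1, e.2, add_zero])

theorem ne_of_smul {c : ZMod p} {α β : Ix n} (h : (c • M) α β ≠ 0) : M α β ≠ 0 :=
  fun e => h (by rw [Matrix.smul_apply, e, smul_zero])

/-- triangular matrices of weight at least `k` -/
def Tk (ℓ : Ix n → ℕ) (k : ℕ) : Sub p n where
  carrier := {M | Tri ℓ M ∧ ∀ α β, M α β ≠ 0 → ℓ α + ℓ β.rev + k ≤ ℓ β + ℓ α.rev}
  add_mem' hx hy := ⟨hx.1.add hy.1, fun α β h => (ne_of_add h).elim (hx.2 α β) (hy.2 α β)⟩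
  zero_mem' := ⟨tri_zero, fun _ _ h => absurd rfl h⟩
  smul_mem' c _ hx := ⟨hx.1.smul c, fun α β h => hx.2 α β (ne_of_smul h)⟩

/-- the part of `Tk` above the centre -/
def Dk (ℓ : Ix n → ℕ) (k : ℕ) : Sub p n where
  carrier := {M | M ∈ Tk ℓ k ∧ ∀ α β, M α β ≠ 0 → c0 n < α}
  add_mem' hx hy := ⟨add_mem hx.1 hy.1, fun α β h => (ne_of_add h).elim (hx.2 α β) (hy.2 α β)⟩
  zero_mem' := ⟨zero_mem _, fun _ _ h => absurd rfl h⟩
  smul_mem' c _ hx := ⟨Submodule.smul_mem _ c hx.1, fun α β h => hx.2 α β (ne_of_smul h)⟩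

/-- `x ↦ x - st x` -/
noncomputable def sk : Mat p n →ₗ[ZMod p] Mat p n := LinearMap.id - stL

@[simp] theorem sk_apply (x : Mat p n) : sk x = x - st x := rfl

theorem mem_Tk : M ∈ Tk ℓ k ↔
    Tri ℓ M ∧ ∀ α β, M α β ≠ 0 → ℓ α + ℓ β.rev + k ≤ ℓ β + ℓ α.rev := Iff.rfl

theorem mem_Dk : M ∈ Dk ℓ k ↔ M ∈ Tk ℓ k ∧ ∀ α β, M α β ≠ 0 → c0 n < α := Iff.rfl

theorem tk_tri (h : M ∈ Tk ℓ k) : Tri ℓ M := h.1

theorem dk_le : (Dk ℓ k : Sub p n) ≤ Tk ℓ k := fun _ h => h.1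

theorem tk_mono (e : j ≤ k) : (Tk ℓ k : Sub p n) ≤ Tk ℓ j := fun _ h =>
  ⟨h.1, fun α β h0 => (Nat.add_le_add_left e _).trans (h.2 α β h0)⟩

theorem tk_succ (h : M ∈ Tk ℓ (k + 1)) : M ∈ Tk ℓ k := tk_mono (Nat.le_succ k) h

theorem tk_zero (hl : Lab ℓ) (h : Tri ℓ M) : M ∈ Tk ℓ 0 := ⟨h, fun α β h0 => by
  have h1 := (h α β h0).1
  have h2 := hl.sym α β h1
  omega⟩

theorem tk_mul (hM : M ∈ Tk ℓ j) (hN : N ∈ Tk ℓ k) : M * N ∈ Tk ℓ (j + k) :=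
  ⟨hM.1.mul hN.1, fun α β h => by
    obtain ⟨γ, h1, h2⟩ := exists_of_mul_ne h
    have h3 := hM.2 _ _ h1
    have h4 := hN.2 _ _ h2
    omega⟩

theorem tk_left (hl : Lab ℓ) (ha : Tri ℓ a) (h : M ∈ Tk ℓ k) : a * M ∈ Tk ℓ k := by
  simpa using tk_mul (tk_zero hl ha) h

theorem tk_right (hl : Lab ℓ) (h : M ∈ Tk ℓ k) (ha : Tri ℓ a) : M * a ∈ Tk ℓ k :=
  tk_mul h (tk_zero hl ha)

theorem tk_lr (hl : Lab ℓ) (ha : Tri ℓ a) (h : M ∈ Tk ℓ k) (hb : Tri ℓ b) :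
    a * M * b ∈ Tk ℓ k := tk_right hl (tk_left hl ha h) hb

/-- products of two elements of positive weight -/
theorem tk_mul' (hj : 1 ≤ j) (hM : M ∈ Tk ℓ j) (hN : N ∈ Tk ℓ k) : M * N ∈ Tk ℓ (k + 1) :=
  tk_mono (by omega) (tk_mul hM hN)

theorem tk_mul'' (hj : 1 ≤ j) (hM : M ∈ Tk ℓ k) (hN : N ∈ Tk ℓ j) : M * N ∈ Tk ℓ (k + 1) :=
  tk_mono (by omega) (tk_mul hM hN)

theorem tk_st (hl : Lab ℓ) (h : M ∈ Tk ℓ k) : st M ∈ Tk ℓ k := ⟨h.1.st hl, fun α β h0 => by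
  have := h.2 _ _ h0
  rw [Fin.rev_rev, Fin.rev_rev] at this
  omega⟩

theorem tk_gr (hl : Lab ℓ) (hk : 1 ≤ k) (h : M ∈ Tk ℓ k) : gr ℓ M = 0 := by
  ext α β
  rw [gr_apply, Matrix.zero_apply]
  split_ifs with e
  · by_contra h0
    have h1 := h.2 _ _ h0
    have h2 := hl.rev_eq.2 e
    omega
  · rfl

theorem tk_of_gr (hl : Lab ℓ) (h : Tri ℓ M) (e : gr ℓ M = 0) : M ∈ Tk ℓ 1 := ⟨h, fun α β h0 => by
  have h1 := (h α β h0).1
  have h2 := hl.sym α β h1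
  have h3 : ℓ α ≠ ℓ β := fun e' => h0 (by
    have := congrFun (congrFun e α) β
    rwa [gr_apply, if_pos e'] at this)
  omega⟩

theorem sub_gr_mem (hl : Lab ℓ) (h : Tri ℓ M) : M - gr ℓ M ∈ Tk ℓ 1 :=
  tk_of_gr hl (h.sub ((dg_gr M).tri hl)) (by rw [map_sub, gr_gr, sub_self])

theorem gr_eq_of_sub (hl : Lab ℓ) (hk : 1 ≤ k) (h : M - N ∈ Tk ℓ k) : gr ℓ M = gr ℓ N := by
  rw [← sub_eq_zero, ← map_sub, tk_gr hl hk h]

theorem tk_top (hl : Lab ℓ) (hk : 2 * (2 * n + 1) ≤ k) (h : M ∈ Tk ℓ k) : M = 0 := by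
  ext α β
  by_contra h0
  have h1 := h.2 _ _ h0
  have h2 := hl.lt β
  have h3 := hl.lt α.rev
  omega

theorem tk_c0 (hk : 1 ≤ k) (h : M ∈ Tk ℓ k) : M (c0 n) (c0 n) = 0 := by
  by_contra h0
  have h1 := h.2 _ _ h0
  omega

theorem tk_pow (hl : Lab ℓ) (h : M ∈ Tk ℓ k) (i : ℕ) : M ^ i ∈ Tk ℓ (i * k) := by
  induction i with
  | zero => simpa using tk_zero hl Tri.one
  | succ i ih => rw [pow_succ, Nat.succ_mul]; exact tk_mul ih h

/-- the projection to the part above the centre -/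
def eD : Mat p n := Matrix.diagonal fun α => if c0 n < α then 1 else 0

theorem eD_mul (M : Mat p n) (α β : Ix n) :
    (eD * M : Mat p n) α β = if c0 n < α then M α β else 0 := by
  rw [eD, Matrix.diagonal_mul]; split_ifs <;> simp

theorem eD_mem (h : M ∈ Tk ℓ k) : eD * M ∈ Dk ℓ k := by
  have key : ∀ α β, (eD * M : Mat p n) α β ≠ 0 → M α β ≠ 0 ∧ c0 n < α := fun α β h0 => by
    rw [eD_mul] at h0
    by_cases e : c0 n < α
    · exact ⟨by rwa [if_pos e] at h0, e⟩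
    · exact absurd (if_neg e) h0
  exact ⟨⟨fun α β h0 => h.1 α β (key α β h0).1, fun α β h0 => h.2 α β (key α β h0).1⟩,
    fun α β h0 => (key α β h0).2⟩

/-- an element of positive weight is the sum of its two parts -/
theorem tk_split (hk : 1 ≤ k) (h : M ∈ Tk ℓ k) : M = eD * M + st (eD * st M) := by
  ext α β
  rw [Matrix.add_apply, st_apply, eD_mul, eD_mul, st_apply, Fin.rev_rev, Fin.rev_rev]
  by_cases h0 : M α β = 0
  · simp [h0]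
  obtain ⟨-, h1, h2⟩ := h.1 α β h0
  rcases lt_trichotomy α (c0 n) with e | e | e
  · rw [if_neg e.not_gt, if_pos (c0_lt_rev.2 (h1.1 e)), zero_add]
  · subst e
    have : β = c0 n := le_antisymm (not_lt.1 fun e => lt_irrefl _ (h2.2 e))
      (not_lt.1 fun e => lt_irrefl _ (h1.2 e))
    subst this
    exact absurd (tk_c0 hk h) h0
  · rw [if_pos e, if_neg (fun e' => (h2.1 e).not_gt (c0_lt_rev.1 e')), add_zero]

/-- `x - st x` only needs the part above the centre -/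
theorem sk_mem (hl : Lab ℓ) (hk : 1 ≤ k) (h : M ∈ Tk ℓ k) : sk M ∈ (Dk ℓ k).map sk := by
  refine ⟨eD * M - eD * st M, sub_mem (eD_mem h) (eD_mem (tk_st hl h)), ?_⟩
  have e := tk_split hk h
  have e' := congrArg st e
  rw [st_add, st_st] at e'
  rw [sk_apply, sk_apply, st_sub]
  calc _ = eD * M + st (eD * st M) - (st (eD * M) + eD * st M) := by abel
    _ = _ := by rw [← e, ← e']

theorem sk_tk (hl : Lab ℓ) (h : M ∈ Tk ℓ k) : sk M ∈ Tk ℓ k := sub_mem h (tk_st hl h)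

/-- a unitary element that is `1` in weight `k` -/
theorem un_sk (hl : Lab ℓ) (hk : 1 ≤ k) {g : Mat p n} (hg : Un g) (h : g - 1 ∈ Tk ℓ k) :
    g - 1 - sk (eD * (g - 1)) ∈ Tk ℓ (k + 1) := by
  have h1 : st (g - 1) + (g - 1) ∈ Tk ℓ (k + 1) := by
    have := neg_mem (tk_mul' hk (tk_st hl h) h)
    convert this using 1
    rw [st_sub, st_one, sub_mul, mul_sub, mul_sub, hg.st_mul]
    simp only [mul_one, one_mul]; abel
  have h2 := tk_st hl (eD_mem h1).1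
  convert h2 using 1
  rw [mul_add, st_add, sk_apply]
  nth_rewrite 1 [tk_split hk h]
  abel

end Pool.Agent.P.MP_f1a348_lc.UP.GF
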