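import Pool.Agent.P.MP_f1a348_lc.GF.Iface

/-! Isotropic idempotents through an isotropic vector, for every prime. -/

namespace Pool.Agent.P.MP_f1a348_lc.UP.GF

open Matrix Module Pool.Agent.P.MP_f1a348_lc.PG

namespace TSEPQ

theorem alg {A : Type} [Ring A] {ρ σ t s : A} (h1 : ρ * ρ = ρ) (h2 : σ * σ = σ) (h3 : σ * ρ = 0)
    (h4 : ρ * σ = t + s) :
    (ρ - ρ * (t * σ)) * (ρ - ρ * (t * σ)) = ρ - ρ * (t * σ) ∧
    (ρ - ρ * (t * σ)) * (σ - ρ * (s * σ)) = 0 ∧ (σ - ρ * (s * σ)) * (ρ - ρ * (t * σ)) = 0 := by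
  have a1 : ∀ x, ρ * (ρ * x) = ρ * x := fun x => by rw [← mul_assoc, h1]
  have a3 : ∀ x, σ * (ρ * x) = 0 := fun x => by rw [← mul_assoc, h3, zero_mul]
  have a4 : ρ * (t * σ) + ρ * (s * σ) = ρ * σ := by
    rw [← mul_add, ← add_mul, ← h4, mul_assoc, h2, a1]
  simp only [mul_sub, sub_mul, mul_assoc, a1, a3, h1, h2, h3, mul_zero, sub_zero, sub_self,
    and_true, true_and]
  rw [sub_sub, a4, sub_self]

end TSEPQ

theorem s_SEPQ (p n : ℕ) [Fact p.Prime] : S_SEPQ p n := by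
  intro ℓ B W b y h hQ hW hy hi hp' hn
  obtain ⟨ρ, r1, r2, r3, r4, r5⟩ := proj h hW hy hn
  have hO : orb (Com B) y ≤ perp (orb (Com B) y) :=
    ((stab_orb y).perp h.alg).orb_le (isot_iff.1 hi)
  have s1 : st ρ * ρ = 0 := mat_ext fun u => by
    rw [← Matrix.mulVec_mulVec, Matrix.zero_mulVec]
    refine ip_nondeg fun v => ?_
    rw [← ip_mulVec_right]
    exact hO (r5 ⟨v, rfl⟩) _ (r5 ⟨u, rfl⟩)
  have s2 : ∀ w ∈ W, st ρ *ᵥ w = 0 := fun w hw => ip_nondeg fun v => by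
    rw [← ip_mulVec_right]
    exact (hW.perp h.alg).orb_le hp' (r5 ⟨v, rfl⟩) w hw
  have s3 : st ρ *ᵥ y = 0 := by rw [← r3, Matrix.mulVec_mulVec, s1, Matrix.zero_mulVec]
  have q1 := h.alg.star ρ r1
  have s4 : st ρ (c0 n) (c0 n) * st ρ (c0 n) (c0 n) = 0 := by
    have := ((h.alg.dg _ q1).tri h.lab).mul_c0 (h := ρ)
    rw [s1, Matrix.zero_apply] at this
    rw [this, st_apply, rev_c0]
  obtain ⟨t, ht, e0⟩ := hQ _ q1
  rw [s4, zero_smul, zero_add, st_st] at e0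
  obtain ⟨a1, a2, a3⟩ := TSEPQ.alg r2 (by rw [← st_mul, r2]) s1 e0
  have e : st (ρ - ρ * (t * st ρ)) = st ρ - ρ * (st t * st ρ) := by
    rw [st_sub, st_mul, st_mul, st_st, mul_assoc]
  have k : ∀ w, st ρ *ᵥ w = 0 → (ρ - ρ * (t * st ρ)) *ᵥ w = ρ *ᵥ w ∧
      st (ρ - ρ * (t * st ρ)) *ᵥ w = 0 := fun w hw => by
    simp [e, Matrix.sub_mulVec, ← Matrix.mulVec_mulVec, hw]
  rw [← e] at a2 a3
  refine ⟨ρ - ρ * (t * st ρ), sub_mem r1 (h.alg.mul _ r1 _ (h.alg.mul _ ht _ q1)), ⟨a1, a2, a3⟩,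
    (k y s3).1.trans r3, fun w hw => ⟨(k w (s2 w hw)).1.trans (r4 w hw), (k w (s2 w hw)).2⟩, ?_⟩
  rintro _ ⟨u, rfl⟩
  refine r5 ⟨u - (t * st ρ) *ᵥ u, ?_⟩
  simp [Matrix.mulVec_sub]

end Pool.Agent.P.MP_f1a348_lc.UP.GF
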