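import Pool.Agent.P.MP_f1a348_lc.GF.Iface

namespace Pool.Agent.P.MP_f1a348_lc.UP.GF

open Matrix Module Pool.Agent.P.MP_f1a348_lc.PG

namespace TUNI

variable {p n : ℕ} {ℓ : Ix n → ℕ} {k : ℕ} {x : Mat p n}

theorem col (h : x ∈ Dk ℓ k) {α β : Ix n} (e : x α β ≠ 0) : c0 n < α ∧ c0 n < β :=
  ⟨h.2 α β e, (h.1.1 α β e).2.2.1 (h.2 α β e)⟩

theorem mul_st (h : x ∈ Dk ℓ k) : x * st x = 0 := by
  ext α β
  by_contra e
  obtain ⟨γ, h1, h2⟩ := exists_of_mul_ne e
  exact (col h h1).2.not_gt (c0_lt_rev.1 (col h h2).2)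

theorem st_mul' (h : x ∈ Dk ℓ k) : st x * x = 0 := by
  ext α β
  by_contra e
  obtain ⟨γ, h1, h2⟩ := exists_of_mul_ne e
  exact (col h h2).1.not_gt (c0_lt_rev.1 (col h h1).1)

theorem inv (hl : Lab ℓ) (hk : 1 ≤ k) (h : x ∈ Tk ℓ k) :
    ∃ g : Mat p n, Tri ℓ g ∧ (x + 1) * g = 1 := by
  have h0 : (-x) ^ (2 * (2 * n + 1)) = 0 :=
    tk_top hl (Nat.le_mul_of_pos_right _ hk) (tk_pow hl (neg_mem h) _)
  refine ⟨∑ i ∈ Finset.range (2 * (2 * n + 1)), (-x) ^ i, ?_, ?_⟩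
  · exact tk_tri (k := 0) (Submodule.sum_mem _ fun i _ =>
      tk_mono (Nat.zero_le _) (tk_pow hl (neg_mem h) i))
  · have := mul_neg_geom_sum (-x) (2 * (2 * n + 1))
    rwa [h0, sub_zero, sub_neg_eq_add, add_comm 1 x] at this

theorem main (hl : Lab ℓ) (hk : 1 ≤ k) (h : x ∈ Dk ℓ k) {g : Mat p n} (hg : Tri ℓ g)
    (e : (x + 1) * g = 1) :
    Par ℓ ((x + 1) * st g) ∧ (x + 1) * st g - 1 - sk x ∈ Tk ℓ (k + 1) := by
  have e' : g * (x + 1) = 1 := mul_eq_one_comm.1 e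
  have e1 : (st x + 1) * st g = 1 := by
    have := congrArg st e'
    rwa [st_mul, st_add, st_one] at this
  have hy := tk_st hl h.1
  have key : (x + 1) * st g - 1 - sk x = st x * st x * st g := by
    have e2 : st g = 1 - st x * st g := by rw [← e1, add_mul, one_mul]; abel
    have e3 : x * st g = x := by rw [e2, mul_sub, ← mul_assoc, mul_st h, zero_mul, mul_one, sub_zero]
    have e4 : st x * st x * st g = st x - st x * st g := by
      conv_rhs => rw [e2, mul_sub, mul_one, sub_sub_cancel, ← mul_assoc]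
    rw [e4, add_mul, e3, one_mul, sk_apply]
    conv_lhs => rw [e2]
    abel
  have h1 : (x + 1) * st g - 1 - sk x ∈ Tk ℓ (k + 1) := by
    rw [key]; exact tk_right hl (tk_mul' hk hy hy) (hg.st hl)
  refine ⟨⟨((tk_tri h.1).add Tri.one).mul (hg.st hl), ?_, ?_⟩, h1⟩
  · have c : (st x + 1) * (x + 1) = (x + 1) * (st x + 1) := by
      simp only [add_mul, mul_add, mul_one, one_mul, mul_st h, st_mul' h]; abel
    rw [Un, st_mul, st_st, st_add, st_one, mul_assoc, ← mul_assoc (st x + 1), c, mul_assoc, e1,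
      mul_one, e']
  · have h2 : (x + 1) * st g - 1 ∈ Tk ℓ k := by
      simpa using add_mem (tk_succ h1) (sk_tk hl h.1)
    have := tk_c0 hk h2
    rwa [Matrix.sub_apply, Matrix.one_apply_eq, sub_eq_zero] at this

end TUNI

theorem s_UNI (p n : ℕ) [Fact p.Prime] : S_UNI p n := by
  intro c ℓ k x h hl hk hx
  obtain ⟨g, hg, e⟩ := TUNI.inv hl hk hx.1
  have e1 : mV p n (axpy c (u2 c) 1 x (oneP c)) = mV p n x + 1 := by
    have h1 : dv (mat p n) (oneP c) = 1 := h.oneP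
    have := dv_axpy h.hp h.d2 1 x (oneP c)
    rw [h1, Nat.cast_one, one_smul] at this
    exact this
  have e2 : mV p n (uni c x) = (mV p n x + 1) * st g := by
    rw [uni, uniQ, h.mmul, h.mstar, h.invP (e1 ▸ e), e1]
  rw [e2]
  exact TUNI.main hl hk hx hg e

end Pool.Agent.P.MP_f1a348_lc.UP.GF
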