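import Pool.Agent.P.MP_f1a348_lc.GF.Iface

/-!
Project GF: one step of the theorem of Witt.
-/

namespace Pool.Agent.P.MP_f1a348_lc.UP.GF

open Matrix Module Pool.Agent.P.MP_f1a348_lc.PG

namespace TWST

variable {p n : ℕ} {ℓ : Ix n → ℕ} {B : Sub p n}

theorem alg2 {A : Type} [Ring A] {a b c d : A} (h1 : a * a = 0) (h2 : b * b = 0) (h3 : b * a = 0)
    (h4 : c + d = a * b) (h5 : a * c = 0) (h6 : b * c = 0) (h7 : d * a = 0) (h8 : d * b = 0)
    (h9 : d * c = 0) : (1 + b - a - d) * (1 + a - b - c) = 1 := by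
  linear_combination (norm := noncomm_ring) -h1 - h2 + h3 - h4 + h5 - h6 - h7 + h8 + h9

theorem alg3 {A : Type} [Ring A] {π σ g h k l : A} (h1 : π * π = π) (h2 : σ * σ = σ)
    (h3 : π * σ = 0) (h4 : σ * π = 0) (a1 : π * g = g) (a2 : σ * h = h) (a3 : k * σ = k)
    (a4 : l * π = l) (a5 : l * g = π) (a6 : k * h = σ) :
    (1 - σ - π + k + l) * (1 - π - σ + g + h) = 1 := by
  have e1 : σ * g = 0 := by rw [← a1, ← mul_assoc, h4, zero_mul]
  have e2 : π * h = 0 := by rw [← a2, ← mul_assoc, h3, zero_mul]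
  have e3 : k * π = 0 := by rw [← a3, mul_assoc, h4, mul_zero]
  have e4 : l * σ = 0 := by rw [← a4, mul_assoc, h3, mul_zero]
  have e5 : k * g = 0 := by rw [← a3, mul_assoc, e1, mul_zero]
  have e6 : l * h = 0 := by rw [← a4, mul_assoc, e2, mul_zero]
  linear_combination (norm := noncomm_ring) h1 + h2 + h3 + h4 - a1 - a2 - a3 - a4 + a5 + a6 -
    e1 - e2 - e3 - e4 + e5 + e6

theorem st_kill {W : VS p n} {g : Mat p n} (hg : ∀ x, g *ᵥ x ∈ W) {y : Vec p n}
    (hy : y ∈ perp W) : st g *ᵥ y = 0 :=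
  ip_nondeg fun z => by rw [← ip_mulVec_right, ip_comm]; exact hy _ (hg z)

theorem mul_zero_of {W : VS p n} {f g : Mat p n} (hg : ∀ x, g *ᵥ x ∈ W)
    (hf : ∀ w ∈ W, f *ᵥ w = 0) : f * g = 0 :=
  mat_ext fun x => by rw [← Matrix.mulVec_mulVec, hf _ (hg x), Matrix.zero_mulVec]

theorem on_orb {f g : Mat p n} (hf : f ∈ B) (hg : g ∈ B) {v : Vec p n} (e : f *ᵥ v = g *ᵥ v) :
    ∀ w ∈ orb (Com B) v, f *ᵥ w = g *ᵥ w := by
  intro w hw
  obtain ⟨C, hC, rfl⟩ := mem_orb.1 hw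
  rw [← com_mulVec hC hf, ← com_mulVec hC hg, e]

variable [Fact p.Prime]

theorem move (h : Str ℓ B) {W : VS p n} (hW : Stab B W) {a : Ix n} {u v : Vec p n}
    (hu : u ∈ Vb ℓ a) (hn : u ∉ W) (hv : v ∈ Vb ℓ a) :
    ∃ c ∈ B, c *ᵥ u = v ∧ (∀ w ∈ W, c *ᵥ w = 0) ∧ ∀ x, c *ᵥ x ∈ orb (Com B) v := by
  obtain ⟨ρ, hρ, _, a2, a3, a4⟩ := proj h hW hu hn
  obtain ⟨c, hc, e⟩ := h.sim a u hu (fun e => hn (e ▸ zero_mem _)) v hv
  refine ⟨c * ρ, h.alg.mul _ hc _ hρ, by rw [← Matrix.mulVec_mulVec, a2, e], fun w hw => by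
    rw [← Matrix.mulVec_mulVec, a3 w hw, Matrix.mulVec_zero], fun x => ?_⟩
  obtain ⟨C, hC, e2⟩ := mem_orb.1 (a4 ⟨x, rfl⟩)
  refine mem_orb.2 ⟨C, hC, ?_⟩
  rw [← Matrix.mulVec_mulVec, show ρ *ᵥ x = C *ᵥ u from e2.symm, ← com_mulVec hC hc, e]

end TWST

open TWST

theorem s_WST (p n : ℕ) [Fact p.Prime] (hSEPQ : S_SEPQ p n) : S_WST p n := by
  intro ℓ B W a u u' h hq hW hu hu' hn hn' v2 key
  have v1 := sub_mem hu' hu
  obtain ⟨v, rfl⟩ : ∃ v, u' = u + v := ⟨u' - u, by abel⟩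
  rw [add_sub_cancel_left] at v1 v2
  have v3 : orb (Com B) v ≤ perp W := (hW.perp h.alg).orb_le v2
  have v4 : ∀ w ∈ W, w ∈ perp (orb (Com B) v) := fun w hw x hx => by
    rw [ip_comm]; exact v3 hx w hw
  have hP := (stab_orb (B := B) v).perp h.alg
  by_cases c1 : u ∈ perp (orb (Com B) v)
  · have c2 := perp_orb_symm h.alg c1
    have hi : Isot B v := fun C hC => by
      have := key C hC
      rwa [Matrix.mulVec_add, ip_add_left, ip_add_right, ip_add_right, mem_perp_orb.1 c1 C hC,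
        mem_perp_orb.1 c2 C hC, add_zero, zero_add, add_eq_left] at this
    have hO : orb (Com B) v ≤ perp (orb (Com B) v) := hP.orb_le (isot_iff.1 hi)
    by_cases c3 : u ∈ W ⊔ orb (Com B) v
    · obtain ⟨m, hm, x, hx, xa, e⟩ : ∃ m ∈ W, ∃ x ∈ orb (Com B) v, x ∈ Vb ℓ a ∧ m + x = u := by
        obtain ⟨m, hm, x, hx, e⟩ := Submodule.mem_sup.1 c3
        exact ⟨_, hW _ (com_pr h.alg a) m hm, _, stab_orb v _ (com_pr h.alg a) x hx,
          pr_mulVec_mem a x, by rw [← Matrix.mulVec_add, e, mem_Vb_iff.1 hu]⟩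
      have n1 : v ∉ W := fun e' => hn (e ▸ add_mem hm (hW.orb_le e' hx))
      obtain ⟨π, p1, ⟨p2, p3, p4⟩, p5, p6, p8⟩ := hSEPQ ℓ B W a v h hq hW v1 hi v2 n1
      have p7 : ∀ y, π *ᵥ y ∈ orb (Com B) v := fun y => p8 ⟨y, rfl⟩
      have q1 := h.alg.star π p1
      have x0 : x ≠ 0 := fun e' => hn (by rw [← e, e', add_zero]; exact hm)
      have y0 : x + v ≠ 0 := fun e' => hn' (by rw [← e, add_assoc, e', add_zero]; exact hm)
      obtain ⟨b, hb, x1⟩ := h.sim a x xa x0 _ (add_mem xa v1)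
      obtain ⟨c, hc, x2⟩ := h.sim a _ (add_mem xa v1) y0 x xa
      have x3 : orb (Com B) v ≤ orb (Com B) x :=
        (stab_orb x).orb_le (mem_of_orb h (stab_orb x) v1 hx x0 (self_mem_orb x))
      have x4 : ∀ y ∈ orb (Com B) v, π *ᵥ y = y := fun y hy => by
        rw [on_orb p1 h.alg.one (by rw [p5, Matrix.one_mulVec]) y hy, Matrix.one_mulVec]
      have x5 : π * (b * π) = b * π := mat_ext fun y => by
        rw [← Matrix.mulVec_mulVec, ← Matrix.mulVec_mulVec]
        obtain ⟨C, hC, e2⟩ := mem_orb.1 (x3 (p7 y))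
        refine x4 _ ?_
        rw [← e2, ← com_mulVec hC hb, x1]
        exact stab_orb v C hC _ (add_mem hx (self_mem_orb v))
      have x6 : c * (b * π) = π := mat_ext fun y => by
        rw [← mul_assoc, ← Matrix.mulVec_mulVec,
          on_orb (h.alg.mul _ hc _ hb) h.alg.one (by rw [← Matrix.mulVec_mulVec, x1, x2,
            Matrix.one_mulVec]) _ (x3 (p7 y)), Matrix.one_mulVec]
      have x7 : st π *ᵥ x = 0 := st_kill p7 (hO hx)
      have x8 : π * c * π * (b * π) = π := by rw [mul_assoc, x5, mul_assoc, x6, p2]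
      have x9 : π * c * π * π = π * c * π := by rw [mul_assoc, p2]
      refine ⟨1 - π - st π + b * π + st (π * c * π), add_mem (add_mem (sub_mem (sub_mem h.alg.one
        p1) q1) (h.alg.mul _ hb _ p1)) (h.alg.star _ (h.alg.mul _ (h.alg.mul _ p1 _ hc) _ p1)),
        ?_, ?_, fun y hy => ?_⟩
      · rw [Un, st_add, st_add, st_sub, st_sub, st_one, st_st, st_st]
        exact alg3 p2 (by rw [← st_mul, p2]) p3 p4 x5 (by rw [← st_mul, x9])
          (by rw [← st_mul, x5]) x9 x8 (by rw [← st_mul, x8])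
      · rw [← e]
        simp only [st_mul, Matrix.add_mulVec, Matrix.sub_mulVec, Matrix.mulVec_add,
          Matrix.one_mulVec, ← Matrix.mulVec_mulVec, (p6 m hm).1, (p6 m hm).2, x4 x hx, x7, x1,
          Matrix.mulVec_zero]
        abel
      · simp only [st_mul, Matrix.add_mulVec, Matrix.sub_mulVec, Matrix.one_mulVec,
          ← Matrix.mulVec_mulVec, (p6 y hy).1, (p6 y hy).2, Matrix.mulVec_zero, sub_zero, add_zero]
    · obtain ⟨c, k1, k2, k3, k4⟩ := move h (hW.sup (stab_orb v)) hu c3 v1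
      by_cases v0 : v = 0
      · exact ⟨1, h.alg.one, Un.one, by rw [v0, add_zero, Matrix.one_mulVec],
          fun x _ => Matrix.one_mulVec x⟩
      obtain ⟨π, p1, _, p3, _, p5⟩ := proj h stab_bot v1 (by rwa [Submodule.mem_bot])
      have p6 : ∀ x, π *ᵥ x ∈ orb (Com B) v := fun x => p5 ⟨x, rfl⟩
      have k6 : ∀ y ∈ orb (Com B) v, c *ᵥ y = 0 := fun y hy => k3 y (Submodule.mem_sup_right hy)
      have k7 : ∀ y ∈ orb (Com B) v, st c *ᵥ y = 0 := fun y hy => st_kill k4 (hO hy)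
      have k8 : ∀ y ∈ orb (Com B) v, st π *ᵥ y = 0 := fun y hy => st_kill p6 (hO hy)
      have k5 : c (c0 n) (c0 n) * c (c0 n) (c0 n) = 0 := by
        rw [← ((h.alg.dg c k1).tri h.lab).mul_c0, mul_zero_of k4 k6, Matrix.zero_apply]
      obtain ⟨t, t1, t2⟩ := hq (st c) (h.alg.star _ k1)
      rw [st_st, st_apply, rev_c0, k5, zero_smul, zero_add] at t2
      have k9 : π * c = c := mat_ext fun y => by
        rw [← Matrix.mulVec_mulVec,
          on_orb p1 h.alg.one (by rw [p3, Matrix.one_mulVec]) _ (k4 y), Matrix.one_mulVec]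
      have z1 : c * π = 0 := mul_zero_of p6 k6
      have z3 : st π * π = 0 := mul_zero_of p6 k8
      have z4 : st π * c = 0 := mul_zero_of k4 k8
      have z5 : st π * st c = 0 := by rw [← st_mul, z1, st_zero]
      have z6 : ∀ x, (π * t * st π) *ᵥ x ∈ orb (Com B) v := fun x => by
        rw [mul_assoc, ← Matrix.mulVec_mulVec]; exact p6 _
      refine ⟨1 + c - st c - π * t * st π, sub_mem (sub_mem (add_mem h.alg.one k1)
        (h.alg.star _ k1)) (h.alg.mul _ (h.alg.mul _ p1 _ t1) _ (h.alg.star _ p1)), ?_, ?_,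
        fun y hy => ?_⟩
      · have := alg2 (a := c) (b := st c) (c := π * t * st π) (d := π * st t * st π)
          (mul_zero_of k4 k6) (by rw [← st_mul, mul_zero_of k4 k6, st_zero]) (mul_zero_of k4 k7)
          (by rw [← add_mul, ← mul_add, ← t2, ← mul_assoc, k9, mul_assoc, ← st_mul, k9])
          (mul_zero_of z6 k6) (mul_zero_of z6 k7) (by rw [mul_assoc, z4, mul_zero])
          (by rw [mul_assoc, z5, mul_zero])
          (by rw [mul_assoc, mul_assoc π t, ← mul_assoc (st π), z3, zero_mul, mul_zero])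
        rw [Un, st_sub, st_sub, st_add, st_one, st_st, st_mul, st_mul, st_st, ← mul_assoc]
        exact this
      · simp only [Matrix.add_mulVec, Matrix.sub_mulVec, Matrix.one_mulVec,
          ← Matrix.mulVec_mulVec, k2, st_kill k4 c1, st_kill p6 c1, Matrix.mulVec_zero, sub_zero]
      · simp only [Matrix.add_mulVec, Matrix.sub_mulVec, Matrix.one_mulVec,
          ← Matrix.mulVec_mulVec, k3 y (Submodule.mem_sup_left hy), st_kill k4 (v4 y hy),
          st_kill p6 (v4 y hy), Matrix.mulVec_zero, sub_zero, add_zero]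
  · obtain ⟨c, k1, k2, k3, k4⟩ := move h hP hu c1 v1
    have K : ∀ y ∈ orb (Com B) v, y ∈ perp (orb (Com B) u) → y = 0 := fun y a1 a2 => by
      by_contra a3
      exact c1 (perp_orb_symm h.alg (mem_of_orb h ((stab_orb u).perp h.alg) v1 a1 a3 a2))
    have w1 : 1 + c ∈ B := add_mem h.alg.one k1
    have w2 : (1 + c) *ᵥ u = u + v := by rw [Matrix.add_mulVec, Matrix.one_mulVec, k2]
    have w3 : ∀ y ∈ perp (orb (Com B) v), (1 + c) *ᵥ y = y ∧ st (1 + c) *ᵥ y = y := fun y hy => by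
      rw [st_add, st_one, Matrix.add_mulVec, Matrix.add_mulVec, Matrix.one_mulVec, k3 y hy,
        st_kill k4 hy, add_zero]
      exact ⟨rfl, rfl⟩
    generalize 1 + c = w at w1 w2 w3
    have w5 : ∀ y, st w *ᵥ (w *ᵥ y) - y ∈ orb (Com B) v := fun y => by
      rw [← perp_perp (orb (Com B) v)]
      intro z hz
      rw [ip_sub_right, ← ip_mulVec, (w3 z hz).1, ip_mulVec_right, (w3 z hz).2, sub_self]
    have w6 : st w *ᵥ (w *ᵥ u) = u := sub_eq_zero.1 (K _ (w5 u) (mem_perp_orb.2 fun C hC => by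
      rw [ip_sub_right, ← ip_mulVec, ← com_mulVec hC w1, w2, key C hC, sub_self]))
    refine ⟨w, w1, mat_ext fun y => ?_, w2, fun x hx => (w3 x (v4 x hx)).1⟩
    rw [← Matrix.mulVec_mulVec, Matrix.one_mulVec]
    refine sub_eq_zero.1 (K _ (w5 y) (mem_perp_orb.2 fun C hC => ?_))
    rw [ip_sub_right, ← ip_mulVec, ip_mulVec_right, ← com_mulVec hC w1,
      ← com_mulVec hC (h.alg.star _ w1), w6, sub_self]

end Pool.Agent.P.MP_f1a348_lc.UP.GF
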